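import Mathlib
import Pool.Agent.H54.W.OutsH
import Pool.Agent.H46.Sp.Lev

set_option autoImplicit false
open Finset

/-! # Levels of a window (columns, horizontal line in general position)

`te D τ x` : height of the line over the column `x`, `w` outside of the window. `LW D x`, `RW D x` : left wall of
the column `x` (`x = p` or a drop), right wall of the column `x - 1` (`x = q` or a rise). `TLev D τ G` : between
the columns of `G` the bottom, the line and the colours are constant (`a_eq`, `t_eq`, `c_eq`, `cc_eq`).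
`FatH D L` : teeth, lobes and the window are longer than `L`. `te_jump_L`, `te_jump_R` : the line runs along
the walls. `te_L`, `te_R` : the line near a wall is not above the lower end of the wall. -/

namespace Pool.Agent.H86.W

open Pool.Agent.H54.W Pool.Agent.H54.W.HWin
open Pool.Agent.H46.Sp (nxt nxt_le nxt_mem le_nxt not_lev)

/-- the height of the line, `w` outside of the window -/
def te (D : HWin) (τ : ℤ → ℤ) (x : ℤ) : ℤ := if D.p ≤ x ∧ x < D.q then τ x else D.w

/-- left wall of the column `x` -/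
def LW (D : HWin) (x : ℤ) : Prop := x = D.p ∨ (D.p < x ∧ x < D.q ∧ D.a x < D.a (x - 1))

/-- right wall of the column `x - 1` -/
def RW (D : HWin) (x : ℤ) : Prop := x = D.q ∨ (D.p < x ∧ x < D.q ∧ D.a (x - 1) < D.a x)

/-- **Levels.** -/
structure TLev (D : HWin) (τ : ℤ → ℤ) (G : Finset ℤ) : Prop where
  st : ∀ x, D.p < x → x < D.q → x ∉ G →
    D.a (x - 1) = D.a x ∧ τ (x - 1) = τ x ∧ D.cc (x - 1) = D.cc x
  p : D.p ∈ G
  q : D.q ∈ G
  lo : ∀ g ∈ G, D.p ≤ g
  hi : ∀ g ∈ G, g ≤ D.q

/-- teeth, lobes and the window are longer than `L` -/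
structure FatH (D : HWin) (L : ℤ) : Prop where
  w : ∀ x, D.p ≤ x → x < D.q → D.a x + L ≤ D.w
  l : ∀ x, LW D x → x + L ≤ D.q ∧ ∀ z, x ≤ z → z < x + L → D.a z ≤ D.a x
  r : ∀ x, RW D x → D.p + L ≤ x ∧ ∀ z, x - L ≤ z → z < x → D.a z ≤ D.a (x - 1)
  l' : ∀ x, D.p < x → x < D.q → D.a x < D.a (x - 1) →
    D.p + L ≤ x ∧ ∀ z, x - L ≤ z → z < x → D.a (x - 1) ≤ D.a z
  r' : ∀ x, D.p < x → x < D.q → D.a (x - 1) < D.a x →
    x + L ≤ D.q ∧ ∀ z, x ≤ z → z < x + L → D.a x ≤ D.a z

variable {D : HWin} {τ : ℤ → ℤ} {G : Finset ℤ} {x y z g g' L L' : ℤ}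

lemma FatH.mono (h : FatH D L) (hL : L' ≤ L) : FatH D L' where
  w x h1 h2 := by have := h.w x h1 h2; omega
  l x hx := by
    have := h.l x hx
    exact ⟨by omega, fun z h1 h2 => this.2 z h1 (by omega)⟩
  r x hx := by
    have := h.r x hx
    exact ⟨by omega, fun z h1 h2 => this.2 z (by omega) h2⟩
  l' x h1 h2 h3 := by
    have := h.l' x h1 h2 h3
    exact ⟨by omega, fun z h1 h2 => this.2 z (by omega) h2⟩
  r' x h1 h2 h3 := by
    have := h.r' x h1 h2 h3
    exact ⟨by omega, fun z h1 h2 => this.2 z h1 (by omega)⟩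

/-! ### The line -/

lemma te_in (h0 : D.p ≤ x) (h1 : x < D.q) : te D τ x = τ x := by
  unfold te; rw [if_pos ⟨h0, h1⟩]

lemma te_lt (h : x < D.p) : te D τ x = D.w := by
  unfold te; rw [if_neg (by omega)]

lemma te_ge (h : D.q ≤ x) : te D τ x = D.w := by
  unfold te; rw [if_neg (by omega)]

lemma te_le (H : HPos D τ) : te D τ x ≤ D.w := by
  unfold te
  split_ifs with h
  · exact H.hi x h.1 h.2
  · exact le_rfl

lemma te_lo (H : HPos D τ) : D.lo ≤ te D τ x := by
  unfold te
  split_ifs with h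
  · have := H.lo x h.1 h.2
    have := D.hlo x h.1 h.2
    omega
  · have := loH_w D
    omega

/-- the line runs along a left wall -/
lemma te_jump_L (H : HPos D τ) (h0 : D.p ≤ x) (h1 : x ≤ D.q) (h : te D τ x < te D τ (x - 1)) :
    LW D x ∧ x < D.q ∧ (D.p < x → τ (x - 1) = D.a (x - 1) ∧ D.a x < D.a (x - 1)) := by
  have hle := te_le (x := x - 1) H
  have hq : x < D.q := by
    by_contra hc
    rw [te_ge (by omega)] at h
    omega
  by_cases hp : x = D.p
  · exact ⟨Or.inl hp, hq, fun h2 => by omega⟩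
  · have h2 : D.p < x := by omega
    rw [te_in h0 hq, te_in (by omega) (by omega)] at h
    have k := H.dn (x - 1) (by omega) (by omega) (by rwa [sub_add_cancel])
    have l := H.lo x h0 hq
    exact ⟨Or.inr ⟨h2, hq, by omega⟩, hq, fun _ => ⟨k, by omega⟩⟩

/-- the line runs along a right wall -/
lemma te_jump_R (H : HPos D τ) (h0 : D.p ≤ x) (h1 : x ≤ D.q) (h : te D τ (x - 1) < te D τ x) :
    RW D x ∧ D.p < x ∧ (x < D.q → τ x = D.a x ∧ D.a (x - 1) < D.a x) := by
  have hle := te_le (x := x) H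
  have hp : D.p < x := by
    by_contra hc
    rw [te_lt (x := x - 1) (by omega)] at h
    omega
  by_cases hq : x = D.q
  · exact ⟨Or.inl hq, hp, fun h2 => by omega⟩
  · have h2 : x < D.q := by omega
    rw [te_in (by omega) h2, te_in (by omega) (by omega)] at h
    have k := H.up (x - 1) (by omega) (by omega) (by rwa [sub_add_cancel])
    rw [sub_add_cancel] at k
    have l := H.lo (x - 1) (by omega) (by omega)
    exact ⟨Or.inr ⟨hp, h2, by omega⟩, hp, fun _ => ⟨k, by omega⟩⟩

/-- the line to the right of a left wall -/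
lemma te_L (H : HPos D τ) (hF : FatH D L) (hx : LW D x) (h1 : x ≤ z) (h2 : z < x + L) :
    z < D.q ∧ D.p ≤ x ∧ τ z ≤ τ x ∧ D.a z ≤ D.a x := by
  have hp : D.p ≤ x := by rcases hx with h | h <;> omega
  obtain ⟨k1, k2⟩ := hF.l x hx
  have key : ∀ n : ℕ, x + n < x + L → τ (x + n) ≤ τ x := by
    intro n
    induction n with
    | zero => intro _; simp
    | succ n ih =>
      intro h3
      push_cast at h3 ⊢
      have h4 := ih (by omega)
      rcases le_or_gt (τ (x + (n + 1))) (τ (x + n)) with h5 | h5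
      · omega
      · have h6 := H.up (x + n) (by omega) (by omega) (by rwa [add_assoc])
        rw [add_assoc] at h6
        have h7 := k2 (x + (n + 1)) (by omega) (by omega)
        have h8 := H.lo x hp (by omega)
        omega
  have := key (z - x).toNat (by rw [Int.toNat_of_nonneg (by omega)]; omega)
  rw [Int.toNat_of_nonneg (by omega), show x + (z - x) = z by ring] at this
  exact ⟨by omega, hp, this, k2 z h1 h2⟩

/-- the line to the left of a right wall -/
lemma te_R (H : HPos D τ) (hF : FatH D L) (hx : RW D x) (h1 : x - L ≤ z) (h2 : z < x) :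
    D.p ≤ z ∧ x ≤ D.q ∧ τ z ≤ τ (x - 1) ∧ D.a z ≤ D.a (x - 1) := by
  have hh := D.hh
  have hq : x ≤ D.q := by rcases hx with h | h <;> omega
  obtain ⟨k1, k2⟩ := hF.r x hx
  have key : ∀ n : ℕ, x - L ≤ x - 1 - n → τ (x - 1 - n) ≤ τ (x - 1) := by
    intro n
    induction n with
    | zero => intro _; simp
    | succ n ih =>
      intro h3
      push_cast at h3 ⊢
      have h4 := ih (by omega)
      rcases le_or_gt (τ (x - 1 - (n + 1))) (τ (x - 1 - n)) with h5 | h5
      · omega
      · have h6 := H.dn (x - 1 - (n + 1)) (by omega) (by omega) (by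
          rwa [show x - 1 - ((n : ℤ) + 1) + 1 = x - 1 - n by ring])
        have h7 := k2 (x - 1 - (n + 1)) (by omega) (by omega)
        have h8 := H.lo (x - 1) (by omega) (by omega)
        omega
  have := key (x - 1 - z).toNat (by rw [Int.toNat_of_nonneg (by omega)]; omega)
  rw [Int.toNat_of_nonneg (by omega), show x - 1 - (x - 1 - z) = z by ring] at this
  exact ⟨by omega, hq, this, k2 z h1 h2⟩

/-! ### Levels -/

namespace TLev

variable (hG : TLev D τ G)

include hG

/-- between two levels everything is constant -/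
lemma eqs (hg : g ∈ G) (h1 : g ≤ x) (h2 : x < nxt G g) :
    D.a x = D.a g ∧ τ x = τ g ∧ D.cc x = D.cc g := by
  have h0 := hG.lo g hg
  have key : ∀ n : ℕ, g + n < nxt G g → D.a (g + n) = D.a g ∧ τ (g + n) = τ g ∧
      D.cc (g + n) = D.cc g := by
    intro n
    induction n with
    | zero => intro _; simp
    | succ n ih =>
      intro h3
      push_cast at h3 ⊢
      have h4 := ih (by omega)
      have h5 : nxt G g ≤ D.q := hG.hi _ (nxt_mem (by omega))
      have h6 := hG.st (g + (n + 1)) (by omega) (by omega) (not_lev (by omega) h3)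
      rw [show g + ((n : ℤ) + 1) - 1 = g + n by ring] at h6
      rw [← h6.1, ← h6.2.1, ← h6.2.2]
      exact h4
  have := key (x - g).toNat (by rw [Int.toNat_of_nonneg (by omega)]; omega)
  rwa [Int.toNat_of_nonneg (by omega), show g + (x - g) = x by ring] at this

lemma a_eq (hg : g ∈ G) (h1 : g ≤ x) (h2 : x < nxt G g) : D.a x = D.a g := (hG.eqs hg h1 h2).1

lemma t_eq (hg : g ∈ G) (h1 : g ≤ x) (h2 : x < nxt G g) : τ x = τ g := (hG.eqs hg h1 h2).2.1

lemma cc_eq (hg : g ∈ G) (h1 : g ≤ x) (h2 : x < nxt G g) : D.cc x = D.cc g :=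
  (hG.eqs hg h1 h2).2.2

lemma nxt_q (h1 : g < nxt G g) : nxt G g ≤ D.q := hG.hi _ (nxt_mem h1)

lemma c_eq (hg : g ∈ G) (h1 : g ≤ x) (h2 : x < nxt G g) : D.c x = D.c g := by
  have h0 := hG.lo g hg
  have hh := hG.nxt_q (g := g) (by omega)
  have key : ∀ n : ℕ, g + n < nxt G g → D.c (g + n) = D.c g := by
    intro n
    induction n with
    | zero => intro _; simp
    | succ n ih =>
      intro h3
      push_cast at h3 ⊢
      have h4 := ih (by omega)
      have h5 := D.sc (g + n) (by omega) (by omega) (by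
        rw [hG.a_eq hg (by omega) (by omega), hG.a_eq (x := g + n + 1) hg (by omega) (by omega)])
      rw [← h4, h5, add_assoc]
  have := key (x - g).toNat (by rw [Int.toNat_of_nonneg (by omega)]; omega)
  rwa [Int.toNat_of_nonneg (by omega), show g + (x - g) = x by ring] at this

omit hG in
/-- a level is not between two consecutive levels -/
lemma side (_hg : g ∈ G) (hz : z ∈ G) : nxt G g ≤ z ∨ z ≤ g := by
  by_cases h : g < z
  · exact Or.inl (nxt_le hz h)
  · exact Or.inr (by omega)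

/-- the jumps of the line are levels -/
lemma jump (h0 : D.p ≤ x) (h1 : x ≤ D.q) (h : te D τ (x - 1) ≠ te D τ x) : x ∈ G := by
  by_contra hx
  have hp : x ≠ D.p := fun h2 => hx (h2 ▸ hG.p)
  have hq : x ≠ D.q := fun h2 => hx (h2 ▸ hG.q)
  have h2 := (hG.st x (by omega) (by omega) hx).2.1
  rw [te_in (by omega) (by omega), te_in (by omega) (by omega)] at h
  exact h h2

/-- the walls are levels -/
lemma walls (h0 : D.p < x) (h1 : x < D.q) (h : D.a (x - 1) ≠ D.a x) : x ∈ G := by
  by_contra hx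
  exact h (hG.st x (by omega) (by omega) hx).1

/-- every column is between two levels -/
lemma exists_lev (h0 : D.p ≤ x) (h1 : x < D.q) : ∃ g ∈ G, g ≤ x ∧ x < nxt G g := by
  have hne : (G.filter (· ≤ x)).Nonempty := ⟨D.p, mem_filter.2 ⟨hG.p, h0⟩⟩
  have hm := (G.filter (· ≤ x)).max'_mem hne
  obtain ⟨h2, h3⟩ := mem_filter.1 hm
  refine ⟨_, h2, h3, ?_⟩
  by_contra h4
  push Not at h4
  have h5 : (G.filter (· ≤ x)).max' hne < nxt G ((G.filter (· ≤ x)).max' hne) := by
    refine lt_of_le_of_ne le_nxt fun h6 => ?_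
    unfold nxt at h6
    have h7 : (G.filter ((G.filter (· ≤ x)).max' hne < ·)).Nonempty :=
      ⟨D.q, mem_filter.2 ⟨hG.q, by omega⟩⟩
    rw [dif_pos h7] at h6
    have h8 := (mem_filter.1 ((G.filter ((G.filter (· ≤ x)).max' hne < ·)).min'_mem h7)).2
    omega
  have h6 := nxt_mem h5
  have h7 : nxt G ((G.filter (· ≤ x)).max' hne) ≤ (G.filter (· ≤ x)).max' hne :=
    le_max' _ _ (mem_filter.2 ⟨h6, h4⟩)
  omega

end TLev

/-! ### The canonical levels -/

open Classical in
/-- **The levels of a position.** -/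
noncomputable def TG (D : HWin) (τ : ℤ → ℤ) : Finset ℤ :=
  insert D.p (insert D.q ((Finset.Ioo D.p D.q).filter fun x =>
    ¬ (D.a (x - 1) = D.a x ∧ τ (x - 1) = τ x ∧ D.cc (x - 1) = D.cc x)))

lemma mem_TG : x ∈ TG D τ ↔ x = D.p ∨ x = D.q ∨ ((D.p < x ∧ x < D.q) ∧
    ¬ (D.a (x - 1) = D.a x ∧ τ (x - 1) = τ x ∧ D.cc (x - 1) = D.cc x)) := by
  classical
  unfold TG
  rw [mem_insert, mem_insert, mem_filter, Finset.mem_Ioo]

/-- the canonical levels are levels -/
lemma tlev_TG : TLev D τ (TG D τ) where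
  st x h0 h1 hx := by
    by_contra h
    exact hx (mem_TG.2 (Or.inr (Or.inr ⟨⟨h0, h1⟩, h⟩)))
  p := mem_TG.2 (Or.inl rfl)
  q := mem_TG.2 (Or.inr (Or.inl rfl))
  lo g hg := by
    have hh := D.hh
    rcases mem_TG.1 hg with h | h | h <;> omega
  hi g hg := by
    have hh := D.hh
    rcases mem_TG.1 hg with h | h | h <;> omega

/-- the canonical levels are the smallest ones -/
lemma TG_sub (hG : TLev D τ G) : TG D τ ⊆ G := by
  intro x hx
  rcases mem_TG.1 hx with h | h | ⟨h, h2⟩
  · rw [h]; exact hG.p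
  · rw [h]; exact hG.q
  · by_contra h3
    exact h2 (hG.st x h.1 h.2 h3)

instance : Nonempty {g : ℤ // g ∈ TG D τ} := ⟨⟨D.p, mem_TG.2 (Or.inl rfl)⟩⟩

end Pool.Agent.H86.W
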