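import Mathlib
import Pool.Agent.H86.W.TLev
import Pool.Agent.H46.Sp.TSys

set_option autoImplicit false
open Finset

/-! # The runs of ties of a window (columns, horizontal line in general position)

`tsys D τ G` : the runs of ties when the line is at the position `τ`. The run `(true, g)` is vertical, between
the columns `g - 1` and `g` : kind `L` if the line goes down there, kind `R` if it goes up (`g = p` : left side
of the window, `g = q` : right side). The run `(false, g)` is horizontal, kind `F`, on the columns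
`g ≤ x < nxt G g`, if the line is on the floor there. `RT` : facts about the regions over the runs (`rt_of`).
`RT.inB` : the regions are above the line in the window. `rt_sep` : the regions are disjoint.
`RT.out` : outer side. -/

namespace Pool.Agent.H86.W

open Pool.Agent.H54.W Pool.Agent.H54.W.HWin
open Pool.Agent.H46.Sp (nxt nxt_le nxt_mem le_nxt not_lev Kd TSys)

/-- runs of ties -/
abbrev Rh (G : Finset ℤ) := Bool × {g : ℤ // g ∈ G}

section defs

variable (D : HWin) (τ : ℤ → ℤ) (G : Finset ℤ)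

open Classical in
/-- kind of a run -/
noncomputable def tk (g : ℤ) : Bool → Kd
  | true => if te D τ g < te D τ (g - 1) then .L else .R
  | false => .F

/-- line of a run -/
def tp (g : ℤ) : Bool → ℤ
  | true => g
  | false => D.a g

/-- colour of a run -/
def tc (g : ℤ) : Bool → Bool
  | true => if te D τ g < te D τ (g - 1) then (if g = D.p then D.cL else D.c (g - 1))
      else (if g = D.q then D.cR else D.c g)
  | false => D.c g

/-- first tile of a run -/
def tlo (g : ℤ) : Bool → ℤ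
  | true => min (te D τ (g - 1)) (te D τ g)
  | false => g

/-- end of a run -/
noncomputable def thi (g : ℤ) : Bool → ℤ
  | true => max (te D τ (g - 1)) (te D τ g)
  | false => nxt G g

/-- column or row of the tiles of a run -/
def tot (g : ℤ) : Bool → ℤ
  | true => if te D τ g < te D τ (g - 1) then g - 1 else g
  | false => D.a g - 1

/-- the line follows the run -/
def tact (g : ℤ) : Bool → Prop
  | true => te D τ (g - 1) ≠ te D τ g
  | false => g < D.q ∧ τ g = D.a g

/-- first tie of a run -/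
def tq (g : ℤ) (v : Bool) : ℤ := tlo D τ g v + 4 + (tlo D τ g v + tot D τ g v + 1) % 2

open Classical in
/-- number of ties of a run -/
noncomputable def tN (g : ℤ) (v : Bool) : ℕ :=
  if tact D τ g v then ((thi D τ G g v - 4 - tq D τ g v) / 2).toNat else 0

/-- **The runs of ties.** -/
noncomputable def tsys : TSys (Rh G) where
  c a := tc D τ a.2.1 a.1
  k a := tk D τ a.2.1 a.1
  p a := tp D a.2.1 a.1
  q a := tq D τ a.2.1 a.1
  N a := tN D τ G a.2.1 a.1

end defs

variable {D : HWin} {τ : ℤ → ℤ} {G : Finset ℤ} {L L2 L' : ℤ} {a : Rh G} {u u' t x y g g' : ℤ}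
  {v v' : Bool}

lemma tN_pos (h : 0 < tN D τ G g v) :
    tact D τ g v ∧ tq D τ g v + 2 * (tN D τ G g v : ℤ) ≤ thi D τ G g v - 4 := by
  unfold tN at h ⊢
  split_ifs at h ⊢ with h1
  · refine ⟨h1, ?_⟩
    omega
  · omega

lemma tq_lo : tlo D τ g v + 4 ≤ tq D τ g v := by
  unfold tq; omega

/-- the region over a run -/
lemma trg_pos (h : (tsys D τ G).Rg L a u t) : tact D τ a.2.1 a.1 ∧ 0 < (tsys D τ G).N a ∧
    tlo D τ a.2.1 a.1 + 8 * (u + 2) + 2 ≤ t ∧ t + 8 * (u + 2) + 4 ≤ thi D τ G a.2.1 a.1 := by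
  obtain ⟨h1, h2, h3, h4⟩ := h
  have h5 : 0 < (tsys D τ G).N a := by
    by_contra hc
    have : ((tsys D τ G).N a : ℤ) = 0 := by omega
    omega
  have h6 := tN_pos h5
  have h7 := tq_lo (D := D) (τ := τ) (g := a.2.1) (v := a.1)
  refine ⟨h6.1, h5, ?_, ?_⟩
  · change 8 * (u + 2) ≤ t - (tq D τ a.2.1 a.1 - 2) at h3
    omega
  · change 8 * (u + 2) ≤ tq D τ a.2.1 a.1 + 2 * (tN D τ G a.2.1 a.1 : ℤ) - t at h4
    have h8 := h6.2
    omega

/-! ### The tiles of a run -/

lemma ttl_L {hg : g ∈ G} (h : te D τ g < te D τ (g - 1)) :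
    (tsys D τ G).tl (true, ⟨g, hg⟩) u t = (g + u, t) := by
  show (tk D τ g true).tau (tp D g true) u t = _
  unfold tk tp
  simp only [if_pos h]
  rfl

lemma ttl_R {hg : g ∈ G} (h : ¬ te D τ g < te D τ (g - 1)) :
    (tsys D τ G).tl (true, ⟨g, hg⟩) u t = (g - 1 - u, t) := by
  show (tk D τ g true).tau (tp D g true) u t = _
  unfold tk tp
  simp only [if_neg h]
  rfl

lemma ttl_F {hg : g ∈ G} : (tsys D τ G).tl (false, ⟨g, hg⟩) u t = (t, D.a g + u) := rfl

/-- the facts about the region over a run -/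
inductive RT (D : HWin) (τ : ℤ → ℤ) (G : Finset ℤ) (u x y : ℤ) : Bool → ℤ → Prop
  | L {g : ℤ} (hx : x = g + u) (h1 : te D τ g + 8 * (u + 2) + 2 ≤ y)
      (h2 : y + 8 * (u + 2) + 4 ≤ te D τ (g - 1)) : RT D τ G u x y true g
  | R {g : ℤ} (hx : x = g - 1 - u) (h1 : te D τ (g - 1) + 8 * (u + 2) + 2 ≤ y)
      (h2 : y + 8 * (u + 2) + 4 ≤ te D τ g) : RT D τ G u x y true g
  | F {g : ℤ} (hy : y = D.a g + u) (h1 : g + 8 * (u + 2) + 2 ≤ x)
      (h2 : x + 8 * (u + 2) + 4 ≤ nxt G g) (h3 : g < D.q) (h4 : τ g = D.a g) :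
      RT D τ G u x y false g

lemma rt_of (h : (tsys D τ G).Rg L a u t) :
    RT D τ G u ((tsys D τ G).tl a u t).1 ((tsys D τ G).tl a u t).2 a.1 a.2.1 := by
  obtain ⟨hact, hN, hlo, hhi⟩ := trg_pos h
  have hu : -1 ≤ u := h.1
  obtain ⟨v, ⟨g, hg⟩⟩ := a
  cases v
  · rw [ttl_F]
    exact .F rfl hlo hhi hact.1 hact.2
  · change te D τ (g - 1) ≠ te D τ g at hact
    change min (te D τ (g - 1)) (te D τ g) + 8 * (u + 2) + 2 ≤ t at hlo
    change t + 8 * (u + 2) + 4 ≤ max (te D τ (g - 1)) (te D τ g) at hhi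
    by_cases h3 : te D τ g < te D τ (g - 1)
    · rw [ttl_L h3]
      rw [min_eq_right h3.le] at hlo
      rw [max_eq_left h3.le] at hhi
      exact .L rfl hlo hhi
    · rw [ttl_R h3]
      rw [min_eq_left (by omega)] at hlo
      rw [max_eq_right (by omega)] at hhi
      exact .R rfl hlo hhi

/-- the tiles above the line -/
def AbT (D : HWin) (τ : ℤ → ℤ) (x y : ℤ) : Prop := D.p ≤ x ∧ x < D.q ∧ τ x ≤ y ∧ y < D.w

lemma AbT.inU (H : HPos D τ) (h : AbT D τ x y) : D.InU x y ∧ ¬ D.Ln τ x y := by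
  obtain ⟨h1, h2, h3, h4⟩ := h
  have := H.lo x h1 h2
  refine ⟨⟨h1, h2, by omega, h4⟩, ?_⟩
  rintro ⟨-, -, h5⟩
  omega

lemma AbT.inE (H : HPos D τ) (h : AbT D τ x y) : D.InE τ x y := Or.inl (h.inU H).1

section geo

variable (H : HPos D τ) (hG : TLev D τ G) (hF : FatH D L2)

include H hG hF

/-- **The regions are above the line.** -/
lemma RT.inB (hu : 0 ≤ u) (huL : u < L2) (hg : g ∈ G) (h : RT D τ G u x y v g) :
    AbT D τ x y := by
  have g0 := hG.lo g hg
  have g1 := hG.hi g hg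
  have hh := D.hh
  cases h with
  | L hx h1 h2 =>
    have hj := te_jump_L (x := g) H g0 g1 (by omega)
    have k := te_L (z := x) H hF hj.1 (by omega) (by omega)
    rw [te_in g0 hj.2.1] at h1
    have hle := te_le (x := g - 1) H
    exact ⟨by omega, k.1, by omega, by omega⟩
  | R hx h1 h2 =>
    have hj := te_jump_R (x := g) H g0 g1 (by omega)
    have k := te_R (z := x) H hF hj.1 (by omega) (by omega)
    rw [te_in (by omega) (by omega)] at h1
    have hle := te_le (x := g) H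
    exact ⟨k.1, by omega, by omega, by omega⟩
  | F hy h1 h2 h3 h4 =>
    have n1 := hG.nxt_q (g := g) (by omega)
    have e1 := hG.eqs hg (x := x) (by omega) (by omega)
    have e2 := hF.w g (by omega) h3
    exact ⟨by omega, by omega, by omega, by omega⟩

/-- the columns of a floor region are behind a vertical run -/
private lemma sep_LF (hL : 2 * L + 2 ≤ L2) (hu : 0 ≤ u) (hu' : 0 ≤ u') (huL : u ≤ L)
    (hg : g ∈ G) (hg' : g' ∈ G) (hx : x = g + u) (h1 : te D τ g + 8 * (u + 2) + 2 ≤ y)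
    (h2 : y + 8 * (u + 2) + 4 ≤ te D τ (g - 1)) (h' : RT D τ G u' x y false g') : False := by
  have g0 := hG.lo g hg
  have g1 := hG.hi g hg
  have hj := te_jump_L (x := g) H g0 g1 (by omega)
  have k := te_L (z := x) H hF hj.1 (by omega) (by omega)
  rw [te_in g0 hj.2.1] at h1
  cases h' with
  | F hy k1 k2 k3 k4 =>
    have e1 := hG.eqs hg' (x := x) (by omega) (by omega)
    have s1 := TLev.side hg' hg
    omega

private lemma sep_RF (hL : 2 * L + 2 ≤ L2) (hu : 0 ≤ u) (hu' : 0 ≤ u') (huL : u ≤ L)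
    (hg : g ∈ G) (hg' : g' ∈ G) (hx : x = g - 1 - u) (h1 : te D τ (g - 1) + 8 * (u + 2) + 2 ≤ y)
    (h2 : y + 8 * (u + 2) + 4 ≤ te D τ g) (h' : RT D τ G u' x y false g') : False := by
  have hh := D.hh
  have g0 := hG.lo g hg
  have g1 := hG.hi g hg
  have hj := te_jump_R (x := g) H g0 g1 (by omega)
  have k := te_R (z := x) H hF hj.1 (by omega) (by omega)
  rw [te_in (by omega) (by omega)] at h1
  cases h' with
  | F hy k1 k2 k3 k4 =>
    have e1 := hG.eqs hg' (x := x) (by omega) (by omega)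
    have s1 := TLev.side hg' hg
    omega

private lemma sep_LL (hu : 0 ≤ u) (hu' : 0 ≤ u') (huL : u < L2) (hg : g ∈ G)
    (_hg' : g' ∈ G) (hx : x = g + u) (h1 : te D τ g + 8 * (u + 2) + 2 ≤ y)
    (h2 : y + 8 * (u + 2) + 4 ≤ te D τ (g - 1)) (hx' : x = g' + u')
    (_h1' : te D τ g' + 8 * (u' + 2) + 2 ≤ y) (h2' : y + 8 * (u' + 2) + 4 ≤ te D τ (g' - 1)) :
    ¬ g < g' := by
  intro hlt
  have g0 := hG.lo g hg
  have g1 := hG.hi g hg
  have hj := te_jump_L (x := g) H g0 g1 (by omega)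
  have k := te_L (z := g' - 1) H hF hj.1 (by omega) (by omega)
  rw [te_in g0 hj.2.1] at h1
  rw [te_in (x := g' - 1) (by omega) k.1] at h2'
  omega

private lemma sep_RR (hu : 0 ≤ u) (hu' : 0 ≤ u') (huL : u < L2) (hg : g ∈ G)
    (_hg' : g' ∈ G) (hx : x = g - 1 - u) (h1 : te D τ (g - 1) + 8 * (u + 2) + 2 ≤ y)
    (h2 : y + 8 * (u + 2) + 4 ≤ te D τ g) (hx' : x = g' - 1 - u')
    (_h1' : te D τ (g' - 1) + 8 * (u' + 2) + 2 ≤ y) (h2' : y + 8 * (u' + 2) + 4 ≤ te D τ g') :
    ¬ g' < g := by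
  intro hlt
  have hh := D.hh
  have g0 := hG.lo g hg
  have g1 := hG.hi g hg
  have hj := te_jump_R (x := g) H g0 g1 (by omega)
  have k := te_R (z := g') H hF hj.1 (by omega) (by omega)
  rw [te_in (by omega) (by omega)] at h1
  rw [te_in (x := g') k.1 (by omega)] at h2'
  omega

private lemma sep_LR (hL : 2 * L + 2 ≤ L2) (hu : 0 ≤ u) (hu' : 0 ≤ u') (huL : u ≤ L)
    (huL' : u' ≤ L) (hg : g ∈ G) (_hg' : g' ∈ G) (hx : x = g + u)
    (h1 : te D τ g + 8 * (u + 2) + 2 ≤ y) (h2 : y + 8 * (u + 2) + 4 ≤ te D τ (g - 1))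
    (hx' : x = g' - 1 - u') (_h1' : te D τ (g' - 1) + 8 * (u' + 2) + 2 ≤ y)
    (h2' : y + 8 * (u' + 2) + 4 ≤ te D τ g') : False := by
  have hh := D.hh
  have g0 := hG.lo g hg
  have g1 := hG.hi g hg
  have hj := te_jump_L (x := g) H g0 g1 (by omega)
  have k := te_L (z := g') H hF hj.1 (by omega) (by omega)
  rw [te_in g0 hj.2.1] at h1
  rw [te_in (x := g') (by omega) k.1] at h2'
  omega

/-- **The regions over different runs are disjoint.** -/
theorem rt_sep (hL : 2 * L + 2 ≤ L2) (hu : 0 ≤ u) (hu' : 0 ≤ u') (huL : u ≤ L) (huL' : u' ≤ L)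
    (hg : g ∈ G) (hg' : g' ∈ G) (h : RT D τ G u x y v g) (h' : RT D τ G u' x y v' g') :
    v' = v ∧ g' = g := by
  cases h with
  | L hx h1 h2 =>
    cases h' with
    | L hx' h1' h2' =>
      refine ⟨rfl, ?_⟩
      have k1 := sep_LL H hG hF hu hu' (by omega) hg hg' hx h1 h2 hx' h1' h2'
      have k2 := sep_LL H hG hF hu' hu (by omega) hg' hg hx' h1' h2' hx h1 h2
      omega
    | R hx' h1' h2' => exact (sep_LR H hG hF hL hu hu' huL huL' hg hg' hx h1 h2 hx' h1' h2').elim
    | F hy' k1 k2 k3 k4 =>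
      exact (sep_LF H hG hF hL hu hu' huL hg hg' hx h1 h2 (.F hy' k1 k2 k3 k4)).elim
  | R hx h1 h2 =>
    cases h' with
    | L hx' h1' h2' =>
      exact (sep_LR H hG hF hL hu' hu huL' huL hg' hg hx' h1' h2' hx h1 h2).elim
    | R hx' h1' h2' =>
      refine ⟨rfl, ?_⟩
      have k1 := sep_RR H hG hF hu hu' (by omega) hg hg' hx h1 h2 hx' h1' h2'
      have k2 := sep_RR H hG hF hu' hu (by omega) hg' hg hx' h1' h2' hx h1 h2
      omega
    | F hy' k1 k2 k3 k4 =>
      exact (sep_RF H hG hF hL hu hu' huL hg hg' hx h1 h2 (.F hy' k1 k2 k3 k4)).elim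
  | F hy h1 h2 h3 h4 =>
    cases h' with
    | L hx' h1' h2' =>
      exact (sep_LF H hG hF hL hu' hu huL' hg' hg hx' h1' h2' (.F hy h1 h2 h3 h4)).elim
    | R hx' h1' h2' =>
      exact (sep_RF H hG hF hL hu' hu huL' hg' hg hx' h1' h2' (.F hy h1 h2 h3 h4)).elim
    | F hy' k1 k2 k3 k4 =>
      have s1 := TLev.side hg' hg
      have s2 := TLev.side hg hg'
      exact ⟨rfl, by omega⟩

/-- **The outer side of a run** is not above the line. -/
lemma RT.out (hu : -L2 ≤ u) (hu' : u ≤ -1) (hg : g ∈ G) (hr : (tsys D τ G).Rg L (v, ⟨g, hg⟩) (-1) t) :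
    ¬ AbT D τ ((tsys D τ G).tl (v, ⟨g, hg⟩) u t).1 ((tsys D τ G).tl (v, ⟨g, hg⟩) u t).2 := by
  have hh := D.hh
  have g0 := hG.lo g hg
  have g1 := hG.hi g hg
  have h2 := rt_of hr
  obtain ⟨hact, -, hlo, hhi⟩ := trg_pos hr
  rintro ⟨k1, k2, k3, k4⟩
  cases v
  · rw [ttl_F] at k1 k2 k3 k4
    simp only at k1 k2 k3 k4
    change g + 8 * (-1 + 2) + 2 ≤ t at hlo
    change t + 8 * (-1 + 2) + 4 ≤ nxt G g at hhi
    have e1 := hG.eqs hg (x := t) (by omega) (by omega)
    have e2 := H.lo t k1 k2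
    omega
  · change te D τ (g - 1) ≠ te D τ g at hact
    change min (te D τ (g - 1)) (te D τ g) + 8 * (-1 + 2) + 2 ≤ t at hlo
    change t + 8 * (-1 + 2) + 4 ≤ max (te D τ (g - 1)) (te D τ g) at hhi
    by_cases h3 : te D τ g < te D τ (g - 1)
    · have hj := te_jump_L (x := g) H g0 g1 h3
      rw [ttl_L h3] at k1 k2 k3 k4
      simp only at k1 k2 k3 k4
      have hp : D.p < g := by omega
      obtain ⟨i1, i2⟩ := hj.2.2 hp
      have i3 := (hF.l' g hp hj.2.1 i2).2 (g + u) (by omega) (by omega)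
      have i4 := H.lo (g + u) k1 k2
      rw [max_eq_left h3.le, te_in (by omega) (by omega)] at hhi
      omega
    · have hj := te_jump_R (x := g) H g0 g1 (by omega)
      rw [ttl_R h3] at k1 k2 k3 k4
      simp only at k1 k2 k3 k4
      have hq : g < D.q := by omega
      obtain ⟨i1, i2⟩ := hj.2.2 hq
      have i3 := (hF.r' g hj.2.1 hq i2).2 (g - 1 - u) (by omega) (by omega)
      have i4 := H.lo (g - 1 - u) k1 k2
      rw [max_eq_right (by omega), te_in (x := g) (by omega) hq] at hhi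
      omega

end geo

end Pool.Agent.H86.W
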