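import Mathlib
import Pool.Agent.H86.W.TRun
import Pool.Agent.H76.W.TieE

set_option autoImplicit false
open Finset

/-! # The caps of helper76 along the runs of ties

`capT_at` : every tile of the first outer layer of a run, except near its ends, is the kept or the removed
tile of a cap (`CPH`) of the colour of the run, `tsd` : kind of the cap. `TPH` : position of the tiles of the
ties (`tpt_of`), `TPH.uniq` : they are different for different runs. `tsys_par`, `til_facts'`, `cap_tw`, `til_ktH` : the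
ties are kept tiles of caps. -/

namespace Pool.Agent.H86.W

open Pool.Agent.H75.TwoArm Pool.Agent.Q1 Pool.Agent.H33.Q1
open Pool.Agent.H54.W Pool.Agent.H54.W.HWin Pool.Agent.H76.W
open Pool.Agent.H46.G1 (Wp mem_Wp)
open Pool.Agent.H46.Sp (nxt nxt_le nxt_mem le_nxt not_lev Kd TSys)
open Pool.Agent.H42.Sp (Sd Ix kt rt kt_odd rt_even)

variable {D : HWin} {τ : ℤ → ℤ} {G : Finset ℤ} {L L2 L' : ℤ} {a : Rh G} {u u' t x y g g' : ℤ}
  {v v' : Bool}

/-- data of the cap at a tile of the first layer -/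
def CapAtH (P : Ix → Prop) (s : Sd) (c : Bool) (T : ℤ × ℤ) : Prop :=
  ∃ k : Ix, P k ∧ k.1 = s ∧ ((k.2.1 + k.2.2) % 2 = 1 ↔ c = true) ∧
    ((T.1 + T.2) % 2 = 1 → kt k = T) ∧ ((T.1 + T.2) % 2 = 0 → rt k = T)

variable {P : Ix → Prop} {c : Bool} {X Y : ℤ}

lemma capHL (h : ∀ y, (y = t ∨ y = t + 1) → ((X + y) % 2 = 1 ↔ c = true) → P (.L, (X, y))) :
    CapAtH P .L c (X, t) := by
  by_cases hc : c = true <;> by_cases hp : (X + t) % 2 = 1
  · refine ⟨_, h t (Or.inl rfl) (by simp [hc, hp]), rfl, by simp [hc, hp], fun _ => ?_,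
      fun h3 => by simp only at h3; omega⟩
    unfold kt; simp [hp]
  · refine ⟨_, h (t + 1) (Or.inr rfl) (by rw [hc]; simp; omega), rfl, by rw [hc]; simp; omega,
      fun h3 => absurd h3 hp, fun _ => ?_⟩
    unfold rt; simp only; rw [if_pos (by omega), add_sub_cancel_right]
  · refine ⟨_, h (t + 1) (Or.inr rfl) ⟨fun h3 => by omega, fun h3 => absurd h3 hc⟩, rfl,
      ⟨fun h3 => by simp only at h3; omega, fun h3 => absurd h3 hc⟩, fun _ => ?_,
      fun h3 => by simp only at h3; omega⟩
    unfold kt; simp only; rw [if_neg (by omega), add_sub_cancel_right]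
  · refine ⟨_, h t (Or.inl rfl) ⟨fun h3 => absurd h3 hp, fun h3 => absurd h3 hc⟩, rfl,
      ⟨fun h3 => absurd h3 hp, fun h3 => absurd h3 hc⟩, fun h3 => absurd h3 hp, fun _ => ?_⟩
    unfold rt; simp only; rw [if_neg hp]

lemma capHR (h : ∀ y, (y = t ∨ y = t + 1) → ((X + 1 + y) % 2 = 1 ↔ c = true) →
    P (.R, (X + 1, y))) : CapAtH P .R c (X, t) := by
  by_cases hc : c = true <;> by_cases hp : (X + t) % 2 = 1
  · refine ⟨_, h (t + 1) (Or.inr rfl) (by rw [hc]; simp; omega), rfl, by rw [hc]; simp; omega,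
      fun _ => ?_, fun h3 => by simp only at h3; omega⟩
    unfold kt; simp only
    rw [if_pos (by omega), add_sub_cancel_right, add_sub_cancel_right]
  · refine ⟨_, h t (Or.inl rfl) (by rw [hc]; simp; omega), rfl, by rw [hc]; simp; omega,
      fun h3 => absurd h3 hp, fun _ => ?_⟩
    unfold rt; simp only; rw [if_pos (by omega), add_sub_cancel_right]
  · refine ⟨_, h t (Or.inl rfl) ⟨fun h3 => by omega, fun h3 => absurd h3 hc⟩, rfl,
      ⟨fun h3 => by simp only at h3; omega, fun h3 => absurd h3 hc⟩, fun _ => ?_,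
      fun h3 => by simp only at h3; omega⟩
    unfold kt; simp only; rw [if_neg (by omega), add_sub_cancel_right]
  · refine ⟨_, h (t + 1) (Or.inr rfl) ⟨fun h3 => by omega, fun h3 => absurd h3 hc⟩, rfl,
      ⟨fun h3 => by simp only at h3; omega, fun h3 => absurd h3 hc⟩, fun h3 => absurd h3 hp,
      fun _ => ?_⟩
    unfold rt; simp only
    rw [if_neg (by omega), add_sub_cancel_right, add_sub_cancel_right]

lemma capHF (h : ∀ x, (x = t ∨ x = t + 1) → ((x + Y) % 2 = 1 ↔ c = true) → P (.F, (x, Y))) :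
    CapAtH P .F c (t, Y) := by
  by_cases hc : c = true <;> by_cases hp : (t + Y) % 2 = 1
  · refine ⟨_, h t (Or.inl rfl) (by simp [hc, hp]), rfl, by simp [hc, hp], fun _ => ?_,
      fun h3 => by simp only at h3; omega⟩
    unfold kt; simp [hp]
  · refine ⟨_, h (t + 1) (Or.inr rfl) (by rw [hc]; simp; omega), rfl, by rw [hc]; simp; omega,
      fun h3 => absurd h3 hp, fun _ => ?_⟩
    unfold rt; simp only; rw [if_pos (by omega), add_sub_cancel_right]
  · refine ⟨_, h (t + 1) (Or.inr rfl) ⟨fun h3 => by omega, fun h3 => absurd h3 hc⟩, rfl,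
      ⟨fun h3 => by simp only at h3; omega, fun h3 => absurd h3 hc⟩, fun _ => ?_,
      fun h3 => by simp only at h3; omega⟩
    unfold kt; simp only; rw [if_neg (by omega), add_sub_cancel_right]
  · refine ⟨_, h t (Or.inl rfl) ⟨fun h3 => absurd h3 hp, fun h3 => absurd h3 hc⟩, rfl,
      ⟨fun h3 => absurd h3 hp, fun h3 => absurd h3 hc⟩, fun h3 => absurd h3 hp, fun _ => ?_⟩
    unfold rt; simp only; rw [if_neg hp]

/-- kind of the caps of a run -/
noncomputable def tsd (D : HWin) (τ : ℤ → ℤ) (g : ℤ) : Bool → Sd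
  | true => if te D τ g < te D τ (g - 1) then .L else .R
  | false => .F

/-- **The caps along a run.** -/
theorem capT_at (H : HPos D τ) (hG : TLev D τ G) (hact : tact D τ a.2.1 a.1)
    (ht1 : tlo D τ a.2.1 a.1 + 2 ≤ t) (ht2 : t + 3 ≤ thi D τ G a.2.1 a.1) :
    CapAtH (CPH D τ) (tsd D τ a.2.1 a.1) ((tsys D τ G).c a) ((tsys D τ G).tl a (-1) t) := by
  have hh := D.hh
  obtain ⟨v, ⟨g, hg⟩⟩ := a
  have g0 := hG.lo g hg
  have g1 := hG.hi g hg
  cases v
  · change g < D.q ∧ τ g = D.a g at hact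
    change g + 2 ≤ t at ht1
    change t + 3 ≤ nxt G g at ht2
    have n1 := hG.nxt_q (g := g) (by omega)
    have e3 : (tsys D τ G).tl (false, ⟨g, hg⟩) (-1) t = (t, D.a g - 1) := by
      rw [ttl_F]; rfl
    rw [e3]
    change CapAtH (CPH D τ) .F (D.c g) (t, D.a g - 1)
    refine capHF fun x hx hp => ?_
    have e1 := hG.eqs hg (x := x) (by omega) (by omega)
    have e2 := hG.eqs hg (x := x - 1) (by omega) (by omega)
    have e4 := hG.eqs hg (x := x - 2) (by omega) (by omega)
    have e5 := hG.eqs hg (x := x + 1) (by omega) (by omega)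
    have e6 := hG.c_eq hg (x := x) (by omega) (by omega)
    refine ⟨by omega, by omega, by omega, by omega, by omega, by omega, fun _ => by omega,
      fun _ => by omega, ?_⟩
    rw [e6]
    exact hp
  · change te D τ (g - 1) ≠ te D τ g at hact
    change min (te D τ (g - 1)) (te D τ g) + 2 ≤ t at ht1
    change t + 3 ≤ max (te D τ (g - 1)) (te D τ g) at ht2
    by_cases h3 : te D τ g < te D τ (g - 1)
    · rw [min_eq_right h3.le] at ht1
      rw [max_eq_left h3.le] at ht2
      obtain ⟨-, j2, j3⟩ := te_jump_L (x := g) H g0 g1 h3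
      rw [te_in g0 j2] at ht1
      have e3 : (tsys D τ G).tl (true, ⟨g, hg⟩) (-1) t = (g - 1, t) := by
        rw [ttl_L h3]; congr 1
      have e4 : (tsys D τ G).c (true, ⟨g, hg⟩) = if g = D.p then D.cL else D.c (g - 1) := if_pos h3
      have e5 : tsd D τ g true = .L := if_pos h3
      rw [e3, e4]
      change CapAtH (CPH D τ) (tsd D τ g true) _ _
      rw [e5]
      refine capHL fun y hy hp => ?_
      by_cases hgp : g = D.p
      · rw [te_lt (by omega)] at ht2
        rw [if_pos hgp] at hp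
        refine Or.inr ⟨by omega, ?_, by omega, hp⟩
        rw [← hgp]; omega
      · rw [te_in (by omega) (by omega)] at ht2
        rw [if_neg hgp] at hp
        refine Or.inl ⟨by omega, by omega, ?_, by omega, hp⟩
        rw [sub_add_cancel]; omega
    · rw [min_eq_left (by omega)] at ht1
      rw [max_eq_right (by omega)] at ht2
      obtain ⟨-, j2, j3⟩ := te_jump_R (x := g) H g0 g1 (by omega)
      rw [te_in (by omega) (by omega)] at ht1
      have e3 : (tsys D τ G).tl (true, ⟨g, hg⟩) (-1) t = (g, t) := by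
        rw [ttl_R h3]; congr 1; ring
      have e4 : (tsys D τ G).c (true, ⟨g, hg⟩) = if g = D.q then D.cR else D.c g := if_neg h3
      have e5 : tsd D τ g true = .R := if_neg h3
      rw [e3, e4]
      change CapAtH (CPH D τ) (tsd D τ g true) _ _
      rw [e5]
      refine capHR fun y hy hp => ?_
      by_cases hgq : g = D.q
      · rw [te_ge (by omega)] at ht2
        rw [if_pos hgq] at hp
        refine Or.inr ⟨by omega, ?_, by omega, hp⟩
        rw [← hgq]; omega
      · rw [te_in (by omega) (by omega)] at ht2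
        rw [if_neg hgq] at hp
        refine Or.inl ⟨by omega, by omega, ?_, ?_, ?_⟩
        · rw [show g + 1 - 2 = g - 1 by ring]; omega
        · rw [add_sub_cancel_right]; omega
        · rw [add_sub_cancel_right]; exact hp

/-- parity of the ties -/
lemma tsys_par {a : Rh G} : ((tsys D τ G).k a).Par ((tsys D τ G).p a) ((tsys D τ G).q a) := by
  obtain ⟨v, ⟨g, hg⟩⟩ := a
  unfold Kd.Par
  change (((tk D τ g v).tau (tp D g v) (-1) (tq D τ g v)).1 +
    ((tk D τ g v).tau (tp D g v) (-1) (tq D τ g v)).2) % 2 = 1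
  cases v
  · unfold tk tp tq tot
    simp only [Kd.tau]
    generalize tlo D τ g false = r
    omega
  · unfold tk tp tq tot
    by_cases h : te D τ g < te D τ (g - 1)
    · simp only [if_pos h, Kd.tau]
      generalize tlo D τ g true = r
      omega
    · simp only [if_neg h, Kd.tau]
      generalize tlo D τ g true = r
      omega

/-- the tiles of the ties -/
lemma ttil_facts (hN : 0 < (tsys D τ G).N a) (ht1 : (tsys D τ G).q a ≤ t)
    (ht2 : t < (tsys D τ G).q a + 2 * (tsys D τ G).N a) :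
    tact D τ a.2.1 a.1 ∧ tlo D τ a.2.1 a.1 + 4 ≤ t ∧ t + 5 ≤ thi D τ G a.2.1 a.1 := by
  have h2 := tN_pos hN
  have h3 := tq_lo (D := D) (τ := τ) (g := a.2.1) (v := a.1)
  change tq D τ a.2.1 a.1 ≤ t at ht1
  change t < tq D τ a.2.1 a.1 + 2 * (tN D τ G a.2.1 a.1 : ℤ) at ht2
  exact ⟨h2.1, by omega, by omega⟩

/-- **Position of the tiles of the first layer.** -/
inductive TPH (D : HWin) (τ : ℤ → ℤ) (G : Finset ℤ) (x y : ℤ) : Bool → ℤ → Prop
  | L {g : ℤ} (hx : x = g - 1) (h0 : D.p ≤ g) (h1 : g < D.q) (h2 : τ g + 4 ≤ y)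
      (h3 : y + 5 ≤ te D τ (g - 1)) : TPH D τ G x y true g
  | R {g : ℤ} (hx : x = g) (h0 : D.p < g) (h1 : g ≤ D.q) (h2 : τ (g - 1) + 4 ≤ y)
      (h3 : y + 5 ≤ te D τ g) : TPH D τ G x y true g
  | F {g : ℤ} (hy : y = D.a g - 1) (h1 : g < D.q) (h2 : g + 4 ≤ x) (h3 : x + 5 ≤ nxt G g)
      (h4 : τ g = D.a g) : TPH D τ G x y false g

lemma tpt_of (H : HPos D τ) (hG : TLev D τ G) (hact : tact D τ a.2.1 a.1)
    (ht1 : tlo D τ a.2.1 a.1 + 4 ≤ t) (ht2 : t + 5 ≤ thi D τ G a.2.1 a.1) :
    TPH D τ G ((tsys D τ G).tl a (-1) t).1 ((tsys D τ G).tl a (-1) t).2 a.1 a.2.1 := by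
  obtain ⟨v, ⟨g, hg⟩⟩ := a
  have g0 := hG.lo g hg
  have g1 := hG.hi g hg
  cases v
  · rw [ttl_F]
    exact .F rfl hact.1 ht1 ht2 hact.2
  · change te D τ (g - 1) ≠ te D τ g at hact
    change min (te D τ (g - 1)) (te D τ g) + 4 ≤ t at ht1
    change t + 5 ≤ max (te D τ (g - 1)) (te D τ g) at ht2
    by_cases h3 : te D τ g < te D τ (g - 1)
    · rw [min_eq_right h3.le] at ht1
      rw [max_eq_left h3.le] at ht2
      obtain ⟨-, j2, j3⟩ := te_jump_L (x := g) H g0 g1 h3
      rw [te_in g0 j2] at ht1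
      rw [ttl_L h3]
      exact .L (by simp only; ring) g0 j2 ht1 ht2
    · rw [min_eq_left (by omega)] at ht1
      rw [max_eq_right (by omega)] at ht2
      obtain ⟨-, j2, j3⟩ := te_jump_R (x := g) H g0 g1 (by omega)
      rw [te_in (by omega) (by omega)] at ht1
      rw [ttl_R h3]
      exact .R (by simp only; ring) j2 g1 ht1 ht2

lemma TPH.uniq (H : HPos D τ) (hG : TLev D τ G) (hg : g ∈ G) (hg' : g' ∈ G)
    (h : TPH D τ G x y v g) (h' : TPH D τ G x y v' g') : v' = v ∧ g' = g := by
  have hh := D.hh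
  have s1 := TLev.side hg hg'
  have s2 := TLev.side hg' hg
  have n0 := hG.lo g hg
  have n0' := hG.lo g' hg'
  -- a tile of a vertical run is below the bottom of its column, or outside of the window
  have key : ∀ {f : ℤ} {w : Bool}, TPH D τ G x y w f → w = true →
      x < D.p ∨ D.q ≤ x ∨ y + 4 ≤ D.a x := by
    intro f w hf hw
    cases hf with
    | L hx k0 k1 k2 k3 =>
      by_cases hp : f = D.p
      · left; omega
      · obtain ⟨-, -, j3⟩ := te_jump_L (x := f) H k0 k1.le (by rw [te_in k0 k1]; omega)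
        have j4 := (j3 (by omega)).1
        rw [te_in (by omega) (by omega)] at k3
        right; right
        rw [hx]; omega
    | R hx k0 k1 k2 k3 =>
      by_cases hp : f = D.q
      · right; left; omega
      · obtain ⟨-, -, j3⟩ := te_jump_R (x := f) H k0.le k1 (by
          rw [te_in (x := f - 1) (by omega) (by omega)]; omega)
        have j4 := (j3 (by omega)).1
        rw [te_in (by omega) (by omega)] at k3
        right; right
        rw [hx]; omega
    | F hy k1 k2 k3 k4 => simp at hw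
  cases h with
  | L hx k0 k1 k2 k3 =>
    cases h' with
    | L hx' k0' k1' k2' k3' => exact ⟨rfl, by omega⟩
    | R hx' k0' k1' k2' k3' =>
      exfalso
      have e1 : g = g' + 1 := by omega
      subst e1
      have m1 := te_jump_L (x := g' + 1) H k0 k1.le (by rw [te_in k0 k1]; omega)
      rw [add_sub_cancel_right] at k3 m1
      have m2 := te_jump_R (x := g') H k0'.le k1' (by
        rw [te_in (x := g' - 1) (by omega) (by omega)]; omega)
      have m3 := m1.2.2 (by omega)
      have m4 := m2.2.2 (by omega)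
      exact HWin.no_ud (D := D) (x := g') k0' k1 m4.2 m3.2
    | F hy' k1' k2' k3' k4' =>
      exfalso
      have e1 := hG.eqs hg' (x := x) (by omega) (by omega)
      have e2 := hG.nxt_q (g := g') (by omega)
      have := key (.L hx k0 k1 k2 k3) rfl
      omega
  | R hx k0 k1 k2 k3 =>
    cases h' with
    | L hx' k0' k1' k2' k3' =>
      exfalso
      have e1 : g' = g + 1 := by omega
      subst e1
      have m1 := te_jump_L (x := g + 1) H k0' k1'.le (by rw [te_in k0' k1']; omega)
      rw [add_sub_cancel_right] at k3' m1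
      have m2 := te_jump_R (x := g) H k0.le k1 (by
        rw [te_in (x := g - 1) (by omega) (by omega)]; omega)
      have m3 := m1.2.2 (by omega)
      have m4 := m2.2.2 (by omega)
      exact HWin.no_ud (D := D) (x := g) k0 k1' m4.2 m3.2
    | R hx' k0' k1' k2' k3' => exact ⟨rfl, by omega⟩
    | F hy' k1' k2' k3' k4' =>
      exfalso
      have e1 := hG.eqs hg' (x := x) (by omega) (by omega)
      have e2 := hG.nxt_q (g := g') (by omega)
      have := key (.R hx k0 k1 k2 k3) rfl
      omega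
  | F hy k1 k2 k3 k4 =>
    have e1 := hG.eqs hg (x := x) (by omega) (by omega)
    have e2 := hG.nxt_q (g := g) (by omega)
    cases h' with
    | L hx' k0' k1' k2' k3' =>
      exfalso
      have := key (.L hx' k0' k1' k2' k3') rfl
      omega
    | R hx' k0' k1' k2' k3' =>
      exfalso
      have := key (.R hx' k0' k1' k2' k3') rfl
      omega
    | F hy' k1' k2' k3' k4' => exact ⟨rfl, by omega⟩

/-- the tiles near the ties of a run -/
lemma cap_tw (H : HPos D τ) (hG : TLev D τ G) {x : Rh G × ℤ} (hx : x ∈ Wp (tsys D τ G).N) :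
    CapAtH (CPH D τ) (tsd D τ x.1.2.1 x.1.1) ((tsys D τ G).c x.1) ((tsys D τ G).til x) ∧
    TPH D τ G ((tsys D τ G).til x).1 ((tsys D τ G).til x).2 x.1.1 x.1.2.1 ∧
    (((tsys D τ G).til x).1 + ((tsys D τ G).til x).2) % 2 = 1 := by
  have h2 := mem_Wp.1 hx
  have hN : 0 < (tsys D τ G).N x.1 := by omega
  have h3 := ttil_facts (t := (tsys D τ G).q x.1 + 2 * x.2) hN (by omega) (by omega)
  refine ⟨capT_at H hG h3.1 (by omega) (by omega), tpt_of H hG h3.1 h3.2.1 h3.2.2, ?_⟩
  have h4 := tsys_par (D := D) (τ := τ) (G := G) (a := x.1)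
  unfold Kd.Par at h4
  unfold TSys.til TSys.tl
  generalize (tsys D τ G).k x.1 = k at *
  generalize (tsys D τ G).p x.1 = p at *
  generalize (tsys D τ G).q x.1 = q at *
  cases k <;> simp only [Kd.tau] at h4 ⊢ <;> omega

/-- **The ties are kept tiles of caps.** -/
lemma til_ktH (H : HPos D τ) (hG : TLev D τ G) {x : Rh G × ℤ} (hx : x ∈ Wp (tsys D τ G).N) :
    ∃ k : Ix, CPH D τ k ∧ k.1 = tsd D τ x.1.2.1 x.1.1 ∧ kt k = (tsys D τ G).til x ∧
      ((k.2.1 + k.2.2) % 2 = 1 ↔ (tsys D τ G).c x.1 = true) := by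
  obtain ⟨⟨k, k1, k2, k3, k4, -⟩, -, h3⟩ := cap_tw H hG hx
  exact ⟨k, k1, k2, k4 h3, k3⟩

end Pool.Agent.H86.W
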