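import Mathlib
import Pool.Agent.H86.W.TCap

set_option autoImplicit false
open Finset

/-! # The runs of ties of a window satisfy the hypotheses `Ok`

`tsys_ok` : the system `tsys D τ G` in the tied form `ETH D τ P`, `WTH D τ P Wo` of helper76, `P` = all caps.
`capT_notB` : the tiles of the caps are not above the line. `outT2` : the second outer layer of a run is fixed,
of the colour of the run. `boxT1` : the first outer layer is near the window. `tie_runT` : the ties at the
tiles of the first layer of a run belong to the run. -/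

namespace Pool.Agent.H86.W

open Pool.Agent.H75.TwoArm Pool.Agent.Q1 Pool.Agent.H33.Q1
open Pool.Agent.H13.R45 (ev)
open Pool.Agent.H54.W Pool.Agent.H54.W.HWin Pool.Agent.H76.W
open Pool.Agent.H46.G1 (Wp mem_Wp)
open Pool.Agent.H46.Sp (nxt nxt_le nxt_mem le_nxt not_lev Kd TSys)
open Pool.Agent.H42.Sp (Sd Ix kt rt kt_odd rt_even OTp)

variable {D : HWin} {τ : ℤ → ℤ} {G : Finset ℤ} {L L2 L' : ℤ} {a : Rh G} {u u' t x y g g' : ℤ}
  {v v' : Bool} {P : Finset Ix}

/-- the tiles of the caps are not above the line -/
lemma capT_notB (H : HPos D τ) {k : Ix} (hk : CPH D τ k) {T : ℤ × ℤ} (hT : T = kt k ∨ T = rt k) :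
    ¬ AbT D τ T.1 T.2 := by
  rintro ⟨h1, h2, h3, h4⟩
  have hr := regH H hk hT
  obtain ⟨s, z⟩ := k
  cases s
  · rcases hr with hr | hr
    · have := hr.2.2.2; omega
    · have := hr.1; omega
  · rcases hr with hr | hr
    · have := hr.2.2.2; omega
    · have := hr.1; omega
  · have := hr.1.2.2; omega
  · exact hr

/-- **The hypotheses `Ok`**, for the set `P` of all caps. -/
theorem tsys_ok (O : HOut D) (H : HPos D τ) (hG : TLev D τ G) (hF : FatH D L2)
    (hL : 2 * L + 2 ≤ L2) (hP : ∀ k ∈ P, CPH D τ k) (hPr : ∀ k, CPH D τ k → k ∈ P) :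
    (tsys D τ G).Ok (ETH D τ P) (WTH D τ P O.Wo) L where
  par := fun _ _ => tsys_par
  inj := by
    intro x hx x' hx' hxx
    obtain ⟨-, t1, -⟩ := cap_tw H hG (mem_coe.1 hx)
    obtain ⟨-, t2, -⟩ := cap_tw H hG (mem_coe.1 hx')
    rw [← hxx] at t2
    obtain ⟨e1, e3⟩ := TPH.uniq H hG x.1.2.2 x'.1.2.2 t1 t2
    have e4 : x'.1 = x.1 := Prod.ext e1 (Subtype.ext e3)
    unfold TSys.til TSys.tl at hxx
    rw [e4] at hxx
    have e5 := (Kd.tau_inj hxx).2
    exact Prod.ext e4.symm (by omega)
  sub := by
    intro e he
    obtain ⟨x, hx, rfl⟩ := TSys.mem_Ti.1 he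
    obtain ⟨k, k1, -, k2, -⟩ := til_ktH H hG hx
    unfold ETH
    rw [mem_sdiff]
    constructor
    · unfold TSys.tie
      rw [← k2]
      exact (cap_CPH H O k1).m1
    · intro hcon
      obtain ⟨k', -, h3⟩ := mem_image.1 hcon
      unfold TSys.tie at h3
      have h4 := lt_inj h3
      have h5 := rt_even k'
      have h6 := kt_odd k
      rw [h4, ← k2] at h5
      omega
  bulk := by
    intro a u t hu hr
    have hb := (rt_of hr).inB H hG hF hu (by have := hr.2.1; omega) a.2.2
    have hne : ∀ k : Ix, CPH D τ k → ∀ T, (T = kt k ∨ T = rt k) → (tsys D τ G).tl a u t ≠ T := by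
      intro k hk T hT h3
      have h4 := capT_notB H hk hT
      rw [← h3] at h4
      exact h4 hb
    rw [mem_sdiff]
    constructor
    · unfold ETH
      rw [mem_sdiff]
      constructor
      · rw [show lt ((tsys D τ G).tl a u t) =
          lt (((tsys D τ G).tl a u t).1, ((tsys D τ G).tl a u t).2) from rfl, mem_EH H]
        exact hb.inE H
      · intro hcon
        obtain ⟨k, hk, h3⟩ := mem_image.1 hcon
        exact hne k (hP k hk) _ (Or.inr rfl) (lt_inj h3).symm
    · intro hcon
      obtain ⟨x, hx, h3⟩ := TSys.mem_Ti.1 hcon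
      obtain ⟨k, k1, -, k2, -⟩ := til_ktH H hG hx
      exact hne k k1 _ (Or.inl rfl) (by rw [k2]; exact (lt_inj h3).symm)
  first := by
    intro a t hr
    obtain ⟨hact, hN, hlo, hhi⟩ := trg_pos hr
    obtain ⟨k, k1, -, k2, k3, k4⟩ := capT_at (t := t) H hG hact (by omega) (by omega)
    rcases Int.emod_two_eq_zero_or_one (((tsys D τ G).tl a (-1) t).1 +
      ((tsys D τ G).tl a (-1) t).2) with hp | hp
    · right
      have h3 := k4 hp
      have hE := (cap_CPH H O k1).m2
      have hkP := hPr k k1
      rw [← h3]
      constructor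
      · intro hcon
        exact (mem_sdiff.1 hcon).2 (mem_image_of_mem _ hkP)
      · unfold WTH
        rw [mem_union]
        have hW : lt (rt k) ∉ D.WH τ O.Wo := disjoint_left.1 (disj_EW τ O) hE
        have hev : ev k.2 = true ↔ (tsys D τ G).c a = false := by
          unfold ev
          rw [decide_eq_true_eq]
          constructor
          · intro h4
            by_contra h5
            rw [Bool.not_eq_false] at h5
            have := k2.2 h5
            omega
          · intro h4
            by_contra h5
            have := k2.1 (by omega)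
            rw [h4] at this
            exact absurd this (by simp)
        rw [← hev]
        constructor
        · rintro (h4 | h4)
          · exact absurd h4 hW
          · unfold OTp at h4
            obtain ⟨k', hk', h5⟩ := mem_image.1 h4
            obtain ⟨hk1, hk2⟩ := mem_filter.1 hk'
            rw [← rt_injH H (hP k' hk1) k1 (lt_inj h5)]
            exact hk2
        · intro h4
          exact Or.inr (mem_image_of_mem _ (mem_filter.2 ⟨hkP, h4⟩))
    · left
      have h4 := tsys_par (D := D) (τ := τ) (G := G) (a := a)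
      have h5 : (t - (tsys D τ G).q a) % 2 = 0 := by
        unfold Kd.Par at h4
        unfold TSys.tl at hp
        generalize (tsys D τ G).k a = k at *
        generalize (tsys D τ G).p a = p at *
        cases k <;> simp only [Kd.tau] at h4 hp <;> omega
      obtain ⟨-, -, h6, h7⟩ := hr
      refine TSys.mem_Ti.2 ⟨(a, (t - (tsys D τ G).q a) / 2), ?_, ?_⟩
      · rw [mem_Wp]
        simp only
        omega
      · unfold TSys.tie TSys.til
        simp only
        congr 2
        omega
  sep := by
    intro a b u t u' t' hab hu hu' hr hr' hcon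
    have h3 := rt_of hr
    have h4 := rt_of hr'
    rw [← hcon] at h4
    obtain ⟨e1, e3⟩ := rt_sep H hG hF hL hu hu' hr.2.1 hr'.2.1 a.2.2 b.2.2 h3 h4
    exact hab (Prod.ext e1 (Subtype.ext e3)).symm

/-! ### The outer layers -/

/-- **The second outer layer**: fixed, of the colour of the run. -/
theorem outT2 (H : HPos D τ) (hG : TLev D τ G) (hr : (tsys D τ G).Rg L a (-1) t) :
    OutTH D τ ((tsys D τ G).tl a (-2) t).1 ((tsys D τ G).tl a (-2) t).2 ((tsys D τ G).c a) := by
  have hh := D.hh
  obtain ⟨hact, -, hlo, hhi⟩ := trg_pos hr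
  obtain ⟨v, ⟨g, hg⟩⟩ := a
  have g0 := hG.lo g hg
  have g1 := hG.hi g hg
  cases v
  · change g < D.q ∧ τ g = D.a g at hact
    change g + 8 * (-1 + 2) + 2 ≤ t at hlo
    change t + 8 * (-1 + 2) + 4 ≤ nxt G g at hhi
    have n1 := hG.nxt_q (g := g) (by omega)
    have e1 := hG.eqs hg (x := t) (by omega) (by omega)
    have e2 := hG.eqs hg (x := t - 1) (by omega) (by omega)
    have e3 := hG.eqs hg (x := t + 1) (by omega) (by omega)
    have e4 := hG.c_eq hg (x := t) (by omega) (by omega)
    have l1 := D.hlo g g0 (by omega)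
    rw [ttl_F]
    change OutTH D τ t (D.a g + -2) (D.c g)
    rw [← e4]
    exact outDH (by omega) (by omega) (noRunH_of_eq (fun _ => by omega) (fun _ => by omega))
      (by omega) (by omega)
  · change te D τ (g - 1) ≠ te D τ g at hact
    change min (te D τ (g - 1)) (te D τ g) + 8 * (-1 + 2) + 2 ≤ t at hlo
    change t + 8 * (-1 + 2) + 4 ≤ max (te D τ (g - 1)) (te D τ g) at hhi
    by_cases h3 : te D τ g < te D τ (g - 1)
    · rw [min_eq_right h3.le] at hlo
      rw [max_eq_left h3.le] at hhi
      obtain ⟨-, j2, j3⟩ := te_jump_L (x := g) H g0 g1 h3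
      have l1 := te_lo (x := g) H
      have l2 := te_le (x := g - 1) H
      have e4 : (tsys D τ G).c (true, ⟨g, hg⟩) = if g = D.p then D.cL else D.c (g - 1) := if_pos h3
      rw [ttl_L h3, e4]
      by_cases hgp : g = D.p
      · rw [if_pos hgp, hgp]
        exact outLH (by simp only; omega) (by simp only; omega)
      · rw [if_neg hgp]
        have hj := j3 (by omega)
        rw [te_in g0 j2, te_in (x := g - 1) (by omega) (by omega)] at h3
        rw [te_in (x := g - 1) (by omega) (by omega)] at hhi
        have := (RS_out (x := g - 1) (y := t) H (by omega) (by omega)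
          (by rw [sub_add_cancel]; exact h3) (by omega) (by omega)).1
        rw [show g - 1 - 1 = g + -2 by ring] at this
        exact this
    · rw [min_eq_left (by omega)] at hlo
      rw [max_eq_right (by omega)] at hhi
      obtain ⟨-, j2, j3⟩ := te_jump_R (x := g) H g0 g1 (by omega)
      have l1 := te_lo (x := g - 1) H
      have l2 := te_le (x := g) H
      have e4 : (tsys D τ G).c (true, ⟨g, hg⟩) = if g = D.q then D.cR else D.c g := if_neg h3
      rw [ttl_R h3, e4]
      by_cases hgq : g = D.q
      · rw [if_pos hgq, hgq]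
        have := outRH (D := D) (τ := τ) (y := t) (by omega) (by omega)
        rw [show D.q + 1 = D.q - 1 - -2 by ring] at this
        exact this
      · rw [if_neg hgq]
        have hj := j3 (by omega)
        rw [te_in (x := g) (by omega) (by omega)] at hhi
        rw [te_in (x := g - 1) (by omega) (by omega), te_in (x := g) (by omega) (by omega)] at hact
        rw [te_in (x := g - 1) (by omega) (by omega), te_in (x := g) (by omega) (by omega)] at h3
        have := (RN_out (x := g) (y := t) H (by omega) (by omega) (by omega) (by omega)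
          (by omega)).1
        rw [show g + 1 = g - 1 - -2 by ring] at this
        exact this

/-- the first outer layer is near the window -/
theorem boxT1 (H : HPos D τ) (hG : TLev D τ G) (hr : (tsys D τ G).Rg L a (-1) t) :
    D.InZ ((tsys D τ G).tl a (-1) t).1 ((tsys D τ G).tl a (-1) t).2 := by
  have hh := D.hh
  obtain ⟨hact, hN, hlo, hhi⟩ := trg_pos hr
  have h2 := tpt_of (t := t) H hG hact (by omega) (by omega)
  generalize (tsys D τ G).tl a (-1) t = T at h2 ⊢
  have n0 := hG.lo a.2.1 a.2.2
  have n1 := hG.hi a.2.1 a.2.2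
  have gg := a.2.2
  generalize a.1 = v at h2
  generalize a.2.1 = g at h2 n0 n1 gg
  cases h2 with
  | L hx k0 k1 k2 k3 =>
    have l1 := te_lo (x := g) H
    have l2 := te_le (x := g - 1) H
    rw [te_in k0 k1] at l1
    exact ⟨by omega, by omega, by omega, by omega⟩
  | R hx k0 k1 k2 k3 =>
    have l1 := te_lo (x := g - 1) H
    have l2 := te_le (x := g) H
    rw [te_in (by omega) (by omega)] at l1
    exact ⟨by omega, by omega, by omega, by omega⟩
  | F hy k1 k2 k3 k4 =>
    have l1 := D.hlo g n0 k1
    have l2 := D.aw g n0 k1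
    have l3 := hG.nxt_q (g := g) (by omega)
    exact ⟨by omega, by omega, by omega, by omega⟩

/-- the tie at a tile of the first layer belongs to the run -/
lemma tie_runT (H : HPos D τ) (hG : TLev D τ G) (hr : (tsys D τ G).Rg L a (-1) t)
    {z : Rh G × ℤ} (hz : z ∈ Wp (tsys D τ G).N)
    (he : (tsys D τ G).tie z = lt ((tsys D τ G).tl a (-1) t)) : z.1 = a := by
  obtain ⟨hact, hN, hlo, hhi⟩ := trg_pos hr
  obtain ⟨-, t1, -⟩ := cap_tw H hG hz
  have t2 := tpt_of (t := t) H hG hact (by omega) (by omega)
  rw [← show (tsys D τ G).til z = (tsys D τ G).tl a (-1) t from lt_inj he] at t2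
  obtain ⟨e1, e3⟩ := TPH.uniq H hG z.1.2.2 a.2.2 t1 t2
  exact (Prod.ext e1 (Subtype.ext e3)).symm

/-- the region shrinks -/
lemma trg_base (h : (tsys D τ G).Rg L a u t) : (tsys D τ G).Rg L a (-1) t := by
  obtain ⟨h1, h2, h3, h4⟩ := h
  exact ⟨le_rfl, by omega, by omega, by omega⟩

end Pool.Agent.H86.W
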