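import Mathlib
import Pool.Agent.H86.W.TOk
import Pool.Agent.H25.W.Track

set_option autoImplicit false
open Finset

/-! # The runs of ties of a window with a straight row: the interface of chapter B

`RowH D τ x1 x2 y0` : the line is straight at the height `y0 + 1` on the columns `[x1, x2)` and goes up on both
sides. `rowH_seg` : the position `hseg` of helper25. `rt_row` : the regions over the runs in the columns of
the row. `trg_InZ`, `trg_bulk`, `trg_str` (string column), `trg_rows` (rows near `y0`), `trg_sep` (separation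
from the row), `away_rootT`, `away_rowsT`, `away_strT`. `btT_bulk`, `btT_str`, `btT_sep` : the same for the half boxes.
`hcapT` : caps of the ties. `tsys_N` : number of ties of a run. `TG_card` : number of levels. -/

namespace Pool.Agent.H86.W

open Pool.Agent.H75.TwoArm Pool.Agent.Q1 Pool.Agent.H33.Q1
open Pool.Agent.H54.W Pool.Agent.H54.W.HWin Pool.Agent.H76.W
open Pool.Agent.H46.G1 (Wp mem_Wp)
open Pool.Agent.H46.Sp (nxt nxt_le nxt_mem le_nxt not_lev Kd TSys)
open Pool.Agent.H42.Sp (Sd Ix kt rt kt_odd rt_even OTp)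
open Pool.Agent.H25.W (hseg HComp hpos_seg)

variable {D : HWin} {τ : ℤ → ℤ} {G : Finset ℤ} {L L2 L' x1 x2 y0 xs : ℤ} {a : Rh G}
  {u u' t x y g g' : ℤ} {v v' : Bool} {P : Finset Ix}

/-! ### Rows -/

/-- **A straight row** on the columns `[x1, x2)`, at the height `y0`. -/
structure RowH (D : HWin) (τ : ℤ → ℤ) (x1 x2 y0 : ℤ) : Prop where
  h1 : D.p ≤ x1
  h2 : x1 < x2
  h3 : x2 ≤ D.q
  t : ∀ x, x1 ≤ x → x < x2 → τ x = y0 + 1
  a : ∀ x, x1 ≤ x → x < x2 → D.a x ≤ y0
  l : y0 + 1 < te D τ (x1 - 1)
  r : y0 + 1 < te D τ x2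

/-- the position `hseg` of helper25 -/
lemma rowH_seg (hc : HComp D (y0 + 1) x1 x2) (hy : y0 + 1 < D.w)
    (ha : ∀ x, x1 ≤ x → x < x2 → D.a x ≤ y0) : RowH D (hseg D (y0 + 1) x1 x2) x1 x2 y0 where
  h1 := hc.y0
  h2 := hc.y12
  h3 := hc.yh
  t x g1 g2 := by unfold hseg; rw [if_pos ⟨g1, g2⟩]
  a := ha
  l := by
    have c0 := hc.y0
    have c1 := hc.y12
    have c2 := hc.yh
    by_cases h : D.p < x1
    · have := hc.bot h
      rw [te_in (by omega) (by omega)]
      unfold hseg
      rw [if_neg (by omega)]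
      exact this
    · rw [te_lt (by omega)]
      exact hy
  r := by
    have c0 := hc.y0
    have c1 := hc.y12
    have c2 := hc.yh
    by_cases h : x2 < D.q
    · have := hc.top h
      rw [te_in (by omega) (by omega)]
      unfold hseg
      rw [if_neg (by omega)]
      exact this
    · rw [te_ge (by omega)]
      exact hy

section geo

variable (H : HPos D τ) (hG : TLev D τ G) (hF : FatH D L2)

include H hG hF

/-- the regions over the runs are near the window -/
lemma trg_InZ (hL : L < L2) (hr : (tsys D τ G).Rg L a u t) :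
    D.InZ ((tsys D τ G).tl a u t).1 ((tsys D τ G).tl a u t).2 := by
  by_cases hu : 0 ≤ u
  · exact (((rt_of hr).inB H hG hF hu (by have := hr.2.1; omega) a.2.2).inE H).inZ H
  · have h3 : u = -1 := by have := hr.1; omega
    subst h3
    exact boxT1 H hG hr

/-- the regions over the runs are above the line -/
theorem trg_bulk (hL : L < L2) (hu : 0 ≤ u) (hr : (tsys D τ G).Rg L a u t) :
    AbT D τ ((tsys D τ G).tl a u t).1 ((tsys D τ G).tl a u t).2 :=
  (rt_of hr).inB H hG hF hu (by have := hr.2.1; omega) a.2.2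

/-- **The regions in the columns of a row.** -/
lemma rt_row (R : RowH D τ x1 x2 y0) (hu : -1 ≤ u) (huL : u < L2) (hg : g ∈ G)
    (h : RT D τ G u x y v g) (h1 : x1 ≤ x) (h2 : x < x2) :
    (x ≤ x1 + u ∨ x2 ≤ x + 1 + u) ∧ y0 + 1 + 8 * (u + 2) + 2 ≤ y := by
  have hh := D.hh
  have g0 := hG.lo g hg
  have g1 := hG.hi g hg
  have r1 := R.h1
  have r3 := R.h3
  have r4 := R.h2
  cases h with
  | L hx k1 k2 =>
    have hj := te_jump_L (x := g) H g0 g1 (by omega)
    have hgx : g ≤ x1 := by
      by_contra hc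
      have e1 : te D τ (g - 1) = y0 + 1 := by
        rw [te_in (by omega) (by omega)]; exact R.t _ (by omega) (by omega)
      have hg2 : g < x2 := by
        by_contra hc2
        have e2 : g = x2 := by omega
        have h5 := R.r
        rw [← e2] at h5
        omega
      have e2 : te D τ g = y0 + 1 := by
        rw [te_in (by omega) (by omega)]; exact R.t _ (by omega) (by omega)
      omega
    refine ⟨Or.inl (by omega), ?_⟩
    rcases lt_or_ge x1 (g + L2) with hx1 | hx1
    · have k := te_L (z := x1) H hF hj.1 hgx (by omega)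
      rw [te_in g0 hj.2.1] at k1
      have := R.t x1 le_rfl R.h2
      omega
    · omega
  | R hx k1 k2 =>
    have hj := te_jump_R (x := g) H g0 g1 (by omega)
    have hgx : x2 ≤ g := by
      by_contra hc
      have hg2 : x1 ≤ g - 1 := by
        by_contra hc2
        have e2 : g = x1 := by omega
        have h5 := R.l
        have h6 : te D τ g = y0 + 1 := by
          rw [te_in (by omega) (by omega)]; exact R.t _ (by omega) (by omega)
        rw [← e2] at h5
        omega
      have e1 : te D τ (g - 1) = y0 + 1 := by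
        rw [te_in (by omega) (by omega)]; exact R.t _ (by omega) (by omega)
      have e2 : te D τ g = y0 + 1 := by
        rw [te_in (by omega) (by omega)]; exact R.t _ (by omega) (by omega)
      omega
    refine ⟨Or.inr (by omega), ?_⟩
    rcases lt_or_ge (g - L2 - 1) (x2 - 1) with hx1 | hx1
    · have k := te_R (z := x2 - 1) H hF hj.1 (by omega) (by omega)
      rw [te_in (by omega) (by omega)] at k1
      have := R.t (x2 - 1) (by omega) (by omega)
      omega
    · omega
  | F hy k1 k2 k3 k4 =>
    exfalso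
    have e1 := hG.eqs hg (x := x) (by omega) (by omega)
    have e2 := R.t x h1 h2
    have e3 := R.a x h1 h2
    omega

/-- the regions do not contain tiles of a column far from the ends of the row -/
theorem trg_str (R : RowH D τ x1 x2 y0) (hL : L < L2) (h1 : x1 + L < xs) (h2 : xs + L + 1 < x2)
    (hr : (tsys D τ G).Rg L a u t) : ((tsys D τ G).tl a u t).1 ≠ xs := by
  intro hx
  have hu := hr.1
  have hu2 := hr.2.1
  have h3 := rt_row H hG hF R hr.1 (by omega) a.2.2 (rt_of hr) (by omega) (by omega)
  omega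

/-- the regions are not near the row -/
theorem trg_rows (R : RowH D τ x1 x2 y0) (hL : L < L2) (hr : (tsys D τ G).Rg L a u t)
    (h1 : x1 - 1 ≤ ((tsys D τ G).tl a u t).1) (h2 : ((tsys D τ G).tl a u t).1 ≤ x2) :
    y0 + 2 ≤ ((tsys D τ G).tl a u t).2 := by
  have hh := D.hh
  have hu := hr.1
  have hu2 := hr.2.1
  have r1 := R.h1
  have r2 := R.h2
  have r3 := R.h3
  by_cases hx : x1 ≤ ((tsys D τ G).tl a u t).1 ∧ ((tsys D τ G).tl a u t).1 < x2
  · have h3 := rt_row H hG hF R hr.1 (by omega) a.2.2 (rt_of hr) hx.1 hx.2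
    omega
  · by_cases hu0 : 0 ≤ u
    · have hb := trg_bulk H hG hF hL hu0 hr
      obtain ⟨b1, b2, b3, b4⟩ := hb
      rcases (by omega : ((tsys D τ G).tl a u t).1 = x1 - 1 ∨ ((tsys D τ G).tl a u t).1 = x2) with
        h4 | h4
      · have := R.l
        rw [te_in (by omega) (by omega), ← h4] at this
        omega
      · have := R.r
        rw [te_in (by omega) (by omega), ← h4] at this
        omega
    · have hu1 : u = -1 := by omega
      subst hu1
      obtain ⟨hact, hN, hlo, hhi⟩ := trg_pos hr
      have h5 := tpt_of (t := t) H hG hact (by omega) (by omega)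
      have h6 := rt_of hr
      generalize (tsys D τ G).tl a (-1) t = T at *
      have gg := a.2.2
      generalize a.1 = v at h5 h6
      generalize a.2.1 = g at h5 h6 gg
      have g0 := hG.lo g gg
      have g1 := hG.hi g gg
      cases h5 with
      | L hx' k0 k1 k2 k3 =>
        rcases (by omega : T.1 = x1 - 1 ∨ T.1 = x2) with h7 | h7
        · have e1 : g = x1 := by omega
          have := R.t x1 le_rfl r2
          rw [e1] at k2
          omega
        · have e1 : g - 1 = x2 := by omega
          have hj := te_jump_L (x := g) H k0 k1.le (by rw [te_in k0 k1]; omega)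
          have hrx := R.r
          -- the run to the south on the column `x2`, whose line is above the row
          have e2 := (hj.2.2 (by omega)).1
          have e5 := (te_in (D := D) (τ := τ) (x := g - 1) (by omega) (by omega))
          have e6 := (te_in (D := D) (τ := τ) (x := g) (by omega) (by omega))
          have hk2 := (rs_walls (x := g - 1) H (by omega) (by omega)
            (by rw [sub_add_cancel]; omega)).2.2.2.2.1
          have hk3 := R.a (g - 1 - 1) (by omega) (by omega)
          rw [te_in (by omega) (by omega), ← e1] at hrx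
          omega
      | R hx' k0 k1 k2 k3 =>
        rcases (by omega : T.1 = x1 - 1 ∨ T.1 = x2) with h7 | h7
        · have e1 : g = x1 - 1 := by omega
          have hj := te_jump_R (x := g) H k0.le k1 (by
            rw [te_in (x := g - 1) (by omega) (by omega)]; omega)
          have hrx := R.l
          have e2 := (hj.2.2 (by omega)).1
          have e5 := (te_in (D := D) (τ := τ) (x := g - 1) (by omega) (by omega))
          have e6 := (te_in (D := D) (τ := τ) (x := g) (by omega) (by omega))
          have hk2 := (rn_walls (x := g) H (by omega) (by omega) (by omega)).2.2.2.2.1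
          have hk3 := R.a (g + 1) (by omega) (by omega)
          rw [te_in (by omega) (by omega), ← e1] at hrx
          omega
        · have e1 : g = x2 := by omega
          have := R.t (x2 - 1) (by omega) (by omega)
          rw [e1] at k2
          omega
      | F hy' k1 k2 k3 k4 =>
        exfalso
        have n1 := hG.nxt_q (g := g) (by omega)
        have e1 := hG.eqs gg (x := T.1) (by omega) (by omega)
        rcases (by omega : T.1 = x1 - 1 ∨ T.1 = x2) with h7 | h7
        · have e2 := hG.eqs gg (x := x1) (by omega) (by omega)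
          have e3 := R.a x1 le_rfl r2
          have e4 := R.t x1 le_rfl r2
          omega
        · have e2 := hG.eqs gg (x := x2 - 1) (by omega) (by omega)
          have e3 := R.a (x2 - 1) (by omega) (by omega)
          have e4 := R.t (x2 - 1) (by omega) (by omega)
          omega

/-- **The regions are separated from the row.** -/
theorem trg_sep (R : RowH D τ x1 x2 y0) (hL : L < L2) (hu : 0 ≤ u)
    (hr : (tsys D τ G).Rg L a u t) {y' : ℤ} (hy' : y' = y0 ∨ y' = y0 + 1) :
    2 * (((tsys D τ G).tl a u t).1 - x1) ≤ |((tsys D τ G).tl a u t).2 - y'| + 2 ∨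
      2 * (x2 - ((tsys D τ G).tl a u t).1) ≤ |((tsys D τ G).tl a u t).2 - y'| + 2 := by
  have hu2 := hr.2.1
  have h0 := abs_nonneg (((tsys D τ G).tl a u t).2 - y')
  by_cases h1 : x1 ≤ ((tsys D τ G).tl a u t).1
  · by_cases h2 : ((tsys D τ G).tl a u t).1 < x2
    · have h3 := rt_row H hG hF R hr.1 (by omega) a.2.2 (rt_of hr) h1 h2
      have h4 := le_abs_self (((tsys D τ G).tl a u t).2 - y')
      rcases h3.1 with h5 | h5
      · left; omega
      · right; omega
    · right; omega
  · left; omega

/-- a label which is not near the window is away from the runs -/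
theorem away_rootT (hL : L < L2) {e : ℤ × ℤ} (hr : ∀ x y, e = lt (x, y) → ¬ D.InZ x y) :
    (tsys D τ G).Away L e := by
  intro a u t hR he
  exact hr _ _ he (trg_InZ H hG hF hL hR)

/-- a label outside of the box is away from the runs -/
theorem away_GA (hL : L < L2) {e : ℤ × ℤ} (hr : e ∉ D.GA) : (tsys D τ G).Away L e := by
  refine away_rootT H hG hF hL fun x y he hz => hr ?_
  rw [he, mem_GA]
  exact hz

/-- the labels near the row are away from the runs -/
theorem away_rowsT (R : RowH D τ x1 x2 y0) (hL : L < L2) (h1 : x1 - 1 ≤ x) (h2 : x ≤ x2)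
    (hy : y ≤ y0 + 1) : (tsys D τ G).Away L (lt (x, y)) := by
  intro a u t hR he
  have h3 := lt_inj he
  have h4 := trg_rows H hG hF R hL hR (by rw [← h3]; exact h1) (by rw [← h3]; exact h2)
  rw [← h3] at h4
  simp only at h4
  omega

/-- the labels of the string column are away from the runs -/
theorem away_strT (R : RowH D τ x1 x2 y0) (hL : L < L2) (h1 : x1 + L < xs) (h2 : xs + L + 1 < x2) :
    (tsys D τ G).Away L (lt (xs, y)) := by
  intro a u t hR he
  have h3 := lt_inj he
  exact trg_str H hG hF R hL h1 h2 hR (by rw [← h3])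

/-! ### The half boxes -/

variable [Nonempty {g : ℤ // g ∈ G}] {K : ℤ} {E W w : Finset (ℤ × ℤ)}

/-- the half boxes are above the line -/
theorem btT_bulk (hL : L < L2) (hO : (tsys D τ G).Ok E W L) (hK : 20 ≤ K)
    (hKL : ∀ a, ((tsys D τ G).N a : ℤ) < K * L) (hw : w ⊆ (tsys D τ G).Ti)
    (hl : lt (x, y) ∈ w.biUnion ((tsys D τ G).Bt K w)) : AbT D τ x y := by
  obtain ⟨e, he, hl⟩ := mem_biUnion.1 hl
  obtain ⟨hx, hxe⟩ := hO.idx_mem (hw he)
  rw [← hxe] at hl
  obtain ⟨u, t, e1, h3, h4⟩ := TSys.Bt_rg hO hK hKL hx hl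
  have h5 := trg_bulk H hG hF hL h3 h4
  rw [← lt_inj e1] at h5
  exact h5

/-- the half boxes do not meet the string column -/
theorem btT_str (R : RowH D τ x1 x2 y0) (hL : L < L2) (h1 : x1 + L < xs) (h2 : xs + L + 1 < x2)
    (hO : (tsys D τ G).Ok E W L) (hK : 20 ≤ K) (hKL : ∀ a, ((tsys D τ G).N a : ℤ) < K * L)
    (hw : w ⊆ (tsys D τ G).Ti) (hl : lt (x, y) ∈ w.biUnion ((tsys D τ G).Bt K w)) : x ≠ xs := by
  obtain ⟨e, he, hl⟩ := mem_biUnion.1 hl
  obtain ⟨hx, hxe⟩ := hO.idx_mem (hw he)
  rw [← hxe] at hl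
  obtain ⟨u, t, e1, h3, h4⟩ := TSys.Bt_rg hO hK hKL hx hl
  have h5 := trg_str H hG hF R hL h1 h2 h4
  rw [← lt_inj e1] at h5
  exact h5

/-- **The half boxes are separated from the row.** -/
theorem btT_sep (R : RowH D τ x1 x2 y0) (hL : L < L2) (hO : (tsys D τ G).Ok E W L) (hK : 20 ≤ K)
    (hKL : ∀ a, ((tsys D τ G).N a : ℤ) < K * L) (hw : w ⊆ (tsys D τ G).Ti) {y' : ℤ}
    (hy' : y' = y0 ∨ y' = y0 + 1) (hl : lt (x, y) ∈ w.biUnion ((tsys D τ G).Bt K w)) :
    2 * (x - x1) ≤ |y - y'| + 2 ∨ 2 * (x2 - x) ≤ |y - y'| + 2 := by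
  obtain ⟨e, he, hl⟩ := mem_biUnion.1 hl
  obtain ⟨hx, hxe⟩ := hO.idx_mem (hw he)
  rw [← hxe] at hl
  obtain ⟨u, t, e1, h3, h4⟩ := TSys.Bt_rg hO hK hKL hx hl
  have h5 := trg_sep H hG hF R hL h3 h4 hy'
  rw [← lt_inj e1] at h5
  exact h5

/-- **The half boxes in the columns of the row** are high over the row and near its ends. -/
theorem btT_row (R : RowH D τ x1 x2 y0) (hL : L < L2) (hO : (tsys D τ G).Ok E W L) (hK : 20 ≤ K)
    (hKL : ∀ a, ((tsys D τ G).N a : ℤ) < K * L) (hw : w ⊆ (tsys D τ G).Ti)
    (hl : lt (x, y) ∈ w.biUnion ((tsys D τ G).Bt K w)) (h1 : x1 ≤ x) (h2 : x < x2) :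
    8 * (x - x1) + y0 + 19 ≤ y ∨ 8 * (x2 - 1 - x) + y0 + 19 ≤ y := by
  obtain ⟨e, he, hl⟩ := mem_biUnion.1 hl
  obtain ⟨hx, hxe⟩ := hO.idx_mem (hw he)
  rw [← hxe] at hl
  obtain ⟨u, t, e1, h3, h4⟩ := TSys.Bt_rg hO hK hKL hx hl
  have hu2 := h4.2.1
  have e2 := lt_inj e1
  have h5 := rt_row (x := ((tsys D τ G).tl (((tsys D τ G).idx e).1) u t).1)
    (y := ((tsys D τ G).tl (((tsys D τ G).idx e).1) u t).2) H hG hF R h4.1 (by omega)
    ((tsys D τ G).idx e).1.2.2 (rt_of h4) (by rw [← e2]; exact h1) (by rw [← e2]; exact h2)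
  rw [← e2] at h5
  simp only at h5
  omega

end geo

/-! ### Caps of the ties -/

/-- **The caps of the ties.** -/
theorem hcapT (H : HPos D τ) (hG : TLev D τ G) (hPr : ∀ k, CPH D τ k → k ∈ P) :
    ∀ e ∈ (tsys D τ G).Ti, ∃ z ∈ Wp (tsys D τ G).N, (tsys D τ G).tie z = e ∧ ∃ k ∈ P,
      k.1 = tsd D τ z.1.2.1 z.1.1 ∧ lt (kt k) = e ∧
      ((k.2.1 + k.2.2) % 2 = 1 ↔ (tsys D τ G).c z.1 = true) := by
  intro e he
  obtain ⟨z, hz, rfl⟩ := TSys.mem_Ti.1 he
  obtain ⟨k, k1, k2, k3, k4⟩ := til_ktH H hG hz
  exact ⟨z, hz, rfl, k, hPr k k1, k2, by rw [k3]; rfl, k4⟩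

/-! ### Numbers -/

/-- **The number of ties of a run.** -/
theorem tsys_N (H : HPos D τ) (hG : TLev D τ G) {A : ℤ} (hA : D.q - D.p ≤ A)
    (hA' : D.w - D.lo ≤ A) (a : Rh G) : 2 * ((tsys D τ G).N a : ℤ) ≤ A := by
  have hh := D.hh
  by_cases hN : 0 < (tsys D τ G).N a
  · obtain ⟨hact, h2⟩ := tN_pos hN
    have h3 := tq_lo (D := D) (τ := τ) (g := a.2.1) (v := a.1)
    change 2 * (tN D τ G a.2.1 a.1 : ℤ) ≤ A
    have h4 : thi D τ G a.2.1 a.1 - tlo D τ a.2.1 a.1 ≤ A := by
      obtain ⟨v, ⟨g, hg⟩⟩ := a
      have g0 := hG.lo g hg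
      cases v
      · show nxt G g - g ≤ A
        by_cases h6 : g < nxt G g
        · have := hG.nxt_q h6
          omega
        · have := hG.hi g hg
          have := hG.lo g hg
          omega
      · show max (te D τ (g - 1)) (te D τ g) - min (te D τ (g - 1)) (te D τ g) ≤ A
        have i1 := te_le (x := g) H
        have i2 := te_le (x := g - 1) H
        have i3 := te_lo (x := g) H
        have i4 := te_lo (x := g - 1) H
        omega
    omega
  · have : (tsys D τ G).N a = 0 := by omega
    rw [this]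
    push_cast
    omega

/-- number of the runs -/
lemma rh_card : Fintype.card (Rh G) = 2 * G.card := by
  simp [Rh, Fintype.card_prod]

/-- outside of `F` the bottom and the colour of the ceiling are constant -/
def FewH (D : HWin) (F : Finset ℤ) : Prop :=
  ∀ x, D.p < x → x < D.q → x ∉ F → D.a (x - 1) = D.a x ∧ D.cc (x - 1) = D.cc x

/-- **The number of levels** of the position through one component. -/
theorem TG_card {F : Finset ℤ} (hF : FewH D F) {i : ℤ} (hc : HComp D i x1 x2) :
    (TG D (hseg D i x1 x2)).card ≤ F.card + 2 := by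
  have c0 := hc.y0
  have c1 := hc.y12
  have c2 := hc.yh
  have hsub : TG D (hseg D i x1 x2) ⊆ insert D.p (insert D.q F) := by
    intro x hx
    rw [mem_insert, mem_insert]
    rcases mem_TG.1 hx with h | h | ⟨⟨h1, h2⟩, h3⟩
    · exact Or.inl h
    · exact Or.inr (Or.inl h)
    · refine Or.inr (Or.inr ?_)
      by_contra h4
      obtain ⟨e1, e2⟩ := hF x h1 h2 h4
      apply h3
      refine ⟨e1, ?_, e2⟩
      unfold hseg
      by_cases d : x1 ≤ x ∧ x < x2
      · rw [if_pos d]
        by_cases d' : x1 ≤ x - 1 ∧ x - 1 < x2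
        · rw [if_pos d']
        · rw [if_neg d']
          have e3 : x = x1 := by omega
          have e4 := hc.bot (by omega)
          have e5 := hc.room x (by omega) (by omega)
          rw [← e3] at e4
          omega
      · rw [if_neg d]
        by_cases d' : x1 ≤ x - 1 ∧ x - 1 < x2
        · rw [if_pos d']
          have e3 : x = x2 := by omega
          have e4 := hc.top (by omega)
          have e5 := hc.room (x - 1) (by omega) (by omega)
          rw [← e3] at e4
          omega
        · rw [if_neg d']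
          exact e1
  refine (card_le_card hsub).trans ((card_insert_le _ _).trans ?_)
  have := card_insert_le D.q F
  omega

end Pool.Agent.H86.W
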