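import Mathlib
import Pool.Agent.H86.W.TIns
import Pool.Agent.H95.W.CoR

set_option autoImplicit false
open Finset

/-! # The horizontal windows of coarse data are fat

`riseR`, `dropR` : position of the corners of a window `CoarseR`. `fatH_coarse` : `FatH D.toH (n - 2)`.
`fewH_coarse` : the bottom and the ceiling colours of `D.toH` change at few columns. -/

namespace Pool.Agent.H86.W

open Pool.Agent.H54.W Pool.Agent.H54.W.HWin
open Pool.Agent.H95.W (CoarseR)

variable {D : Win} {n H W : ℤ} {A : ℤ → ℤ} {y : ℤ}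

lemma divmod_succ (hn : 0 < n) (y : ℤ) :
    (y % n < n - 1 ∧ (y + 1) / n = y / n ∧ (y + 1) % n = y % n + 1) ∨
      (y % n = n - 1 ∧ (y + 1) / n = y / n + 1 ∧ (y + 1) % n = 0) := by
  have h1 := Int.emod_add_mul_ediv y n
  have h2 := Int.emod_nonneg y hn.ne'
  have h3 := Int.emod_lt_of_pos y hn
  by_cases h : y % n = n - 1
  · right
    have e : y + 1 = 0 + n * (y / n + 1) := by rw [mul_add, mul_one]; omega
    refine ⟨h, ?_, ?_⟩
    · rw [e, Int.add_mul_ediv_left _ _ hn.ne', Int.zero_ediv, zero_add]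
    · rw [e, Int.add_mul_emod_self_left, Int.zero_emod]
  · left
    have e : y + 1 = (y % n + 1) + n * (y / n) := by omega
    refine ⟨by omega, ?_, ?_⟩
    · rw [e, Int.add_mul_ediv_left _ _ hn.ne', Int.ediv_eq_zero_of_lt (by omega) (by omega), zero_add]
    · rw [e, Int.add_mul_emod_self_left, Int.emod_eq_of_lt (by omega) (by omega)]

lemma mul_lt' (hn : 0 < n) {u v : ℤ} (h : u < v) : n * u + n ≤ n * v := by nlinarith

section coarse

variable (C : CoarseR D n H W A)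

include C

/-- the value of `a` in a cell -/
lemma a_cell {Y k : ℤ} (h0 : 0 ≤ Y) (h1 : Y < H) (h2 : 0 ≤ k) (h3 : k < n) :
    0 ≤ n * Y + k ∧ n * Y + k < D.h ∧ (D.a (n * Y + k) = n * A Y ∨
      (D.a (n * Y + k) = n * A Y - 1 ∧ ((k = n - 1 ∧ Y + 1 < H ∧ A (Y + 1) < A Y) ∨
        (k = 0 ∧ 0 < Y ∧ A (Y - 1) < A Y)))) := by
  have hn := C.pos
  obtain ⟨r1, r2, -⟩ := C.row0 h0 h1
  have e1 : (n * Y + k) / n = Y := by
    rw [Int.add_comm, Int.add_mul_ediv_left _ _ hn.ne', Int.ediv_eq_zero_of_lt h2 h3, zero_add]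
  have e2 : (n * Y + k) % n = k := by
    rw [Int.add_comm, Int.add_mul_emod_self_left, Int.emod_eq_of_lt h2 h3]
  refine ⟨by omega, by omega, ?_⟩
  have := C.a (n * Y + k) (by omega) (by omega)
  rw [e1, e2] at this
  exact this

/-- **Rises**: at the lower side of a cell, or at the notch above it. -/
lemma riseR (h0 : 0 ≤ y) (h1 : y + 1 < D.h) (h : D.a y < D.a (y + 1)) : ∃ Y, 0 < Y ∧ Y < H ∧
    A (Y - 1) < A Y ∧ ((y + 1 = n * Y ∧ D.a y = n * A (Y - 1) ∧ n * A Y - 1 ≤ D.a (y + 1) ∧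
      D.a (y + 1) ≤ n * A Y) ∨
      (y = n * Y ∧ D.a y = n * A Y - 1 ∧ D.a (y + 1) = n * A Y)) := by
  have hn := C.pos
  have h8 := C.hn
  have ey := Int.emod_add_mul_ediv y n
  have g1 := C.a y h0 (by omega)
  have g2 := C.a (y + 1) (by omega) h1
  have r1 := C.row h0 (by omega)
  have r2 := C.row (y := y + 1) (by omega) h1
  rcases divmod_succ hn y with ⟨k1, k2, k3⟩ | ⟨k1, k2, k3⟩
  · rw [k2, k3] at g2
    refine ⟨y / n, ?_⟩
    rcases g1 with g1 | ⟨g1, ⟨i1, i2, i3⟩ | ⟨i1, i2, i3⟩⟩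
    · exfalso
      rcases g2 with g2 | ⟨g2, -⟩ <;> omega
    · omega
    · rcases g2 with g2 | ⟨g2, -⟩
      · exact ⟨i2, r1.2, i3, Or.inr ⟨by omega, g1, g2⟩⟩
      · omega
  · rw [k2, k3] at g2
    rw [k2] at r2
    have hA : A (y / n) < A (y / n + 1) := by
      by_contra hc
      rcases (by omega : A (y / n + 1) = A (y / n) ∨ A (y / n + 1) < A (y / n)) with h5 | h5
      · rcases g1 with g1 | ⟨g1, ⟨i1, i2, i3⟩ | ⟨i1, i2, i3⟩⟩ <;>
          rcases g2 with g2 | ⟨g2, ⟨j1, j2, j3⟩ | ⟨j1, j2, j3⟩⟩ <;>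
            first | omega | (rw [h5] at g2; omega)
      · have h6 := mul_lt' hn h5
        rcases g1 with g1 | ⟨g1, -⟩ <;> rcases g2 with g2 | ⟨g2, -⟩ <;> omega
    refine ⟨y / n + 1, by omega, r2.2, by rw [add_sub_cancel_right]; exact hA, Or.inl ⟨?_, ?_, ?_, ?_⟩⟩
    · rw [mul_add, mul_one]; omega
    · rw [add_sub_cancel_right]
      rcases g1 with g1 | ⟨g1, ⟨i1, i2, i3⟩ | ⟨i1, i2, i3⟩⟩
      · exact g1
      · omega
      · omega
    · rcases g2 with g2 | ⟨g2, -⟩ <;> omega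
    · rcases g2 with g2 | ⟨g2, -⟩ <;> omega

/-- **Drops**: at the upper side of a cell, or at the notch below it. -/
lemma dropR (h0 : 0 ≤ y) (h1 : y + 1 < D.h) (h : D.a (y + 1) < D.a y) : ∃ Y, 0 ≤ Y ∧ Y + 1 < H ∧
    A (Y + 1) < A Y ∧ ((y + 1 = n * (Y + 1) ∧ D.a (y + 1) = n * A (Y + 1) ∧ n * A Y - 1 ≤ D.a y ∧
      D.a y ≤ n * A Y) ∨
      (y + 2 = n * (Y + 1) ∧ D.a (y + 1) = n * A Y - 1 ∧ D.a y = n * A Y)) := by
  have hn := C.pos
  have h8 := C.hn
  have ey := Int.emod_add_mul_ediv y n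
  have g1 := C.a y h0 (by omega)
  have g2 := C.a (y + 1) (by omega) h1
  have r1 := C.row h0 (by omega)
  have r2 := C.row (y := y + 1) (by omega) h1
  rcases divmod_succ hn y with ⟨k1, k2, k3⟩ | ⟨k1, k2, k3⟩
  · rw [k2, k3] at g2
    refine ⟨y / n, ?_⟩
    have := Int.emod_nonneg y hn.ne'
    rcases g2 with g2 | ⟨g2, ⟨i1, i2, i3⟩ | ⟨i1, i2, i3⟩⟩
    · exfalso
      rcases g1 with g1 | ⟨g1, -⟩ <;> omega
    · rcases g1 with g1 | ⟨g1, -⟩
      · refine ⟨r1.1, i2, i3, Or.inr ⟨?_, g2, g1⟩⟩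
        rw [mul_add, mul_one]; omega
      · omega
    · omega
  · rw [k2, k3] at g2
    rw [k2] at r2
    have hA : A (y / n + 1) < A (y / n) := by
      by_contra hc
      rcases (by omega : A (y / n + 1) = A (y / n) ∨ A (y / n) < A (y / n + 1)) with h5 | h5
      · rcases g1 with g1 | ⟨g1, ⟨i1, i2, i3⟩ | ⟨i1, i2, i3⟩⟩ <;>
          rcases g2 with g2 | ⟨g2, ⟨j1, j2, j3⟩ | ⟨j1, j2, j3⟩⟩ <;>
            first | omega | (rw [h5] at g2; omega) | (rw [add_sub_cancel_right] at j3; omega)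
      · have h6 := mul_lt' hn h5
        rcases g1 with g1 | ⟨g1, -⟩ <;> rcases g2 with g2 | ⟨g2, -⟩ <;> omega
    refine ⟨y / n, r1.1, r2.2, hA, Or.inl ⟨?_, ?_, ?_, ?_⟩⟩
    · rw [mul_add, mul_one]; omega
    · rcases g2 with g2 | ⟨g2, ⟨i1, i2, i3⟩ | ⟨i1, i2, i3⟩⟩
      · exact g2
      · omega
      · rw [add_sub_cancel_right] at i3; omega
    · rcases g1 with g1 | ⟨g1, -⟩ <;> omega
    · rcases g1 with g1 | ⟨g1, -⟩ <;> omega

/-- **The horizontal window is fat.** -/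
theorem fatH_coarse : FatH D.toH (n - 2) where
  w x h1 h2 := by
    have hn := C.pos
    simp only [Win.toH] at h1 h2 ⊢
    have r := C.row (y := -x - 1) (by omega) (by omega)
    have g := C.a_le (y := -x - 1) (by omega) (by omega)
    have k := mul_lt' hn (C.AW _ r.1 r.2)
    have := C.ww
    omega
  l x hx := by
    have hn := C.pos
    have h8 := C.hn
    have hh := C.hh
    have HH := C.HH
    rcases hx with hx | ⟨hx1, hx2, hx3⟩
    · simp only [Win.toH] at hx ⊢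
      have e0 : n * (H - 1) = D.h - n := by rw [mul_sub, mul_one]; omega
      have k0 : 0 ≤ n * (H - 1) := mul_nonneg hn.le (by omega)
      refine ⟨by omega, fun z h1 h2 => ?_⟩
      obtain ⟨-, -, c1⟩ := a_cell C (Y := H - 1) (k := n - 1) (by omega) (by omega) (by omega)
        (by omega)
      obtain ⟨-, -, c2⟩ := a_cell C (Y := H - 1) (k := -z - 1 - n * (H - 1)) (by omega) (by omega)
        (by omega) (by omega)
      rw [show n * (H - 1) + (-z - 1 - n * (H - 1)) = -z - 1 by ring] at c2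
      rw [show n * (H - 1) + (n - 1) = -x - 1 by omega] at c1
      rcases c1 with c1 | ⟨c1, ⟨i1, i2, i3⟩ | ⟨i1, i2, i3⟩⟩
      · rcases c2 with c2 | ⟨c2, -⟩ <;> omega
      · omega
      · omega
    · simp only [Win.toH] at hx1 hx2 hx3 ⊢
      rw [show -(x - 1) - 1 = -x - 1 + 1 by ring] at hx3
      obtain ⟨Y, i1, i2, i3, i4⟩ := riseR C (y := -x - 1) (by omega) (by omega) hx3
      have e1 : n * Y = n * (Y - 1) + n := by ring
      have k0 : 0 ≤ n * (Y - 1) := mul_nonneg hn.le (by omega)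
      have k1 := mul_lt' hn i3
      refine ⟨by omega, fun z h1 h2 => ?_⟩
      rcases i4 with ⟨j1, j2, -, -⟩ | ⟨j1, j2, j3⟩
      · obtain ⟨-, -, c2⟩ := a_cell C (Y := Y - 1) (k := -z - 1 - n * (Y - 1)) (by omega) (by omega)
          (by omega) (by omega)
        rw [show n * (Y - 1) + (-z - 1 - n * (Y - 1)) = -z - 1 by ring] at c2
        rcases c2 with c2 | ⟨c2, -⟩ <;> omega
      · by_cases hz : z = x
        · rw [hz]
        · obtain ⟨-, -, c2⟩ := a_cell C (Y := Y - 1) (k := -z - 1 - n * (Y - 1)) (by omega) (by omega)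
            (by omega) (by omega)
          rw [show n * (Y - 1) + (-z - 1 - n * (Y - 1)) = -z - 1 by ring] at c2
          rcases c2 with c2 | ⟨c2, -⟩ <;> omega
  r x hx := by
    have hn := C.pos
    have h8 := C.hn
    have hh := C.hh
    have HH := C.HH
    have k3 : n * 1 ≤ n * H := mul_le_mul_of_nonneg_left (by omega) hn.le
    rcases hx with hx | ⟨hx1, hx2, hx3⟩
    · simp only [Win.toH] at hx ⊢
      subst hx
      refine ⟨by omega, fun z h1 h2 => ?_⟩
      obtain ⟨-, -, c1⟩ := a_cell C (Y := 0) (k := 0) le_rfl HH le_rfl hn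
      obtain ⟨-, -, c2⟩ := a_cell C (Y := 0) (k := -z - 1) le_rfl HH (by omega) (by omega)
      rw [mul_zero, zero_add] at c2
      rw [mul_zero, zero_add] at c1
      rw [show -((0 : ℤ) - 1) - 1 = 0 by ring]
      rcases c1 with c1 | ⟨c1, ⟨i1, i2, i3⟩ | ⟨i1, i2, i3⟩⟩
      · rcases c2 with c2 | ⟨c2, -⟩ <;> omega
      · omega
      · omega
    · simp only [Win.toH] at hx1 hx2 hx3 ⊢
      rw [show -(x - 1) - 1 = -x - 1 + 1 by ring] at hx3 ⊢
      obtain ⟨Y, i1, i2, i3, i4⟩ := dropR C (y := -x - 1) (by omega) (by omega) hx3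
      have e1 : n * (Y + 1) = n * Y + n := by ring
      have e2 : n * (Y + 2) = n * (Y + 1) + n := by ring
      have k0 : 0 ≤ n * Y := mul_nonneg hn.le (by omega)
      have k2 : n * (Y + 2) ≤ n * H := mul_le_mul_of_nonneg_left (by omega) hn.le
      have k1 := mul_lt' hn i3
      refine ⟨by omega, fun z h1 h2 => ?_⟩
      rcases i4 with ⟨j1, j2, -, -⟩ | ⟨j1, j2, j3⟩
      · obtain ⟨-, -, c2⟩ := a_cell C (Y := Y + 1) (k := -z - 1 - n * (Y + 1)) (by omega) (by omega)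
          (by omega) (by omega)
        rw [show n * (Y + 1) + (-z - 1 - n * (Y + 1)) = -z - 1 by ring] at c2
        rcases c2 with c2 | ⟨c2, -⟩ <;> omega
      · by_cases hz : z = x - 1
        · rw [hz, show -(x - 1) - 1 = -x - 1 + 1 by ring]
        · obtain ⟨-, -, c2⟩ := a_cell C (Y := Y + 1) (k := -z - 1 - n * (Y + 1)) (by omega) (by omega)
            (by omega) (by omega)
          rw [show n * (Y + 1) + (-z - 1 - n * (Y + 1)) = -z - 1 by ring] at c2
          rcases c2 with c2 | ⟨c2, -⟩ <;> omega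
  l' x hx1 hx2 hx3 := by
    have hn := C.pos
    have h8 := C.hn
    have hh := C.hh
    simp only [Win.toH] at hx1 hx2 hx3 ⊢
    rw [show -(x - 1) - 1 = -x - 1 + 1 by ring] at hx3 ⊢
    obtain ⟨Y, i1, i2, i3, i4⟩ := riseR C (y := -x - 1) (by omega) (by omega) hx3
    have e1 : n * (Y + 1) = n * Y + n := by ring
    have k2 : n * (Y + 1) ≤ n * H := mul_le_mul_of_nonneg_left (by omega) hn.le
    refine ⟨by omega, fun z h1 h2 => ?_⟩
    have hz : (-z - 1 + 1 = n * Y + 1 ∧ -z - 1 = -x - 1 + 1) ∨ n * Y < -z - 1 := by omega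
    rcases hz with ⟨hz, hz'⟩ | hz
    · rw [hz']
    · obtain ⟨-, -, c2⟩ := a_cell C (Y := Y) (k := -z - 1 - n * Y) (by omega) (by omega)
        (by omega) (by omega)
      rw [show n * Y + (-z - 1 - n * Y) = -z - 1 by ring] at c2
      rcases c2 with c2 | ⟨c2, ⟨m1, m2, m3⟩ | ⟨m1, m2, m3⟩⟩
      · rcases i4 with ⟨j1, j2, j3, j4⟩ | ⟨j1, j2, j3⟩ <;> omega
      · omega
      · omega
  r' x hx1 hx2 hx3 := by
    have hn := C.pos
    have h8 := C.hn
    have hh := C.hh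
    simp only [Win.toH] at hx1 hx2 hx3 ⊢
    rw [show -(x - 1) - 1 = -x - 1 + 1 by ring] at hx3
    obtain ⟨Y, i1, i2, i3, i4⟩ := dropR C (y := -x - 1) (by omega) (by omega) hx3
    have e1 : n * (Y + 1) = n * Y + n := by ring
    have k0 : 0 ≤ n * Y := mul_nonneg hn.le (by omega)
    refine ⟨by omega, fun z h1 h2 => ?_⟩
    have hz : z = x ∨ -z - 1 < n * Y + n - 1 := by omega
    rcases hz with hz | hz
    · rw [hz]
    · obtain ⟨-, -, c2⟩ := a_cell C (Y := Y) (k := -z - 1 - n * Y) (by omega) (by omega)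
        (by omega) (by omega)
      rw [show n * Y + (-z - 1 - n * Y) = -z - 1 by ring] at c2
      rcases c2 with c2 | ⟨c2, ⟨m1, m2, m3⟩ | ⟨m1, m2, m3⟩⟩
      · rcases i4 with ⟨j1, j2, j3, j4⟩ | ⟨j1, j2, j3⟩ <;> omega
      · omega
      · omega

omit C in
/-- columns of the corners -/
noncomputable def cns (n H : ℤ) : Finset ℤ :=
  (Finset.Ico (0 : ℤ) H ×ˢ Finset.Icc (-1 : ℤ) 1).image fun p => -(n * p.1 + p.2)

omit C in
lemma card_cns (hH : 0 ≤ H) : ((cns n H).card : ℤ) ≤ 3 * H := by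
  have h : (cns n H).card ≤ (Finset.Ico (0 : ℤ) H ×ˢ Finset.Icc (-1 : ℤ) 1).card :=
    card_image_le
  rw [card_product, Int.card_Ico, Int.card_Icc] at h
  have h2 : ((H - 0).toNat * ((1 : ℤ) + 1 - -1).toNat : ℕ) = 3 * H.toNat := by
    rw [sub_zero, show ((1 : ℤ) + 1 - -1).toNat = 3 from rfl]; ring
  rw [h2] at h
  omega

/-- **The bottom and the ceiling colours change at few columns.** -/
theorem fewH_coarse {Rr : Finset ℤ}
    (hcr : ∀ y, 0 ≤ y → y + 1 < D.h → y ∉ Rr → D.cr y = D.cr (y + 1)) :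
    FewH D.toH (cns n H ∪ Rr.image fun y => -y - 1) := by
  intro x h1 h2 h3
  simp only [Win.toH] at h1 h2 ⊢
  rw [mem_union, not_or] at h3
  rw [show -(x - 1) - 1 = -x - 1 + 1 by ring]
  have key : ∀ Y δ, 0 ≤ Y → Y < H → -1 ≤ δ → δ ≤ 1 → -x = n * Y + δ → False := by
    intro Y δ k1 k2 k3 k4 k5
    refine h3.1 (mem_image.2 ⟨(Y, δ), ?_, by simp only; omega⟩)
    rw [mem_product, Finset.mem_Ico, Finset.mem_Icc]
    exact ⟨⟨k1, k2⟩, k3, k4⟩
  constructor
  · rcases lt_trichotomy (D.a (-x - 1)) (D.a (-x - 1 + 1)) with h | h | h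
    · exfalso
      obtain ⟨Y, i1, i2, i3, ⟨i4, -⟩ | ⟨i4, -⟩⟩ := riseR C (y := -x - 1) (by omega) (by omega) h
      · exact key Y 0 i1.le i2 (by omega) (by omega) (by omega)
      · exact key Y 1 i1.le i2 (by omega) (by omega) (by omega)
    · exact h.symm
    · exfalso
      obtain ⟨Y, i1, i2, i3, ⟨i4, -⟩ | ⟨i4, -⟩⟩ := dropR C (y := -x - 1) (by omega) (by omega) h
      · exact key (Y + 1) 0 (by omega) i2 (by omega) (by omega) (by omega)
      · exact key (Y + 1) (-1) (by omega) i2 (by omega) (by omega) (by omega)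
  · refine (hcr (-x - 1) (by omega) (by omega) fun h4 => h3.2 (mem_image.2 ⟨_, h4, ?_⟩)).symm
    ring

end coarse

end Pool.Agent.H86.W
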