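import Mathlib
import Pool.Agent.H5.C3.Defs
import Pool.Agent.H19.RH.Curve

set_option autoImplicit false
open Set Metric Filter Topology Complex

/-! # Arcs of a polygon (W-F, T7): compactness, intersections -/

namespace Pool.Agent.H86.W

open Pool.Agent.Q1.M4 (Cell PType pt)
open Pool.Agent.H5.C3 (sdR arR)
open Pool.Agent.H19.RH (crv crv_eq crv_add_N crv_inj N_pos crv_contOn)

variable {P : PType} {x y : ℤ → ℝ}

lemma crv_nat (n : ℕ) : crv P x y n = pt x y (P.vert n) := by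
  rw [crv_eq P (n := n) le_rfl (by linarith), sub_self, P.sidePt_zero]

lemma sdR_eq (n : ℕ) : sdR P x y n = crv P x y '' Icc (n : ℝ) (n + 1) := by
  unfold sdR
  rw [segment_eq_image']
  ext z
  constructor
  · rintro ⟨t, ht, rfl⟩
    refine ⟨n + t, ⟨by linarith [ht.1], by linarith [ht.2]⟩, ?_⟩
    rw [crv_eq P (n := n) (by linarith [ht.1]) (by linarith [ht.2]), add_sub_cancel_left]
    simp [PType.sidePt]
  · rintro ⟨u, hu, rfl⟩
    refine ⟨u - n, ⟨by linarith [hu.1], by linarith [hu.2]⟩, ?_⟩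
    rw [crv_eq P hu.1 hu.2]
    simp [PType.sidePt]

lemma arR_eq {a b : ℕ} (hab : a < b) : arR P x y a b = crv P x y '' Icc (a : ℝ) b := by
  ext z
  unfold arR
  simp only [mem_iUnion, exists_prop]
  constructor
  · rintro ⟨n, hn, hz⟩
    rw [sdR_eq] at hz
    obtain ⟨u, hu, rfl⟩ := hz
    have h1 : (a : ℝ) ≤ n := by exact_mod_cast hn.1
    have h2 : (n : ℝ) + 1 ≤ b := by exact_mod_cast hn.2
    exact ⟨u, ⟨h1.trans hu.1, hu.2.trans h2⟩, rfl⟩
  · rintro ⟨u, hu, rfl⟩
    have hu0 : 0 ≤ u := le_trans (Nat.cast_nonneg a) hu.1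
    rcases eq_or_lt_of_le hu.2 with e | e
    · refine ⟨b - 1, ⟨by omega, by omega⟩, ?_⟩
      rw [sdR_eq]
      have : ((b - 1 : ℕ) : ℝ) + 1 = b := by
        have : ((b - 1 + 1 : ℕ) : ℝ) = b := by rw [Nat.sub_add_cancel (by omega)]
        push_cast at this
        exact this
      exact ⟨u, ⟨by linarith, by linarith⟩, rfl⟩
    · refine ⟨⌊u⌋₊, ⟨Nat.le_floor hu.1, (Nat.floor_lt hu0).2 e⟩, ?_⟩
      rw [sdR_eq]
      exact ⟨u, ⟨Nat.floor_le hu0, (Nat.lt_floor_add_one u).le⟩, rfl⟩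

lemma arR_compact {a b : ℕ} (hab : a < b) : IsCompact (arR P x y a b) := by
  rw [arR_eq hab]
  exact isCompact_Icc.image_of_continuousOn ((crv_contOn P).mono fun u hu =>
    le_trans (Nat.cast_nonneg a) hu.1)

lemma arR_shift {a b : ℕ} (hab : a < b) : arR P x y (a + P.N) (b + P.N) = arR P x y a b := by
  rw [arR_eq hab, arR_eq (by omega)]
  ext z
  constructor
  · rintro ⟨u, hu, rfl⟩
    push_cast at hu
    have ha : (0 : ℝ) ≤ a := Nat.cast_nonneg a
    refine ⟨u - P.N, ⟨by linarith [hu.1], by linarith [hu.2]⟩, ?_⟩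
    rw [← crv_add_N P (by linarith [hu.1]), sub_add_cancel]
  · rintro ⟨u, hu, rfl⟩
    have ha : (0 : ℝ) ≤ a := Nat.cast_nonneg a
    refine ⟨u + P.N, ⟨by push_cast; linarith [hu.1], by push_cast; linarith [hu.2]⟩, ?_⟩
    rw [crv_add_N P (by linarith [hu.1])]

variable (hx : StrictMono x) (hy : StrictMono y)
include hx hy

lemma arR_inter {a b c : ℕ} (hab : a < b) (hbc : b < c) (hc : c ≤ P.N) (h : 0 < a ∨ c < P.N)
    {z : ℂ} (h1 : z ∈ arR P x y a b) (h2 : z ∈ arR P x y b c) : z = pt x y (P.vert b) := by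
  rw [arR_eq hab] at h1
  rw [arR_eq hbc] at h2
  obtain ⟨u, hu, rfl⟩ := h1
  obtain ⟨v, hv, e⟩ := h2
  have ha : (0 : ℝ) ≤ a := Nat.cast_nonneg a
  have hbc' : (b : ℝ) < c := by exact_mod_cast hbc
  have hc' : (c : ℝ) ≤ P.N := by exact_mod_cast hc
  have hu0 : 0 ≤ u := ha.trans hu.1
  have huN : u < P.N := by linarith [hu.2]
  rcases lt_or_ge v P.N with g | g
  · have := crv_inj P hx hy ⟨by linarith [hu.2, hv.1], g⟩ ⟨hu0, huN⟩ e
    have hub : u = b := by
      subst this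
      exact le_antisymm hu.2 hv.1
    rw [hub, crv_nat]
  · exfalso
    have hvN : v = P.N := by linarith [hv.2]
    have hcN : (P.N : ℝ) ≤ c := by linarith [hv.2]
    have hcN' : P.N ≤ c := by exact_mod_cast hcN
    have ha0 : 0 < a := by omega
    have ha0' : (0 : ℝ) < a := by exact_mod_cast ha0
    have h3 : crv P x y v = crv P x y 0 := by
      have := crv_add_N P (x := x) (y := y) (le_refl (0:ℝ))
      rw [zero_add] at this
      rw [hvN, this]
    rw [h3] at e
    have hN : (0 : ℝ) < P.N := by exact_mod_cast N_pos P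
    have := crv_inj P hx hy ⟨le_rfl, hN⟩ ⟨hu0, huN⟩ e
    linarith [hu.1]

lemma arR_inter0 {b c : ℕ} (hb : 0 < b) (hbc : b < c) (hc : c < P.N)
    {z : ℂ} (h1 : z ∈ arR P x y c P.N) (h2 : z ∈ arR P x y 0 b) : z = pt x y (P.vert 0) := by
  rw [arR_eq hc] at h1
  rw [arR_eq hb] at h2
  obtain ⟨u, hu, rfl⟩ := h1
  obtain ⟨v, hv, e⟩ := h2
  have hbc' : (b : ℝ) < c := by exact_mod_cast hbc
  have hc' : (c : ℝ) < P.N := by exact_mod_cast hc
  have hv0 : 0 ≤ v := by simpa using hv.1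
  have hN : (0 : ℝ) < P.N := by exact_mod_cast N_pos P
  have hvN : v < P.N := by linarith [hv.2]
  rcases lt_or_ge u P.N with g | g
  · exfalso
    have := crv_inj P hx hy ⟨hv0, hvN⟩ ⟨by linarith [hu.1, hv.2], g⟩ e
    linarith [hu.1, hv.2]
  · have huN : u = P.N := le_antisymm hu.2 g
    have h3 : crv P x y u = crv P x y 0 := by
      have := crv_add_N P (x := x) (y := y) (le_refl (0:ℝ))
      rw [zero_add] at this
      rw [huN, this]
    rw [h3]
    have := crv_nat (P := P) (x := x) (y := y) 0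
    simpa using this

end Pool.Agent.H86.W
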