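import Mathlib
import Pool.Agent.H5.C3.Gen
import Pool.Agent.H57.W.KAcc
import Pool.Agent.H19.RH.Curve
import Pool.Agent.H19.Rado.Shape

set_option autoImplicit false
open Set Metric Filter Topology Complex

/-! # T12: kernel convergence of perturbed shapes -/

namespace Pool.Agent.H86.W

open Pool.Agent.Q1.M4 (Cell PType pt rect Reg Om mem_rect Om_subset isOpen_Om)
open Pool.Agent.H5.C3 (Pert)
open Pool.Agent.H21.FM (Shape)
open Pool.Agent.H14.FM (ic)
open Pool.Agent.H19.Rado (KConv Om_affine aff aff_apply)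

lemma ic_mono : StrictMono ic := fun i j h => by
  show (i : ℝ) < j
  exact_mod_cast h

lemma mem_rect_ic {c : Cell} {z : ℂ} : z ∈ rect ic ic c ↔
    ((c.1 : ℝ) ≤ z.re ∧ z.re ≤ c.1 + 1) ∧ ((c.2 : ℝ) ≤ z.im ∧ z.im ≤ c.2 + 1) := by
  rw [mem_rect]
  show (((c.1 : ℤ) : ℝ) ≤ z.re ∧ z.re ≤ ((c.1 + 1 : ℤ) : ℝ)) ∧
    (((c.2 : ℤ) : ℝ) ≤ z.im ∧ z.im ≤ ((c.2 + 1 : ℤ) : ℝ)) ↔ _
  push_cast
  rfl

lemma mem_int_rect {c : Cell} {z : ℂ} (h : ((c.1 : ℝ) < z.re ∧ z.re < c.1 + 1) ∧
    ((c.2 : ℝ) < z.im ∧ z.im < c.2 + 1)) : z ∈ interior (rect ic ic c) := by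
  have e : rect ic ic c = Icc (c.1 : ℝ) (c.1 + 1) ×ℂ Icc (c.2 : ℝ) (c.2 + 1) := by
    ext w
    rw [mem_rect_ic, Complex.mem_reProdIm, mem_Icc, mem_Icc]
  rw [e, Complex.interior_reProdIm, interior_Icc, interior_Icc, Complex.mem_reProdIm]
  exact ⟨h.1, h.2⟩

lemma int_sub {Q : Finset Cell} {c : Cell} (hc : c ∈ Q) :
    interior (rect ic ic c) ⊆ Om Q ic ic :=
  interior_mono fun _ hz => ⟨c, hc, hz⟩

/-- the region of a shape divided by `M` -/
lemma mem_div {Q : Finset Cell} {M : ℕ} (hM : 0 < M) {z : ℂ} :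
    z ∈ Om Q (fun i => (1 / (M : ℝ)) * ic i + 0) (fun i => (1 / (M : ℝ)) * ic i + 0) ↔
      (M : ℂ) * z ∈ Om Q ic ic := by
  have hM' : (0 : ℝ) < M := by exact_mod_cast hM
  have hε : (0 : ℝ) < 1 / M := by positivity
  have hMc : (M : ℂ) ≠ 0 := by exact_mod_cast hM.ne'
  rw [Om_affine Q ic ic hε 0 0]
  have e0 : (⟨0, 0⟩ : ℂ) = 0 := rfl
  constructor
  · rintro ⟨w, hw, rfl⟩
    rw [aff_apply, e0, add_zero]
    push_cast
    rw [← mul_assoc, mul_one_div_cancel hMc, one_mul]
    exact hw
  · intro h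
    refine ⟨_, h, ?_⟩
    rw [aff_apply, e0, add_zero]
    push_cast
    rw [← mul_assoc, one_div_mul_cancel hMc, one_mul]

/-- the core of a cell -/
def core (η : ℝ) (c : Cell) : Set ℂ :=
  {z | ((c.1 : ℝ) + η ≤ z.re ∧ z.re ≤ c.1 + 1 - η) ∧ ((c.2 : ℝ) + η ≤ z.im ∧ z.im ≤ c.2 + 1 - η)}

lemma core_compact (η : ℝ) (c : Cell) : IsCompact (core η c) := by
  have e : core η c = Icc ((c.1 : ℝ) + η) (c.1 + 1 - η) ×ℂ Icc ((c.2 : ℝ) + η) (c.2 + 1 - η) := by
    ext w
    rw [Complex.mem_reProdIm, mem_Icc, mem_Icc]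
    rfl
  rw [e]
  exact isCompact_Icc.reProdIm isCompact_Icc

/-- the point `p` shrunk towards the centre of the cell -/
noncomputable def shr (t : ℝ) (c : Cell) (p : ℂ) : ℂ :=
  ⟨(1 - t) * p.re + t * (c.1 + 1 / 2), (1 - t) * p.im + t * (c.2 + 1 / 2)⟩

lemma shr_core {t : ℝ} (_h0 : 0 ≤ t) (h1 : t ≤ 1) {c : Cell} {p : ℂ} (hp : p ∈ rect ic ic c) :
    shr t c p ∈ core (t / 2) c := by
  rw [mem_rect_ic] at hp
  obtain ⟨⟨a, b⟩, a', b'⟩ := hp
  unfold shr core
  refine ⟨⟨?_, ?_⟩, ?_, ?_⟩ <;> simp only <;> nlinarith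

lemma shr_dist {t : ℝ} (h0 : 0 ≤ t) {c : Cell} {p : ℂ} (hp : p ∈ rect ic ic c) :
    ‖shr t c p - p‖ ≤ t := by
  rw [mem_rect_ic] at hp
  obtain ⟨⟨a, b⟩, a', b'⟩ := hp
  refine (norm_le_abs_re_add_abs_im _).trans ?_
  have e1 : (shr t c p - p).re = t * (c.1 + 1 / 2 - p.re) := by
    simp only [shr, sub_re]; ring
  have e2 : (shr t c p - p).im = t * (c.2 + 1 / 2 - p.im) := by
    simp only [shr, sub_im]; ring
  rw [e1, e2, abs_mul, abs_mul, abs_of_nonneg h0]
  have k1 : |(c.1 : ℝ) + 1 / 2 - p.re| ≤ 1 / 2 := by rw [abs_le]; constructor <;> linarith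
  have k2 : |(c.2 : ℝ) + 1 / 2 - p.im| ≤ 1 / 2 := by rw [abs_le]; constructor <;> linarith
  nlinarith

lemma core_move {η : ℝ} {c : Cell} {p u : ℂ} (hp : p ∈ core η c) (hu : ‖u‖ < η) :
    p + u ∈ interior (rect ic ic c) := by
  obtain ⟨⟨a, b⟩, a', b'⟩ := hp
  have h1 := (abs_re_le_norm u).trans_lt hu
  have h2 := (abs_im_le_norm u).trans_lt hu
  rw [abs_lt] at h1 h2
  apply mem_int_rect
  simp only [add_re, add_im]
  refine ⟨⟨?_, ?_⟩, ?_, ?_⟩ <;> linarith [h1.1, h1.2, h2.1, h2.2]

/-- from the closed cell to the core -/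
lemma half_open {c : Cell} {p q : ℂ} (hp : p ∈ rect ic ic c) {η : ℝ} (hη : 0 < η)
    (hq : q ∈ core η c) {a b : ℝ} (ha : 0 ≤ a) (hb : 0 < b) (hab : a + b = 1) :
    a • p + b • q ∈ interior (rect ic ic c) := by
  rw [mem_rect_ic] at hp
  obtain ⟨⟨p1, p2⟩, p3, p4⟩ := hp
  obtain ⟨⟨q1, q2⟩, q3, q4⟩ := hq
  obtain rfl : a = 1 - b := by linarith
  apply mem_int_rect
  simp only [add_re, add_im, smul_re, smul_im, smul_eq_mul]
  have s1 := mul_le_mul_of_nonneg_left p1 ha
  have s2 := mul_le_mul_of_nonneg_left p2 ha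
  have s3 := mul_le_mul_of_nonneg_left p3 ha
  have s4 := mul_le_mul_of_nonneg_left p4 ha
  have t1 := mul_le_mul_of_nonneg_left q1 hb.le
  have t2 := mul_le_mul_of_nonneg_left q2 hb.le
  have t3 := mul_le_mul_of_nonneg_left q3 hb.le
  have t4 := mul_le_mul_of_nonneg_left q4 hb.le
  have t5 := mul_pos hb hη
  refine ⟨⟨?_, ?_⟩, ?_, ?_⟩ <;> nlinarith

/-- **Kernel convergence of perturbations.** -/
theorem pert_kconv {S : Shape} {M : ℕ → ℕ} {δ : ℕ → ℝ} (hδ : Tendsto δ atTop (𝓝 0))
    {S' : ℕ → Shape} (h : ∀ n, Pert S (S' n) (M n) (δ n)) :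
    KConv atTop (fun n => Om (S' n).P.Q (fun i => (1 / (M n : ℝ)) * ic i + 0)
      (fun i => (1 / (M n : ℝ)) * ic i + 0)) (Om S.P.Q ic ic) := by
  have key : ∀ n {z : ℂ}, z ∈ Om (S' n).P.Q (fun i => (1 / (M n : ℝ)) * ic i + 0)
      (fun i => (1 / (M n : ℝ)) * ic i + 0) ↔ (M n : ℂ) * z ∈ Om (S' n).P.Q ic ic :=
    fun n z => mem_div (h n).M0
  have div : ∀ n (z : ℂ), (M n : ℂ) * z / M n = z := fun n z => by
    have : (M n : ℂ) ≠ 0 := by exact_mod_cast (h n).M0.ne'
    rw [mul_div_cancel_left₀ _ this]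
  refine Pool.Agent.H57.W.kconv_of_acc (Pool.Agent.H19.RH.isJordan S.P ic_mono ic_mono)
    (Eventually.of_forall fun n => ?_) ?_ ?_ ?_
  · have hM' : (0 : ℝ) < M n := by exact_mod_cast (h n).M0
    have hε : (0 : ℝ) < 1 / M n := by positivity
    have mono : StrictMono (fun i : ℤ => (1 / (M n : ℝ)) * ic i + 0) := fun i j hij => by
      have := ic_mono hij
      have := mul_lt_mul_of_pos_left this hε
      simpa using this
    exact Pool.Agent.H19.RH.isJordan (S' n).P mono mono
  · -- compact subsets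
    intro K hK hKD
    obtain ⟨r, hr, hsub⟩ := hK.exists_thickening_subset_open (isOpen_Om _ _ _) hKD
    filter_upwards [hδ.eventually_lt_const hr] with n hn u hu
    rw [key]
    by_contra hcon
    obtain ⟨w, hw, hd⟩ := (h n).com _ hcon
    rw [div] at hd
    apply hw
    apply hsub
    rw [mem_thickening_iff]
    exact ⟨u, hu, by rw [dist_comm, dist_eq_norm]; exact hd.trans_lt hn⟩
  · -- close to the domain
    intro s hs
    obtain ⟨t, ht0, ht1, hts⟩ : ∃ t : ℝ, 0 < t ∧ t ≤ 1 ∧ t ≤ s / 2 :=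
      ⟨min 1 (s / 2), by positivity, min_le_left _ _, min_le_right _ _⟩
    filter_upwards [hδ.eventually_lt_const (show (0 : ℝ) < s / 2 by positivity)] with n hn z hz
    rw [key] at hz
    obtain ⟨c, hc, v, hv, hr, -⟩ := (h n).cell _ (Om_subset _ _ _ hz)
    rw [div] at hr
    have h1 := shr_core ht0.le ht1 hr
    refine ⟨shr t c (z - v), int_sub hc ?_, ?_⟩
    · have := core_move h1 (u := 0) (by rw [norm_zero]; linarith)
      rwa [add_zero] at this
    · have h2 := shr_dist ht0.le hr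
      rw [dist_comm, dist_eq_norm, show shr t c (z - v) - z = (shr t c (z - v) - (z - v)) - v by ring]
      have h3 := norm_sub_le (shr t c (z - v) - (z - v)) v
      linarith
  · -- accessibility of the core
    intro ε hε
    obtain ⟨t, ht0, ht1, hts⟩ : ∃ t : ℝ, 0 < t ∧ t ≤ 1 ∧ t ≤ ε / 4 :=
      ⟨min 1 (ε / 4), by positivity, min_le_left _ _, min_le_right _ _⟩
    refine ⟨⋃ c ∈ S.P.Q, core (t / 2) c, S.P.Q.isCompact_biUnion fun c _ => core_compact _ c, ?_, ?_⟩
    · intro p hp
      simp only [mem_iUnion, exists_prop] at hp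
      obtain ⟨c, hc, hp⟩ := hp
      have := core_move hp (u := 0) (by rw [norm_zero]; linarith)
      rw [add_zero] at this
      exact int_sub hc this
    · filter_upwards [hδ.eventually_lt_const (show (0 : ℝ) < t / 2 by positivity)] with n hn z hz
      have hz' := hz
      rw [key] at hz
      obtain ⟨c, hc, v, hv, hr, hcell⟩ := (h n).cell _ (Om_subset _ _ _ hz)
      rw [div] at hr
      have hin : ∀ u : ℂ, u - v ∈ interior (rect ic ic c) →
          u ∈ Om (S' n).P.Q (fun i => (1 / (M n : ℝ)) * ic i + 0)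
            (fun i => (1 / (M n : ℝ)) * ic i + 0) := by
        intro u hu
        rw [key]
        apply hcell
        rw [div]
        exact hu
      obtain ⟨p, hp⟩ : ∃ p, shr t c (z - v) = p := ⟨_, rfl⟩
      have h1 : p ∈ core (t / 2) c := by rw [← hp]; exact shr_core ht0.le ht1 hr
      have h2 : ‖p - (z - v)‖ ≤ t := by rw [← hp]; exact shr_dist ht0.le hr
      refine ⟨p, ?_, ?_⟩
      · simp only [mem_iUnion, exists_prop]
        exact ⟨c, hc, h1⟩
      have j1 : JoinedIn (Om (S' n).P.Q (fun i => (1 / (M n : ℝ)) * ic i + 0)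
            (fun i => (1 / (M n : ℝ)) * ic i + 0) ∩ ball z ε) z (p + v) := by
        apply JoinedIn.of_segment_subset
        rintro u ⟨a, b, ha, hb, hab, rfl⟩
        refine ⟨?_, ?_⟩
        · rcases eq_or_lt_of_le hb with e | e
          · have : a = 1 := by linarith
            rw [← e, this, one_smul, zero_smul, add_zero]
            exact hz'
          · apply hin
            have : a • z + b • (p + v) - v = a • (z - v) + b • p := by
              have ea : (a : ℂ) = 1 - b := by
                have : a = 1 - b := by linarith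
                rw [this]; push_cast; ring
              simp only [real_smul]
              rw [ea]
              ring
            rw [this]
            exact half_open hr (half_pos ht0) h1 ha e hab
        · have hb1 : b ≤ 1 := by linarith
          rw [mem_ball, dist_eq_norm]
          have : a • z + b • (p + v) - z = b • (p - (z - v)) := by
            have ea : (a : ℂ) = 1 - b := by
              have : a = 1 - b := by linarith
              rw [this]; push_cast; ring
            simp only [real_smul]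
            rw [ea]
            ring
          rw [this, norm_smul, Real.norm_of_nonneg hb]
          have := mul_le_mul hb1 h2 (norm_nonneg _) zero_le_one
          linarith
      have j2 : JoinedIn (Om (S' n).P.Q (fun i => (1 / (M n : ℝ)) * ic i + 0)
            (fun i => (1 / (M n : ℝ)) * ic i + 0) ∩ ball z ε) (p + v) p := by
        apply JoinedIn.of_segment_subset
        rintro u ⟨a, b, ha, hb, hab, rfl⟩
        have ea : (b : ℂ) = 1 - a := by
          have : b = 1 - a := by linarith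
          rw [this]; push_cast; ring
        have hb1 : b ≤ 1 := by linarith
        have nb : ‖-(b • v)‖ ≤ δ n := by
          rw [norm_neg, norm_smul, Real.norm_of_nonneg hb]
          have := mul_le_mul hb1 hv (norm_nonneg _) zero_le_one
          linarith
        refine ⟨?_, ?_⟩
        · apply hin
          have : a • (p + v) + b • p - v = p + -(b • v) := by
            simp only [real_smul]
            rw [ea]
            ring
          rw [this]
          exact core_move h1 (by linarith)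
        · rw [mem_ball, dist_eq_norm]
          have : a • (p + v) + b • p - z = (p - (z - v)) + -(b • v) := by
            simp only [real_smul]
            rw [ea]
            ring
          rw [this]
          have := norm_add_le (p - (z - v)) (-(b • v))
          linarith
      exact j1.trans j2

end Pool.Agent.H86.W
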