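import Mathlib
import Pool.Agent.H5.FM.Lim
import Pool.Agent.H86.W.PertK
import Pool.Agent.H86.W.ArcI

set_option autoImplicit false
open Set Metric Filter Topology Complex

/-! # T12: the cross ratio is stable under perturbations of the shape -/

namespace Pool.Agent.H86.W

open Pool.Agent.H75.Perc (dir dir_cases)
open Pool.Agent.Q1.M4 (Cell IsSide nextSide tail head PType pt rect Reg Om)
open Pool.Agent.H5.C3 (Pert StPertLam sdR arR)
open Pool.Agent.H5.FM (gr near_two vert_succ vert_N OnS onS_tail onS_head)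
open Pool.Agent.H21.FM (Shape)
open Pool.Agent.H19.RH (Cht lam cc SS)
open Pool.Agent.H19.Rado (KConv tendsto_lam phi_cc lam_eq_cr cr)
open Pool.Agent.H14.FM (ic)

lemma seg_h' {a b t c : ℝ} (h : t ∈ uIcc a b) : (⟨t, c⟩ : ℂ) ∈ segment ℝ (⟨a, c⟩ : ℂ) ⟨b, c⟩ := by
  rw [← segment_eq_uIcc] at h
  obtain ⟨u, v, hu, hv, huv, rfl⟩ := h
  refine ⟨u, v, hu, hv, huv, ?_⟩
  apply Complex.ext
  · simp
  · simp only [add_im, smul_im, smul_eq_mul]
    rw [← add_mul, huv, one_mul]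

lemma seg_v' {a b t c : ℝ} (h : t ∈ uIcc a b) : (⟨c, t⟩ : ℂ) ∈ segment ℝ (⟨c, a⟩ : ℂ) ⟨c, b⟩ := by
  rw [← segment_eq_uIcc] at h
  obtain ⟨u, v, hu, hv, huv, rfl⟩ := h
  refine ⟨u, v, hu, hv, huv, ?_⟩
  apply Complex.ext
  · simp only [add_re, smul_re, smul_eq_mul]
    rw [← add_mul, huv, one_mul]
  · simp

/-- the closed sides in the two notations -/
lemma onS_sdR (P : PType) {n : ℕ} {z : ℂ} (h : OnS 1 (P.side n) z) : z ∈ sdR P ic ic n := by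
  unfold sdR
  rw [show P.vert (n + 1) = tail (P.side n) + dir (P.side n).2 from P.vert_succ n]
  show z ∈ segment ℝ (pt ic ic (tail (P.side n))) _
  obtain ⟨⟨⟨i, j⟩, k⟩, hs⟩ : ∃ s, P.side n = s := ⟨_, rfl⟩
  rw [hs] at h ⊢
  obtain ⟨a, b⟩ := z
  unfold tail
  simp only
  rcases h with ⟨hk, h1, h2, h3⟩ | ⟨hk, h1, h2, h3⟩ | ⟨hk, h1, h2, h3⟩ | ⟨hk, h1, h2, h3⟩ <;>
    simp only [one_mul] at hk h1 h2 h3 <;>
    rcases dir_cases k with ⟨hk', e⟩ | ⟨hk', e⟩ | ⟨hk', e⟩ | ⟨hk', e⟩ <;>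
    first | (exfalso; omega) | skip
  · rw [if_pos hk', e, h1]
    simp only [pt, Prod.mk_add_mk, add_zero]
    exact seg_h' (mem_uIcc_of_le h2 (by push_cast; exact h3))
  · rw [if_neg (by omega), if_pos hk', e, h1]
    simp only [pt, Prod.mk_add_mk, add_zero]
    have : (i : ℝ) + 1 = ic (i + 1) := by show _ = ((i + 1 : ℤ) : ℝ); push_cast; ring
    rw [this]
    exact seg_v' (mem_uIcc_of_le h2 (by push_cast; exact h3))
  · rw [if_neg (by omega), if_neg (by omega), if_pos hk', e, h1]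
    simp only [pt, Prod.mk_add_mk, add_zero]
    have : (j : ℝ) + 1 = ic (j + 1) := by show _ = ((j + 1 : ℤ) : ℝ); push_cast; ring
    rw [this]
    refine seg_h' (mem_uIcc_of_ge ?_ ?_)
    · push_cast; linarith
    · push_cast; exact h3
  · rw [if_neg (by omega), if_neg (by omega), if_neg (by omega), e, h1]
    simp only [pt, Prod.mk_add_mk, add_zero]
    refine seg_v' (mem_uIcc_of_ge ?_ ?_)
    · push_cast; linarith
    · push_cast; exact h3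

lemma gr_one : gr 1 = ic := by
  funext i
  unfold gr
  rw [one_mul]

lemma on_tail (s : Cell × ℤ) : OnS 1 s (pt ic ic (tail s)) := by
  have := onS_tail one_pos s
  rwa [gr_one] at this

lemma on_head (s : Cell × ℤ) : OnS 1 s (pt ic ic (head s)) := by
  have := onS_head one_pos s
  rwa [gr_one] at this

/-- the four arcs of a shape -/
noncomputable def SA (S : Shape) (q : Fin 4) : Set ℂ :=
  match q with
  | 0 => arR S.P ic ic 0 S.m2
  | 1 => arR S.P ic ic S.m2 S.m3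
  | 2 => arR S.P ic ic S.m3 S.m4
  | 3 => arR S.P ic ic S.m4 S.P.N

section
variable {S S' : Shape} {M : ℕ} {δ : ℝ} (h : Pert S S' M δ)
include h

lemma pert_l0 {i : ℕ} (hi : i < S'.m2) {z : ℂ} (hz : OnS 1 (S'.P.side i) z) :
    ∃ w ∈ SA S 0, ‖z / M - w‖ ≤ δ := by
  obtain ⟨j, hj, w, hw, hd⟩ := h.l0 i hi z hz
  refine ⟨w, ?_, hd⟩
  show w ∈ arR S.P ic ic 0 S.m2
  unfold arR
  simp only [mem_iUnion, exists_prop]
  exact ⟨j, ⟨Nat.zero_le j, hj⟩, onS_sdR S.P hw⟩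

lemma pert_l1 {i : ℕ} (hi : S'.m2 ≤ i) (hi' : i < S'.m3) {z : ℂ} (hz : OnS 1 (S'.P.side i) z) :
    ∃ w ∈ SA S 1, ‖z / M - w‖ ≤ δ := by
  obtain ⟨j, hj, w, hw, hd⟩ := h.l1 i hi hi' z hz
  refine ⟨w, ?_, hd⟩
  show w ∈ arR S.P ic ic S.m2 S.m3
  unfold arR
  simp only [mem_iUnion, exists_prop]
  exact ⟨j, hj, onS_sdR S.P hw⟩

lemma pert_l2 {i : ℕ} (hi : S'.m3 ≤ i) (hi' : i < S'.m4) {z : ℂ} (hz : OnS 1 (S'.P.side i) z) :
    ∃ w ∈ SA S 2, ‖z / M - w‖ ≤ δ := by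
  obtain ⟨j, hj, w, hw, hd⟩ := h.l2 i hi hi' z hz
  refine ⟨w, ?_, hd⟩
  show w ∈ arR S.P ic ic S.m3 S.m4
  unfold arR
  simp only [mem_iUnion, exists_prop]
  exact ⟨j, hj, onS_sdR S.P hw⟩

lemma pert_l3 {i : ℕ} (hi : S'.m4 ≤ i) (hi' : i < S'.N) {z : ℂ} (hz : OnS 1 (S'.P.side i) z) :
    ∃ w ∈ SA S 3, ‖z / M - w‖ ≤ δ := by
  obtain ⟨j, hj, w, hw, hd⟩ := h.l3 i hi hi' z hz
  refine ⟨w, ?_, hd⟩
  show w ∈ arR S.P ic ic S.m4 S.P.N
  unfold arR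
  simp only [mem_iUnion, exists_prop]
  exact ⟨j, hj, onS_sdR S.P hw⟩

/-- the four marks -/
lemma pert_marks :
    ((∃ w ∈ SA S 3, ‖pt ic ic (S'.P.vert 0) / M - w‖ ≤ δ) ∧
      ∃ w ∈ SA S 0, ‖pt ic ic (S'.P.vert 0) / M - w‖ ≤ δ) ∧
    ((∃ w ∈ SA S 0, ‖pt ic ic (S'.P.vert S'.m2) / M - w‖ ≤ δ) ∧
      ∃ w ∈ SA S 1, ‖pt ic ic (S'.P.vert S'.m2) / M - w‖ ≤ δ) ∧
    ((∃ w ∈ SA S 1, ‖pt ic ic (S'.P.vert S'.m3) / M - w‖ ≤ δ) ∧
      ∃ w ∈ SA S 2, ‖pt ic ic (S'.P.vert S'.m3) / M - w‖ ≤ δ) ∧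
    ((∃ w ∈ SA S 2, ‖pt ic ic (S'.P.vert S'.m4) / M - w‖ ≤ δ) ∧
      ∃ w ∈ SA S 3, ‖pt ic ic (S'.P.vert S'.m4) / M - w‖ ≤ δ) := by
  have a02 := S'.h02
  have a23 := S'.h23
  have a34 := S'.h34
  have amN := S'.P.hmN
  have hh : ∀ i j, i + 1 = j → S'.P.vert j = head (S'.P.side i) := by
    intro i j e
    rw [← e, vert_succ]
  have e4 : S'.m4 = S'.P.m := rfl
  have eN : S'.N = S'.P.N := rfl
  refine ⟨⟨?_, ?_⟩, ⟨?_, ?_⟩, ⟨?_, ?_⟩, ?_, ?_⟩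
  · rw [← vert_N, hh (S'.P.N - 1) _ (by omega)]
    exact pert_l3 h (by omega) (by omega) (on_head _)
  · exact pert_l0 h a02 (on_tail _)
  · rw [hh (S'.m2 - 1) _ (by omega)]
    exact pert_l0 h (by omega) (on_head _)
  · exact pert_l1 h le_rfl a23 (on_tail _)
  · rw [hh (S'.m3 - 1) _ (by omega)]
    exact pert_l1 h (by omega) (by omega) (on_head _)
  · exact pert_l2 h le_rfl a34 (on_tail _)
  · rw [hh (S'.m4 - 1) _ (by omega)]
    exact pert_l2 h (by omega) (by omega) (on_head _)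
  · exact pert_l3 h le_rfl amN (on_tail _)

end

/-- convergence of a sequence of points near two arcs -/
lemma tendsto_mark2 {K1 K2 : Set ℂ} (h1 : IsCompact K1) (h2 : IsCompact K2) {p : ℂ}
    (hp : ∀ z ∈ K1, z ∈ K2 → z = p) {κ : ℕ → ℝ} (hκ : Tendsto κ atTop (𝓝 0)) {z : ℕ → ℂ}
    (a : ∀ n, (∃ w ∈ K1, ‖z n - w‖ ≤ κ n) ∧ ∃ w ∈ K2, ‖z n - w‖ ≤ κ n) :
    Tendsto z atTop (𝓝 p) := by
  rw [Metric.tendsto_nhds]
  intro ζ hζ
  obtain ⟨κ0, hκ0, H⟩ := near_two h1 h2 hp hζ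
  filter_upwards [hκ.eventually_lt_const hκ0] with n hn
  rw [dist_eq_norm]
  obtain ⟨⟨w, hw, hd⟩, ⟨w', hw', hd'⟩⟩ := a n
  exact H _ ⟨w, hw, by linarith⟩ ⟨w', hw', by linarith⟩

/-- **T12** -/
theorem stPertLam : StPertLam := by
  intro S φ C M δ hδ S' ψ Cψ h
  have a02 := S.h02
  have a23 := S.h23
  have a34 := S.h34
  have e4 : S.m4 = S.P.m := rfl
  have amN : S.m4 < S.P.N := S.P.hmN
  have KC := pert_kconv hδ h
  have c0 : IsCompact (SA S 0) := arR_compact a02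
  have c1 : IsCompact (SA S 1) := arR_compact a23
  have c2 : IsCompact (SA S 2) := arR_compact a34
  have c3 : IsCompact (SA S 3) := arR_compact amN
  have mks := fun n => pert_marks (h n)
  have t0 : Tendsto (fun n => pt ic ic ((S' n).P.vert 0) / M n) atTop
      (𝓝 (pt ic ic (S.P.vert 0))) :=
    tendsto_mark2 c3 c0 (fun z h3 h4 => arR_inter0 ic_mono ic_mono a02 (by omega) amN h3 h4) hδ
      fun n => (mks n).1
  have t1 : Tendsto (fun n => pt ic ic ((S' n).P.vert (S' n).m2) / M n) atTop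
      (𝓝 (pt ic ic (S.P.vert S.m2))) :=
    tendsto_mark2 c0 c1 (fun z h3 h4 => arR_inter ic_mono ic_mono a02 a23 (by omega) (by omega)
      h3 h4) hδ fun n => (mks n).2.1
  have t2 : Tendsto (fun n => pt ic ic ((S' n).P.vert (S' n).m3) / M n) atTop
      (𝓝 (pt ic ic (S.P.vert S.m3))) :=
    tendsto_mark2 c1 c2 (fun z h3 h4 => arR_inter ic_mono ic_mono a23 a34 (by omega) (by omega)
      h3 h4) hδ fun n => (mks n).2.2.1
  have t3 : Tendsto (fun n => pt ic ic ((S' n).P.vert (S' n).m4) / M n) atTop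
      (𝓝 (pt ic ic (S.P.vert S.m4))) :=
    tendsto_mark2 c2 c3 (fun z h3 h4 => arR_inter ic_mono ic_mono a34 amN le_rfl (by omega)
      h3 h4) hδ fun n => (mks n).2.2.2
  have conv : ∀ (v : ℕ → ℤ × ℤ) (p : ℂ), Tendsto (fun n => pt ic ic (v n) / M n) atTop (𝓝 p) →
      Tendsto (fun n => pt (fun i => 1 / (M n : ℝ) * ic i + 0) (fun i => 1 / (M n : ℝ) * ic i + 0)
        (v n)) atTop (𝓝 p) := by
    intro v p h
    refine h.congr fun n => ?_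
    rw [Pool.Agent.H19.Rado.pt_affine]
    have : (⟨0, 0⟩ : ℂ) = 0 := rfl
    rw [this]
    push_cast
    ring
  have s0 : S.P.N ∈ SS S.P := Finset.mem_Ico.2 ⟨le_rfl, by omega⟩
  have s1 : S.P.N + S.m2 ∈ SS S.P := Finset.mem_Ico.2 ⟨by omega, by omega⟩
  have s2 : S.P.N + S.m3 ∈ SS S.P := Finset.mem_Ico.2 ⟨by omega, by omega⟩
  have s3 : S.P.N + S.m4 ∈ SS S.P := Finset.mem_Ico.2 ⟨by omega, by omega⟩
  rw [lam_eq_cr]
  have p0 := phi_cc C (m := 0) (by omega)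
  rw [add_zero] at p0
  refine tendsto_lam (ε := fun n => 1 / (M n : ℝ)) (a := fun _ => 0) (b := fun _ => 0)
    (D0 := Om S.P.Q ic ic) ?_ (Eventually.of_forall Cψ)
    (Eventually.of_forall fun n => by
      have : (0 : ℝ) < M n := by exact_mod_cast (h n).M0
      positivity) KC C.half
    ((C.cc_lt s0 s1).2 (by omega)) ((C.cc_lt s1 s2).2 (by omega)) ((C.cc_lt s2 s3).2 (by omega))
    ?_ ?_ ?_ ?_
  · exact Eventually.of_forall fun n => ⟨(S' n).h02, (S' n).h23, (S' n).h34, (S' n).P.hmN⟩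
  · rw [p0]; exact conv _ _ t0
  · rw [phi_cc C (show S.m2 < S.P.N by omega)]; exact conv _ _ t1
  · rw [phi_cc C (show S.m3 < S.P.N by omega)]; exact conv _ _ t2
  · rw [phi_cc C amN]; exact conv _ _ t3

end Pool.Agent.H86.W
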