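import Mathlib
import Pool.Agent.H5.C3.Defs

set_option autoImplicit false
open Set Metric Filter Topology Complex

/-! # Positions on the refined polygon and of the diamonds (W-F, T7) -/

namespace Pool.Agent.H86.W

open Pool.Agent.H75.Perc (dir dir_cases)
open Pool.Agent.Q1.M4 (Cell IsSide nextSide tail head PType pt Reg Om)
open Pool.Agent.H48.Q1 (fl fl_spec fl_eq fl_iff fl_step len vm)
open Pool.Agent.H5.C3

/-! ### The refined type -/

lemma len_m5 (s : Cell × ℤ) : len m5 m5 s = 5 := by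
  unfold len m5
  split_ifs
  · rw [show 5 * (s.1.1 + 1) - 5 * s.1.1 = 5 by ring]; rfl
  · rw [show 5 * (s.1.2 + 1) - 5 * s.1.2 = 5 by ring]; rfl

lemma L_m5 (P : PType) (n : ℕ) : P.L m5 m5 n = 5 * n := by
  induction n with
  | zero => simp
  | succ n ih => rw [P.L_succ, ih, len_m5]; ring

lemma P5_N (P : PType) : (P5 P).N = 5 * P.N := L_m5 P P.N

lemma P5_vert (P : PType) (n : ℕ) {r : ℕ} (hr : r ≤ 5) :
    (P5 P).vert (5 * n + r) = (5 * (P.vert n).1 + r * (dir (P.side n).2).1,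
      5 * (P.vert n).2 + r * (dir (P.side n).2).2) := by
  have h := P.refine_vert m5_mono m5_mono (n := n) (j := r) (by rw [len_m5]; exact hr)
  rw [L_m5] at h
  unfold P5
  rw [h]
  unfold vm m5
  refine Prod.ext ?_ ?_ <;> simp

/-! ### The lines -/

section line
variable (x : ℤ → ℝ) (κ : ℝ)

lemma l5_0 (a : ℤ) : l5 x κ (5 * a) = x a := by
  unfold l5
  rw [if_pos (by omega), show 5 * a / 5 = a by omega]

lemma l5_1 (a : ℤ) : l5 x κ (5 * a + 1) = x a + κ := by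
  unfold l5
  rw [if_neg (by omega), if_pos (by omega), show (5 * a + 1) / 5 = a by omega]

lemma l5_2 (a : ℤ) : l5 x κ (5 * a + 2) = x a + 2 * κ := by
  unfold l5
  rw [if_neg (by omega), if_neg (by omega), if_pos (by omega), show (5 * a + 2) / 5 = a by omega]

lemma l5_3 (a : ℤ) : l5 x κ (5 * a + 3) = x (a + 1) - 2 * κ := by
  unfold l5
  rw [if_neg (by omega), if_neg (by omega), if_neg (by omega), if_pos (by omega),
    show (5 * a + 3) / 5 = a by omega]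

lemma l5_4 (a : ℤ) : l5 x κ (5 * a + 4) = x (a + 1) - κ := by
  unfold l5
  rw [if_neg (by omega), if_neg (by omega), if_neg (by omega), if_neg (by omega),
    show (5 * a + 4) / 5 = a by omega]

variable {x κ}

lemma l5_gap {g : ℝ} (hx : GapR x g) (_hκ : 0 < κ) (h5 : 5 * κ ≤ g) (a : ℤ) :
    l5 x κ a + κ ≤ l5 x κ (a + 1) := by
  obtain ⟨b, r, hr0, hr5, rfl⟩ : ∃ b r : ℤ, 0 ≤ r ∧ r < 5 ∧ a = 5 * b + r :=
    ⟨a / 5, a % 5, by omega, by omega, by omega⟩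
  have hg := hx.gap b
  have : r = 0 ∨ r = 1 ∨ r = 2 ∨ r = 3 ∨ r = 4 := by omega
  rcases this with rfl | rfl | rfl | rfl | rfl
  · rw [add_zero, l5_0, l5_1]
  · rw [show 5 * b + 1 + 1 = 5 * b + 2 by ring, l5_1, l5_2]; linarith
  · rw [show 5 * b + 2 + 1 = 5 * b + 3 by ring, l5_2, l5_3]; linarith
  · rw [show 5 * b + 3 + 1 = 5 * b + 4 by ring, l5_3, l5_4]; linarith
  · rw [show 5 * b + 4 + 1 = 5 * (b + 1) by ring, l5_4, l5_0]; linarith

lemma l2_e (l : ℤ → ℝ) (τ : ℝ) (a : ℤ) : l2 l τ (2 * a) = l a - τ := by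
  unfold l2
  rw [if_pos (by omega), show 2 * a / 2 = a by omega]

lemma l2_o (l : ℤ → ℝ) (τ : ℝ) (a : ℤ) : l2 l τ (2 * a + 1) = l a + τ := by
  unfold l2
  rw [if_neg (by omega), show (2 * a + 1) / 2 = a by omega]

lemma l2_gap {g : ℝ} (hx : GapR x g) (hκ : 0 < κ) (h5 : 5 * κ ≤ g) (a : ℤ) :
    l2 (l5 x κ) (κ / 10) a + κ / 5 ≤ l2 (l5 x κ) (κ / 10) (a + 1) := by
  obtain ⟨b, hb⟩ := Int.even_or_odd' a
  rcases hb with rfl | rfl
  · rw [l2_e, l2_o]; linarith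
  · rw [show 2 * b + 1 + 1 = 2 * (b + 1) by ring, l2_e, l2_o]
    have := l5_gap hx hκ h5 b
    linarith

lemma lz_le {l : ℤ → ℝ} {e : ℝ} (he : 0 < e) {a i : ℤ} : lz l e a ≤ i ↔ l a ≤ e * i := by
  unfold lz
  rw [Int.ceil_le, div_le_iff₀ he, mul_comm]

lemma lt_lz {l : ℤ → ℝ} {e : ℝ} (he : 0 < e) {a i : ℤ} : i < lz l e a ↔ e * i < l a := by
  rw [← not_le, lz_le he, not_le]

lemma LX_mono {g : ℝ} (hx : GapR x g) (hκ : 0 < κ) (h5 : 5 * κ ≤ g) : StrictMono (LX x κ) := by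
  apply strictMono_int_of_lt_succ
  intro a
  unfold LX
  rw [lt_lz (by positivity)]
  have h1 := l2_gap hx hκ h5 a
  have h2 : lz (l2 (l5 x κ) (κ / 10)) (κ / 1000) a < l2 (l5 x κ) (κ / 10) a / (κ / 1000) + 1 :=
    Int.ceil_lt_add_one _
  have h3 : κ / 1000 * (lz (l2 (l5 x κ) (κ / 10)) (κ / 1000) a : ℝ) <
      κ / 1000 * (l2 (l5 x κ) (κ / 10) a / (κ / 1000) + 1) := mul_lt_mul_of_pos_left h2 (by positivity)
  have h4 : κ / 1000 * (l2 (l5 x κ) (κ / 10) a / (κ / 1000) + 1) =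
      l2 (l5 x κ) (κ / 10) a + κ / 1000 := by
    field_simp
  rw [h4] at h3
  linarith

lemma fl_pos {g : ℝ} (hx : GapR x g) (hκ : 0 < κ) (h5 : 5 * κ ≤ g) (i : ℤ) :
    l2 (l5 x κ) (κ / 10) (fl (LX x κ) i) ≤ κ / 1000 * i ∧
      κ / 1000 * i < l2 (l5 x κ) (κ / 10) (fl (LX x κ) i + 1) := by
  obtain ⟨h1, h2⟩ := fl_spec (LX_mono hx hκ h5) i
  exact ⟨(lz_le (by positivity)).1 h1, (lt_lz (by positivity)).1 h2⟩

/-- position near a line -/
lemma ev_even {g : ℝ} (hx : GapR x g) (hκ : 0 < κ) (h5 : 5 * κ ≤ g) {i1 i2 b : ℤ}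
    (hi : i2 = i1 + 1 ∨ i2 = i1 - 1) (h : ev (fl (LX x κ) i1) (fl (LX x κ) i2) = 2 * b) :
    |κ / 1000 * i1 - l5 x κ b| ≤ κ / 5 := by
  have key : ∀ i : ℤ, fl (LX x κ) i = 2 * b → |κ / 1000 * i - l5 x κ b| ≤ κ / 10 := by
    intro i hi
    have := fl_pos hx hκ h5 i
    rw [hi, l2_e, l2_o] at this
    rw [abs_le]
    constructor <;> linarith [this.1, this.2]
  unfold ev at h
  split_ifs at h with g1
  · exact (key i1 h).trans (by linarith)
  · have := key i2 h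
    rw [abs_le] at this ⊢
    rcases hi with rfl | rfl
    · push_cast at this
      constructor <;> linarith [this.1, this.2]
    · push_cast at this
      constructor <;> linarith [this.1, this.2]

/-- position between two lines -/
lemma ev_odd {g : ℝ} (hx : GapR x g) (hκ : 0 < κ) (h5 : 5 * κ ≤ g) {i1 i2 b : ℤ}
    (hi : i2 = i1 + 1 ∨ i2 = i1 - 1) (h : ev (fl (LX x κ) i1) (fl (LX x κ) i2) = 2 * b + 1) :
    l5 x κ b ≤ κ / 1000 * i1 ∧ κ / 1000 * i1 ≤ l5 x κ (b + 1) := by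
  have hm := LX_mono hx hκ h5
  have hst : fl (LX x κ) i2 = fl (LX x κ) i1 ∨ fl (LX x κ) i2 = fl (LX x κ) i1 + 1 ∨
      fl (LX x κ) i2 = fl (LX x κ) i1 - 1 := by
    rcases hi with rfl | rfl
    · rcases fl_step hm i1 with e | e <;> omega
    · have := fl_step hm (i1 - 1)
      rw [sub_add_cancel] at this
      rcases this with e | e <;> omega
  unfold ev at h
  split_ifs at h with g1
  · omega
  · have e : fl (LX x κ) i1 = 2 * b + 1 := by omega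
    have := fl_pos hx hκ h5 i1
    rw [e, show 2 * b + 1 + 1 = 2 * (b + 1) by ring, l2_e, l2_o] at this
    constructor <;> linarith [this.1, this.2]

end line

/-! ### Segments -/

lemma seg_h {a b t c : ℝ} (h : t ∈ uIcc a b) : (⟨t, c⟩ : ℂ) ∈ segment ℝ (⟨a, c⟩ : ℂ) ⟨b, c⟩ := by
  rw [← segment_eq_uIcc] at h
  obtain ⟨u, v, hu, hv, huv, rfl⟩ := h
  refine ⟨u, v, hu, hv, huv, ?_⟩
  apply Complex.ext
  · simp
  · simp only [add_im, smul_im, smul_eq_mul]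
    rw [← add_mul, huv, one_mul]

lemma seg_v {a b t c : ℝ} (h : t ∈ uIcc a b) : (⟨c, t⟩ : ℂ) ∈ segment ℝ (⟨c, a⟩ : ℂ) ⟨c, b⟩ := by
  rw [← segment_eq_uIcc] at h
  obtain ⟨u, v, hu, hv, huv, rfl⟩ := h
  refine ⟨u, v, hu, hv, huv, ?_⟩
  apply Complex.ext
  · simp only [add_re, smul_re, smul_eq_mul]
    rw [← add_mul, huv, one_mul]
  · simp

/-! ### The diamonds -/

lemma ctr_dir (c : Cell) (k : ℤ) : ((ctr (c + dir k)).1 = (ctr c).1 + 1 ∨
    (ctr (c + dir k)).1 = (ctr c).1 - 1) ∧ ((ctr (c + dir k)).2 = (ctr c).2 + 1 ∨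
    (ctr (c + dir k)).2 = (ctr c).2 - 1) := by
  unfold ctr
  rcases dir_cases k with ⟨-, e⟩ | ⟨-, e⟩ | ⟨-, e⟩ | ⟨-, e⟩ <;> rw [e] <;>
    simp only [Prod.fst_add, Prod.snd_add] <;> omega

/-- the point of the domain frame for a lattice point -/
noncomputable def ep (κ : ℝ) (p : ℤ × ℤ) : ℂ := ⟨κ / 1000 * p.1, κ / 1000 * p.2⟩

/-- vertices of the refined polygon in the plane -/
noncomputable def X5 (P : PType) (x y : ℤ → ℝ) (κ : ℝ) (n : ℕ) : ℂ :=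
  pt (l5 x κ) (l5 y κ) ((P5 P).vert n)

section pos
variable {P : PType} {x y : ℤ → ℝ} {κ g : ℝ} (hx : GapR x g) (hy : GapR y g) (hκ : 0 < κ)
  (h5 : 5 * κ ≤ g)
include hx hy hκ h5

lemma pos_vert {σ : Cell × ℤ} {n : ℕ}
    (h : eS (LX x κ) (LX y κ) σ = (P5 P).vert n + (P5 P).vert n) :
    ‖ep κ (ctr σ.1) - X5 P x y κ n‖ ≤ κ := by
  obtain ⟨d1, d2⟩ := ctr_dir σ.1 (σ.2 - 1)
  obtain ⟨⟨i, j⟩, hv⟩ : ∃ v, (P5 P).vert n = v := ⟨_, rfl⟩
  unfold eS elm at h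
  rw [hv] at h
  have g1 : ev (fl (LX x κ) (ctr σ.1).1) (fl (LX x κ) (ctr (σ.1 + dir (σ.2 - 1))).1) = i + i :=
    congrArg Prod.fst h
  have g2 : ev (fl (LX y κ) (ctr σ.1).2) (fl (LX y κ) (ctr (σ.1 + dir (σ.2 - 1))).2) = j + j :=
    congrArg Prod.snd h
  have h1 := ev_even hx hκ h5 d1 (b := i) (by omega)
  have h2 := ev_even hy hκ h5 d2 (b := j) (by omega)
  refine (norm_le_abs_re_add_abs_im _).trans ?_
  unfold ep X5
  rw [hv]
  simp only [pt, sub_re, sub_im]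
  linarith

lemma pos_edge {σ : Cell × ℤ} {n : ℕ}
    (h : eS (LX x κ) (LX y κ) σ = (P5 P).vert n + (P5 P).vert (n + 1)) :
    ∃ z ∈ segment ℝ (X5 P x y κ n) (X5 P x y κ (n + 1)), ‖ep κ (ctr σ.1) - z‖ ≤ κ := by
  obtain ⟨d1, d2⟩ := ctr_dir σ.1 (σ.2 - 1)
  obtain ⟨⟨i, j⟩, hv⟩ : ∃ v, (P5 P).vert n = v := ⟨_, rfl⟩
  have hv' := (P5 P).vert_succ n
  rw [hv] at hv'
  unfold eS elm at h
  unfold X5
  rw [hv, hv'] at h ⊢
  have g1 : ev (fl (LX x κ) (ctr σ.1).1) (fl (LX x κ) (ctr (σ.1 + dir (σ.2 - 1))).1) =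
      i + (i + (dir ((P5 P).side n).2).1) := congrArg Prod.fst h
  have g2 : ev (fl (LX y κ) (ctr σ.1).2) (fl (LX y κ) (ctr (σ.1 + dir (σ.2 - 1))).2) =
      j + (j + (dir ((P5 P).side n).2).2) := congrArg Prod.snd h
  clear h
  rcases dir_cases ((P5 P).side n).2 with ⟨-, e⟩ | ⟨-, e⟩ | ⟨-, e⟩ | ⟨-, e⟩ <;>
    rw [e] at g1 g2 ⊢ <;> simp only [Prod.mk_add_mk] at g1 g2 ⊢
  · have h1 := ev_odd hx hκ h5 d1 (b := i) (by omega)
    have h2 := ev_even hy hκ h5 d2 (b := j) (by omega)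
    refine ⟨⟨κ / 1000 * (ctr σ.1).1, l5 y κ j⟩, ?_, ?_⟩
    · simp only [pt, add_zero]
      exact seg_h (mem_uIcc_of_le h1.1 h1.2)
    · refine (norm_le_abs_re_add_abs_im _).trans ?_
      simp only [ep, sub_re, sub_im, sub_self, abs_zero]
      linarith
  · have h1 := ev_even hx hκ h5 d1 (b := i) (by omega)
    have h2 := ev_odd hy hκ h5 d2 (b := j) (by omega)
    refine ⟨⟨l5 x κ i, κ / 1000 * (ctr σ.1).2⟩, ?_, ?_⟩
    · simp only [pt, add_zero]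
      exact seg_v (mem_uIcc_of_le h2.1 h2.2)
    · refine (norm_le_abs_re_add_abs_im _).trans ?_
      simp only [ep, sub_re, sub_im, sub_self, abs_zero]
      linarith
  · have h1 := ev_odd hx hκ h5 d1 (b := i - 1) (by omega)
    have h2 := ev_even hy hκ h5 d2 (b := j) (by omega)
    rw [sub_add_cancel] at h1
    refine ⟨⟨κ / 1000 * (ctr σ.1).1, l5 y κ j⟩, ?_, ?_⟩
    · simp only [pt, add_zero, ← sub_eq_add_neg]
      exact seg_h (mem_uIcc_of_ge h1.1 h1.2)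
    · refine (norm_le_abs_re_add_abs_im _).trans ?_
      simp only [ep, sub_re, sub_im, sub_self, abs_zero]
      linarith
  · have h1 := ev_even hx hκ h5 d1 (b := i) (by omega)
    have h2 := ev_odd hy hκ h5 d2 (b := j - 1) (by omega)
    rw [sub_add_cancel] at h2
    refine ⟨⟨l5 x κ i, κ / 1000 * (ctr σ.1).2⟩, ?_, ?_⟩
    · simp only [pt, add_zero, ← sub_eq_add_neg]
      exact seg_v (mem_uIcc_of_ge h2.1 h2.2)
    · refine (norm_le_abs_re_add_abs_im _).trans ?_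
      simp only [ep, sub_re, sub_im, sub_self, abs_zero]
      linarith

end pos

end Pool.Agent.H86.W
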