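import Mathlib
import Pool.Agent.H5.C3.Stm
import Pool.Agent.H86.W.Pos5
import Pool.Agent.H86.W.ArcI

set_option autoImplicit false
open Set Metric Filter Topology Complex

/-! # Labels and arcs (W-F, T7): a side with the label `a` is near the arc `a` -/

namespace Pool.Agent.H86.W

open Pool.Agent.H75.Perc (dir dir_cases)
open Pool.Agent.Q1.M4 (Cell IsSide nextSide tail head PType pt Reg Om)
open Pool.Agent.H5.C3

section
variable {P : PType} {x y : ℤ → ℝ} {κ g : ℝ}

lemma l5_near {x : ℤ → ℝ} (hκ : 0 < κ) (a : ℤ) {s : ℤ} (h1 : -2 ≤ s) (h2 : s ≤ 2) :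
    |l5 x κ (5 * a + s) - x a| ≤ 2 * κ := by
  have : s = -2 ∨ s = -1 ∨ s = 0 ∨ s = 1 ∨ s = 2 := by omega
  rcases this with rfl | rfl | rfl | rfl | rfl
  · rw [show 5 * a + -2 = 5 * (a - 1) + 3 by ring, l5_3, sub_add_cancel, abs_le]
    constructor <;> linarith
  · rw [show 5 * a + -1 = 5 * (a - 1) + 4 by ring, l5_4, sub_add_cancel, abs_le]
    constructor <;> linarith
  · rw [add_zero, l5_0, sub_self, abs_zero]; linarith
  · rw [l5_1, abs_le]
    constructor <;> linarith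
  · rw [l5_2, abs_le]
    constructor <;> linarith

lemma vert_succ' (P : PType) (n : ℕ) : P.vert (n + 1) = ((P.vert n).1 + (dir (P.side n).2).1,
    (P.vert n).2 + (dir (P.side n).2).2) := by
  rw [P.vert_succ]; rfl

lemma norm_le_of {z : ℂ} {t : ℝ} (h : |z.re| ≤ t) (h' : z.im = 0) : ‖z‖ ≤ t := by
  refine (norm_le_abs_re_add_abs_im _).trans ?_
  rw [h', abs_zero, add_zero]
  exact h

lemma norm_le_of' {z : ℂ} {t : ℝ} (h : |z.im| ≤ t) (h' : z.re = 0) : ‖z‖ ≤ t := by
  refine (norm_le_abs_re_add_abs_im _).trans ?_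
  rw [h', abs_zero, zero_add]
  exact h

lemma X5_lo (hκ : 0 < κ) (n : ℕ) {r : ℕ} (hr : r ≤ 2) :
    ‖X5 P x y κ (5 * n + r) - pt x y (P.vert n)‖ ≤ 2 * κ := by
  unfold X5
  rw [P5_vert P n (by omega)]
  rcases dir_cases (P.side n).2 with ⟨-, e⟩ | ⟨-, e⟩ | ⟨-, e⟩ | ⟨-, e⟩ <;> rw [e] <;>
    simp only [mul_one, mul_zero, add_zero, pt]
  · apply norm_le_of
    · exact l5_near hκ _ (by omega) (by omega)
    · simp only [sub_im, l5_0, sub_self]
  · apply norm_le_of'
    · exact l5_near hκ _ (by omega) (by omega)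
    · simp only [sub_re, l5_0, sub_self]
  · apply norm_le_of
    · exact l5_near hκ _ (by omega) (by omega)
    · simp only [sub_im, l5_0, sub_self]
  · apply norm_le_of'
    · exact l5_near hκ _ (by omega) (by omega)
    · simp only [sub_re, l5_0, sub_self]

lemma X5_hi (hκ : 0 < κ) (n : ℕ) {r : ℕ} (hr : 3 ≤ r) (hr' : r ≤ 5) :
    ‖X5 P x y κ (5 * n + r) - pt x y (P.vert (n + 1))‖ ≤ 2 * κ := by
  unfold X5
  rw [P5_vert P n hr', vert_succ']
  obtain ⟨⟨i, j⟩, hv⟩ : ∃ v, P.vert n = v := ⟨_, rfl⟩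
  rcases dir_cases (P.side n).2 with ⟨-, e⟩ | ⟨-, e⟩ | ⟨-, e⟩ | ⟨-, e⟩ <;> rw [e, hv] <;>
    simp only [mul_one, mul_zero, add_zero, pt, mul_neg]
  · apply norm_le_of
    · simp only [sub_re]
      rw [show 5 * i + (r : ℤ) = 5 * (i + 1) + (r - 5) by ring]
      exact l5_near hκ _ (by omega) (by omega)
    · simp only [sub_im, l5_0, sub_self]
  · apply norm_le_of'
    · simp only [sub_im]
      rw [show 5 * j + (r : ℤ) = 5 * (j + 1) + (r - 5) by ring]
      exact l5_near hκ _ (by omega) (by omega)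
    · simp only [sub_re, l5_0, sub_self]
  · apply norm_le_of
    · simp only [sub_re]
      rw [show 5 * i + -(r : ℤ) = 5 * (i + -1) + (5 - r) by ring]
      exact l5_near hκ _ (by omega) (by omega)
    · simp only [sub_im, l5_0, sub_self]
  · apply norm_le_of'
    · simp only [sub_im]
      rw [show 5 * j + -(r : ℤ) = 5 * (j + -1) + (5 - r) by ring]
      exact l5_near hκ _ (by omega) (by omega)
    · simp only [sub_re, l5_0, sub_self]

lemma l5_mono {x : ℤ → ℝ} (hx : GapR x g) (hκ : 0 < κ) (h5 : 5 * κ ≤ g) : StrictMono (l5 x κ) :=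
  strictMono_int_of_lt_succ fun a => by have := l5_gap hx hκ h5 a; linarith

lemma X5_side (hx : GapR x g) (hy : GapR y g) (hκ : 0 < κ) (h5 : 5 * κ ≤ g) (n : ℕ) {r : ℕ}
    (hr : r ≤ 5) : X5 P x y κ (5 * n + r) ∈ sdR P x y n := by
  have mx := (l5_mono hx hκ h5).monotone
  have my := (l5_mono hy hκ h5).monotone
  unfold X5 sdR
  rw [P5_vert P n hr, vert_succ']
  obtain ⟨⟨i, j⟩, hv⟩ : ∃ v, P.vert n = v := ⟨_, rfl⟩
  rcases dir_cases (P.side n).2 with ⟨-, e⟩ | ⟨-, e⟩ | ⟨-, e⟩ | ⟨-, e⟩ <;> rw [e, hv] <;>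
    simp only [mul_one, mul_zero, add_zero, pt, mul_neg, l5_0]
  · apply seg_h
    apply mem_uIcc_of_le
    · rw [← l5_0 x κ i]; exact mx (by omega)
    · rw [← l5_0 x κ (i + 1)]; exact mx (by omega)
  · apply seg_v
    apply mem_uIcc_of_le
    · rw [← l5_0 y κ j]; exact my (by omega)
    · rw [← l5_0 y κ (j + 1)]; exact my (by omega)
  · apply seg_h
    apply mem_uIcc_of_ge
    · rw [← l5_0 x κ (i + -1)]; exact mx (by omega)
    · rw [← l5_0 x κ i]; exact mx (by omega)
  · apply seg_v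
    apply mem_uIcc_of_ge
    · rw [← l5_0 y κ (j + -1)]; exact my (by omega)
    · rw [← l5_0 y κ j]; exact my (by omega)

/-! ### Near an arc -/

lemma start_mem {a b : ℕ} (hab : a < b) : pt x y (P.vert a) ∈ arR P x y a b := by
  unfold arR
  simp only [mem_iUnion, exists_prop]
  exact ⟨a, ⟨le_rfl, hab⟩, left_mem_segment ℝ _ _⟩

lemma end_mem {a b : ℕ} (hab : a < b) : pt x y (P.vert b) ∈ arR P x y a b := by
  unfold arR
  simp only [mem_iUnion, exists_prop]
  refine ⟨b - 1, ⟨by omega, by omega⟩, ?_⟩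
  unfold sdR
  rw [Nat.sub_add_cancel (by omega)]
  exact right_mem_segment ℝ _ _

lemma side_sub {a b n : ℕ} (h1 : a ≤ n) (h2 : n < b) : sdR P x y n ⊆ arR P x y a b := by
  intro z hz
  unfold arR
  simp only [mem_iUnion, exists_prop]
  exact ⟨n, ⟨h1, h2⟩, hz⟩

section near
variable (hx : GapR x g) (hy : GapR y g) (hκ : 0 < κ) (h5 : 5 * κ ≤ g)
include hx hy hκ h5

lemma near_seg {a b k : ℕ} (hab : a < b) (h1 : 5 * a ≤ k + 2) (h2 : k + 1 ≤ 5 * b + 2) {z : ℂ}
    (hz : z ∈ segment ℝ (X5 P x y κ k) (X5 P x y κ (k + 1))) :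
    ∃ w ∈ arR P x y a b, ‖z - w‖ ≤ 2 * κ := by
  have ball : ∀ c : ℂ, ‖X5 P x y κ k - c‖ ≤ 2 * κ → ‖X5 P x y κ (k + 1) - c‖ ≤ 2 * κ →
      ‖z - c‖ ≤ 2 * κ := by
    intro c hc1 hc2
    have := (convex_closedBall c (2 * κ)).segment_subset (x := X5 P x y κ k)
      (y := X5 P x y κ (k + 1)) (by rw [mem_closedBall, dist_eq_norm]; exact hc1)
      (by rw [mem_closedBall, dist_eq_norm]; exact hc2) hz
    rwa [mem_closedBall, dist_eq_norm] at this
  rcases lt_or_ge k (5 * a) with g1 | g1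
  · -- before the arc
    obtain ⟨a', rfl⟩ : ∃ a', a = a' + 1 := ⟨a - 1, by omega⟩
    obtain ⟨r, hr⟩ : ∃ r, k = 5 * a' + r := ⟨k - 5 * a', by omega⟩
    refine ⟨_, start_mem hab, ball _ ?_ ?_⟩
    · rw [hr]; exact X5_hi hκ a' (by omega) (by omega)
    · rw [hr, add_assoc]; exact X5_hi hκ a' (by omega) (by omega)
  · rcases lt_or_ge k (5 * b) with g2 | g2
    · -- on the arc
      obtain ⟨n, r, hr, hk⟩ : ∃ n r, r < 5 ∧ k = 5 * n + r := ⟨k / 5, k % 5, by omega, by omega⟩
      refine ⟨z, ?_, by rw [sub_self, norm_zero]; linarith⟩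
      apply side_sub (n := n) (by omega) (by omega)
      rw [hk, add_assoc] at hz
      exact (convex_segment _ _).segment_subset (X5_side hx hy hκ h5 n (by omega))
        (X5_side hx hy hκ h5 n (by omega)) hz
    · -- after the arc
      obtain ⟨r, hr⟩ : ∃ r, k = 5 * b + r := ⟨k - 5 * b, by omega⟩
      refine ⟨_, end_mem hab, ball _ ?_ ?_⟩
      · rw [hr]; exact X5_lo hκ b (by omega)
      · rw [hr, add_assoc]; exact X5_lo hκ b (by omega)

lemma near_vert {a b k : ℕ} (hab : a < b) (h1 : 5 * a ≤ k + 2) (h2 : k ≤ 5 * b + 2) :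
    ∃ w ∈ arR P x y a b, ‖X5 P x y κ k - w‖ ≤ 2 * κ := by
  rcases lt_or_ge k (5 * b + 2) with g1 | g1
  · exact near_seg hx hy hκ h5 hab h1 (by omega) (left_mem_segment ℝ _ _)
  · have : k = 5 * b + 2 := by omega
    exact ⟨_, end_mem hab, by rw [this]; exact X5_lo hκ b le_rfl⟩

end near

/-! ### Periodicity -/

lemma X5_add (k : ℕ) : X5 P x y κ (k + 5 * P.N) = X5 P x y κ k := by
  unfold X5
  have h : (P5 P).vert (k + (P5 P).N) = (P5 P).vert k := by
    unfold PType.vert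
    rw [(P5 P).side_add_N]
    unfold tail
    have : (((P5 P).side k).2 + 4) % 4 = ((P5 P).side k).2 % 4 := by omega
    simp only [this]
  rw [P5_N] at h
  rw [h]

lemma X5_mod (k : ℕ) : X5 P x y κ k = X5 P x y κ (k % (5 * P.N)) := by
  conv_lhs => rw [← Nat.mod_add_div k (5 * P.N)]
  generalize k / (5 * P.N) = q
  induction q with
  | zero => simp
  | succ q ih => rw [Nat.mul_succ, ← add_assoc, X5_add, ih]

lemma X5_mod_succ (k : ℕ) : X5 P x y κ (k + 1) = X5 P x y κ (k % (5 * P.N) + 1) := by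
  rw [X5_mod (k + 1), X5_mod (k % (5 * P.N) + 1), Nat.mod_add_mod]

/-- near an arc, indices modulo the period -/
lemma near_seg' (hx : GapR x g) (hy : GapR y g) (hκ : 0 < κ) (h5 : 5 * κ ≤ g) {a b k : ℕ}
    (hab : a < b) (h : (5 * a ≤ k + 2 ∧ k + 1 ≤ 5 * b + 2) ∨
      (5 * a ≤ k + 5 * P.N + 2 ∧ k + 5 * P.N + 1 ≤ 5 * b + 2) ∨
      (5 * (a + P.N) ≤ k + 2 ∧ k + 1 ≤ 5 * (b + P.N) + 2)) {z : ℂ}
    (hz : z ∈ segment ℝ (X5 P x y κ k) (X5 P x y κ (k + 1))) :
    ∃ w ∈ arR P x y a b, ‖z - w‖ ≤ 2 * κ := by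
  rcases h with h | h | h
  · exact near_seg hx hy hκ h5 hab h.1 h.2 hz
  · refine near_seg hx hy hκ h5 (k := k + 5 * P.N) hab h.1 h.2 ?_
    rw [show k + 5 * P.N + 1 = k + 1 + 5 * P.N by ring, X5_add, X5_add]
    exact hz
  · rw [← arR_shift hab]
    exact near_seg hx hy hκ h5 (k := k) (by omega) h.1 h.2 hz

lemma near_vert' (hx : GapR x g) (hy : GapR y g) (hκ : 0 < κ) (h5 : 5 * κ ≤ g) {a b k : ℕ}
    (hab : a < b) (h : (5 * a ≤ k + 2 ∧ k ≤ 5 * b + 2) ∨
      (5 * a ≤ k + 5 * P.N + 2 ∧ k + 5 * P.N ≤ 5 * b + 2) ∨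
      (5 * (a + P.N) ≤ k + 2 ∧ k ≤ 5 * (b + P.N) + 2)) :
    ∃ w ∈ arR P x y a b, ‖X5 P x y κ k - w‖ ≤ 2 * κ := by
  rcases h with h | h | h
  · exact near_vert hx hy hκ h5 hab h.1 h.2
  · rw [← X5_add]
    exact near_vert hx hy hκ h5 (k := k + 5 * P.N) hab h.1 h.2
  · rw [← arR_shift hab]
    exact near_vert hx hy hκ h5 (k := k) (by omega) h.1 h.2

end

/-! ### Labels -/

/-- the arc with the label `q` -/
noncomputable def KA (P : PType) (x y : ℤ → ℝ) (n1 n2 : ℕ) (q : ℤ) : Set ℂ :=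
  if q = 0 then arR P x y 0 n1 else if q = 1 then arR P x y n1 n2
  else if q = 2 then arR P x y n2 P.m else arR P x y P.m P.N

lemma mod_succ_cases {M : ℕ} (hM : 0 < M) (n : ℕ) : (n % M + 1 < M ∧ (n + 1) % M = n % M + 1) ∨
    (n % M + 1 = M ∧ (n + 1) % M = 0) := by
  have h := Nat.mod_lt n hM
  rcases Nat.lt_or_ge (n % M + 1) M with g | g
  · left
    refine ⟨g, ?_⟩
    rw [← Nat.mod_add_mod, Nat.mod_eq_of_lt g]
  · right
    have e : n % M + 1 = M := by omega
    refine ⟨e, ?_⟩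
    rw [← Nat.mod_add_mod, e, Nat.mod_self]

/-- the values of the labels modulo 4, vertex `r` -/
lemma mk4_vert {N' a b c d : ℕ} {s : ℤ} {n : ℕ} {q : ℤ} (h : (mk4 N' a b c d s n - q) % 4 = 0) :
    (s + (if a < n % N' then 1 else 0) + (if b < n % N' then 1 else 0) +
      (if c < n % N' then 1 else 0) + (if d < n % N' then 1 else 0) - q) % 4 = 0 := by
  unfold mk4 at h
  omega

section
variable {P : PType} {x y : ℤ → ℝ} {κ g : ℝ} {n1 n2 : ℕ}

/-- **A side with the label `q` is near the arc `q`.** -/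
theorem near_lab (hx : GapR x g) (hy : GapR y g) (hκ : 0 < κ) (h5 : 5 * κ ≤ g) (h0 : 0 < n1)
    (h12 : n1 < n2) (h2m : n2 < P.m) {A : ℕ → ℤ}
    (hA : A = AU P.N n1 n2 P.m ∨ A = AL P.N n1 n2 P.m) {σ : Cell × ℤ} {q : ℤ}
    (hq : q = 0 ∨ q = 1 ∨ q = 2 ∨ q = 3) (hL : Lb (P5 P) A (LX x κ) (LX y κ) σ q) :
    ∃ w ∈ KA P x y n1 n2 q, ‖ep κ (ctr σ.1) - w‖ ≤ 3 * κ := by
  have hmN := P.hmN
  have hN : 0 < 5 * P.N := by omega
  -- it is enough to find the point of the refined polygon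
  suffices H : ∃ z, ‖ep κ (ctr σ.1) - z‖ ≤ κ ∧ ∃ w ∈ KA P x y n1 n2 q, ‖z - w‖ ≤ 2 * κ by
    obtain ⟨z, hz, w, hw, hzw⟩ := H
    refine ⟨w, hw, ?_⟩
    have := norm_add_le (ep κ (ctr σ.1) - z) (z - w)
    rw [sub_add_sub_cancel] at this
    linarith
  rcases hL with ⟨n, he, hn⟩ | ⟨n, he, hn⟩
  · refine ⟨_, pos_vert hx hy hκ h5 he, ?_⟩
    rw [X5_mod]
    have hr := Nat.mod_lt n hN
    rcases hA with rfl | rfl
    · unfold AU at hn
      have hn := mk4_vert hn
      generalize n % (5 * P.N) = r at hr hn ⊢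
      unfold KA
      rcases hq with rfl | rfl | rfl | rfl
      · rw [if_pos rfl]
        exact near_vert' hx hy hκ h5 h0 (by split_ifs at hn <;> omega)
      · rw [if_neg (by decide), if_pos rfl]
        exact near_vert' hx hy hκ h5 h12 (by split_ifs at hn <;> omega)
      · rw [if_neg (by decide), if_neg (by decide), if_pos rfl]
        exact near_vert' hx hy hκ h5 h2m (by split_ifs at hn <;> omega)
      · rw [if_neg (by decide), if_neg (by decide), if_neg (by decide)]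
        exact near_vert' hx hy hκ h5 hmN (by split_ifs at hn <;> omega)
    · unfold AL at hn
      have hn := mk4_vert hn
      generalize n % (5 * P.N) = r at hr hn ⊢
      unfold KA
      rcases hq with rfl | rfl | rfl | rfl
      · rw [if_pos rfl]
        exact near_vert' hx hy hκ h5 h0 (by split_ifs at hn <;> omega)
      · rw [if_neg (by decide), if_pos rfl]
        exact near_vert' hx hy hκ h5 h12 (by split_ifs at hn <;> omega)
      · rw [if_neg (by decide), if_neg (by decide), if_pos rfl]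
        exact near_vert' hx hy hκ h5 h2m (by split_ifs at hn <;> omega)
      · rw [if_neg (by decide), if_neg (by decide), if_neg (by decide)]
        exact near_vert' hx hy hκ h5 hmN (by split_ifs at hn <;> omega)
  · obtain ⟨z, hz, hd⟩ := pos_edge hx hy hκ h5 he
    refine ⟨z, hd, ?_⟩
    rw [X5_mod, X5_mod_succ] at hz
    have hr := Nat.mod_lt n hN
    have hs := mod_succ_cases hN n
    rcases hA with rfl | rfl
    · unfold AU at hn
      have hn := hn.imp mk4_vert mk4_vert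
      generalize n % (5 * P.N) = r at hr hn hs hz ⊢
      generalize (n + 1) % (5 * P.N) = r' at hn hs
      unfold KA
      rcases hq with rfl | rfl | rfl | rfl
      · rw [if_pos rfl]
        exact near_seg' hx hy hκ h5 h0 (by rcases hn with hn | hn <;> split_ifs at hn <;> omega) hz
      · rw [if_neg (by decide), if_pos rfl]
        exact near_seg' hx hy hκ h5 h12 (by rcases hn with hn | hn <;> split_ifs at hn <;> omega) hz
      · rw [if_neg (by decide), if_neg (by decide), if_pos rfl]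
        exact near_seg' hx hy hκ h5 h2m (by rcases hn with hn | hn <;> split_ifs at hn <;> omega) hz
      · rw [if_neg (by decide), if_neg (by decide), if_neg (by decide)]
        exact near_seg' hx hy hκ h5 hmN (by rcases hn with hn | hn <;> split_ifs at hn <;> omega) hz
    · unfold AL at hn
      have hn := hn.imp mk4_vert mk4_vert
      generalize n % (5 * P.N) = r at hr hn hs hz ⊢
      generalize (n + 1) % (5 * P.N) = r' at hn hs
      unfold KA
      rcases hq with rfl | rfl | rfl | rfl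
      · rw [if_pos rfl]
        exact near_seg' hx hy hκ h5 h0 (by rcases hn with hn | hn <;> split_ifs at hn <;> omega) hz
      · rw [if_neg (by decide), if_pos rfl]
        exact near_seg' hx hy hκ h5 h12 (by rcases hn with hn | hn <;> split_ifs at hn <;> omega) hz
      · rw [if_neg (by decide), if_neg (by decide), if_pos rfl]
        exact near_seg' hx hy hκ h5 h2m (by rcases hn with hn | hn <;> split_ifs at hn <;> omega) hz
      · rw [if_neg (by decide), if_neg (by decide), if_neg (by decide)]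
        exact near_seg' hx hy hκ h5 hmN (by rcases hn with hn | hn <;> split_ifs at hn <;> omega) hz

end

end Pool.Agent.H86.W
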