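import Mathlib
import Pool.Agent.H69.Car.Half

set_option autoImplicit false
open Set Metric Filter Topology Complex

/-! # Linear change of the domain of a chart (W-F, T7) -/

namespace Pool.Agent.H86.W

open Pool.Agent.H69.Car (IsHalf HC HO)

/-- multiplication by `c ≠ 0` -/
noncomputable def mulH (c : ℂ) (hc : c ≠ 0) : ℂ ≃ₜ ℂ := Homeomorph.mulLeft₀ c hc

lemma mulH_apply (c : ℂ) (hc : c ≠ 0) (z : ℂ) : mulH c hc z = c * z := rfl

/-- **Linear change of the domain of a chart.** -/
theorem half_lin {D : Set ℂ} {a b : ℂ} {φ : ℂ → ℂ} (h : IsHalf D a b φ) {c : ℂ} (hc : c ≠ 0) :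
    IsHalf ((fun z : ℂ => c * z) ⁻¹' D) (c⁻¹ * a) (c⁻¹ * b) (fun z => c⁻¹ * φ z) := by
  have hc' : c⁻¹ ≠ 0 := inv_ne_zero hc
  have eD : ∀ E : Set ℂ, (fun z : ℂ => c * z) ⁻¹' E = (fun z : ℂ => c⁻¹ * z) '' E := by
    intro E
    ext z
    constructor
    · intro hz
      exact ⟨c * z, hz, by simp only; rw [← mul_assoc, inv_mul_cancel₀ hc, one_mul]⟩
    · rintro ⟨w, hw, rfl⟩
      show c * (c⁻¹ * w) ∈ E
      rw [← mul_assoc, mul_inv_cancel₀ hc, one_mul]
      exact hw
  exact
  { cont := continuousOn_const.mul h.cont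
    inj := by
      intro z hz w hw hzw
      exact h.inj hz hw (mul_left_cancel₀ hc' hzw)
    diff := h.diff.const_mul _
    image := by
      rw [eD, ← h.image, image_image]
    zero := by rw [h.zero]
    lim := h.lim.const_mul _
    closure := by
      have e0 : closure ((fun z : ℂ => c * z) ⁻¹' D) = (fun z : ℂ => c⁻¹ * z) '' closure D := by
        rw [eD]
        exact ((mulH c⁻¹ hc').image_closure D).symm
      have e1 : (fun z => c⁻¹ * φ z) '' HC = (fun z : ℂ => c⁻¹ * z) '' (φ '' HC) := by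
        rw [image_image]
      have e2 : ({c⁻¹ * b} : Set ℂ) = (fun z : ℂ => c⁻¹ * z) '' {b} := by
        rw [image_singleton]
      rw [e0, e1, e2, h.closure]
      exact image_sdiff (show Function.Injective (fun z : ℂ => c⁻¹ * z) from
        (mulH c⁻¹ hc').injective) _ _ }

end Pool.Agent.H86.W
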