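import Mathlib
import Pool.Agent.H5.FM.Lim
import Pool.Agent.H86.W.NearA
import Pool.Agent.H86.W.Rot

set_option autoImplicit false
open Set Metric Filter Topology Complex

/-! # T7: convergence of the cross ratios of the diamond shapes -/

namespace Pool.Agent.H86.W

open Pool.Agent.H75.Perc (dir dir_cases)
open Pool.Agent.Q1.M4 (Cell IsSide nextSide tail head PType pt Reg Om)
open Pool.Agent.H5.C3
open Pool.Agent.H5.FM (gr near_two vert_succ vert_N)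
open Pool.Agent.H21.FM (Shape)
open Pool.Agent.H19.RH (Cht lam cc SS)
open Pool.Agent.H19.Rado (KConv tendsto_lam phi_cc lam_eq_cr cr)
open Pool.Agent.H14.FM (ic)

/-! ### Vertices of a side -/

lemma tail_in (s : Cell × ℤ) : ∃ α β : ℤ, (α = 0 ∨ α = 1) ∧ (β = 0 ∨ β = 1) ∧
    tail s = (s.1.1 + α, s.1.2 + β) := by
  obtain ⟨⟨a, b⟩, k⟩ := s
  unfold tail
  simp only
  split_ifs
  · exact ⟨0, 0, Or.inl rfl, Or.inl rfl, by simp⟩
  · exact ⟨1, 0, Or.inr rfl, Or.inl rfl, by simp⟩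
  · exact ⟨1, 1, Or.inr rfl, Or.inr rfl, by simp⟩
  · exact ⟨0, 1, Or.inl rfl, Or.inr rfl, by simp⟩

lemma head_in (s : Cell × ℤ) : ∃ α β : ℤ, (α = 0 ∨ α = 1) ∧ (β = 0 ∨ β = 1) ∧
    head s = (s.1.1 + α, s.1.2 + β) := by
  obtain ⟨⟨a, b⟩, k⟩ := s
  unfold head tail
  simp only
  rcases dir_cases k with ⟨h, e⟩ | ⟨h, e⟩ | ⟨h, e⟩ | ⟨h, e⟩ <;> rw [e, h]
  · exact ⟨1, 0, Or.inr rfl, Or.inl rfl, by simp⟩
  · exact ⟨1, 1, Or.inr rfl, Or.inr rfl, by simp⟩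
  · exact ⟨0, 1, Or.inl rfl, Or.inr rfl, by simp⟩
  · exact ⟨0, 0, Or.inl rfl, Or.inl rfl, by simp⟩

/-- the point of the domain frame for a vertex of the tile frame -/
noncomputable def vp (κ : ℝ) (v : ℤ × ℤ) : ℂ := (1 + I) * pt (gr (κ / 1000)) (gr (κ / 1000)) v

lemma vp_near {κ : ℝ} (hκ : 0 < κ) (c : Cell) {α β : ℤ} (hα : α = 0 ∨ α = 1) (hβ : β = 0 ∨ β = 1)
    {v : ℤ × ℤ} (hv : v = (c.1 + α, c.2 + β)) : ‖vp κ v - ep κ (ctr c)‖ ≤ κ := by
  refine (norm_le_abs_re_add_abs_im _).trans ?_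
  have h1 : (vp κ v - ep κ (ctr c)).re = κ / 1000 * ((α : ℝ) - β) := by
    rw [hv]
    simp only [vp, ep, ctr, pt, gr, sub_re, mul_re, add_re, one_re, I_re, add_im, one_im, I_im]
    push_cast
    ring
  have h2 : (vp κ v - ep κ (ctr c)).im = κ / 1000 * ((α : ℝ) + β - 1) := by
    rw [hv]
    simp only [vp, ep, ctr, pt, gr, sub_im, mul_im, add_re, one_re, I_re, add_im, one_im, I_im]
    push_cast
    ring
  rw [h1, h2]
  have e : 0 < κ / 1000 := by positivity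
  rcases hα with rfl | rfl <;> rcases hβ with rfl | rfl <;> push_cast <;>
    simp only [abs_mul, abs_of_pos e] <;> norm_num <;> linarith

section
variable {P : PType} {x y : ℤ → ℝ} {κ g : ℝ} {n1 n2 : ℕ}

/-- a vertex of a side with the label `q` is near the arc `q` -/
lemma vp_lab (hx : GapR x g) (hy : GapR y g) (hκ : 0 < κ) (h5 : 5 * κ ≤ g) (h0 : 0 < n1)
    (h12 : n1 < n2) (h2m : n2 < P.m) {A : ℕ → ℤ}
    (hA : A = AU P.N n1 n2 P.m ∨ A = AL P.N n1 n2 P.m) {σ : Cell × ℤ} {q : ℤ}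
    (hq : q = 0 ∨ q = 1 ∨ q = 2 ∨ q = 3) (hL : Lb (P5 P) A (LX x κ) (LX y κ) σ q) {v : ℤ × ℤ}
    (hv : v = tail σ ∨ v = head σ) : ∃ w ∈ KA P x y n1 n2 q, ‖vp κ v - w‖ ≤ 4 * κ := by
  obtain ⟨w, hw, h1⟩ := near_lab hx hy hκ h5 h0 h12 h2m hA hq hL
  refine ⟨w, hw, ?_⟩
  have h2 : ‖vp κ v - ep κ (ctr σ.1)‖ ≤ κ := by
    rcases hv with rfl | rfl
    · obtain ⟨α, β, hα, hβ, e⟩ := tail_in σ
      exact vp_near hκ σ.1 hα hβ e
    · obtain ⟨α, β, hα, hβ, e⟩ := head_in σ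
      exact vp_near hκ σ.1 hα hβ e
  have := norm_add_le (vp κ v - ep κ (ctr σ.1)) (ep κ (ctr σ.1) - w)
  rw [sub_add_sub_cancel] at this
  linarith

/-- the four marks -/
lemma marks_near (hx : GapR x g) (hy : GapR y g) (hκ : 0 < κ) (h5 : 5 * κ ≤ g) (h0 : 0 < n1)
    (h12 : n1 < n2) (h2m : n2 < P.m) {O : ℕ → Prop} {A : ℕ → ℤ}
    (hA : A = AU P.N n1 n2 P.m ∨ A = AL P.N n1 n2 P.m) {S : Shape} (hS : IsD P x y O A κ S) :
    ((∃ w ∈ KA P x y n1 n2 3, ‖vp κ (S.P.vert 0) - w‖ ≤ 4 * κ) ∧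
      ∃ w ∈ KA P x y n1 n2 0, ‖vp κ (S.P.vert 0) - w‖ ≤ 4 * κ) ∧
    ((∃ w ∈ KA P x y n1 n2 0, ‖vp κ (S.P.vert S.m2) - w‖ ≤ 4 * κ) ∧
      ∃ w ∈ KA P x y n1 n2 1, ‖vp κ (S.P.vert S.m2) - w‖ ≤ 4 * κ) ∧
    ((∃ w ∈ KA P x y n1 n2 1, ‖vp κ (S.P.vert S.m3) - w‖ ≤ 4 * κ) ∧
      ∃ w ∈ KA P x y n1 n2 2, ‖vp κ (S.P.vert S.m3) - w‖ ≤ 4 * κ) ∧
    ((∃ w ∈ KA P x y n1 n2 2, ‖vp κ (S.P.vert S.m4) - w‖ ≤ 4 * κ) ∧
      ∃ w ∈ KA P x y n1 n2 3, ‖vp κ (S.P.vert S.m4) - w‖ ≤ 4 * κ) := by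
  have a02 := S.h02
  have a23 := S.h23
  have a34 := S.h34
  have amN := S.P.hmN
  have key := fun {σ : Cell × ℤ} {q : ℤ} => vp_lab (σ := σ) (q := q) hx hy hκ h5 h0 h12 h2m hA
  have hh : ∀ i j, i + 1 = j → S.P.vert j = head (S.P.side i) := by
    intro i j e
    rw [← e, vert_succ]
  refine ⟨⟨?_, ?_⟩, ⟨?_, ?_⟩, ⟨?_, ?_⟩, ?_, ?_⟩
  · rw [← vert_N]
    exact key (by decide) (hS.l3 (S.P.N - 1) (by omega) (by omega)) (Or.inr (hh _ _ (by omega)))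
  · exact key (by decide) (hS.l0 0 a02) (Or.inl rfl)
  · exact key (by decide) (hS.l0 (S.m2 - 1) (by omega)) (Or.inr (hh _ _ (by omega)))
  · exact key (by decide) (hS.l1 S.m2 le_rfl a23) (Or.inl rfl)
  · exact key (by decide) (hS.l1 (S.m3 - 1) (by omega) (by omega)) (Or.inr (hh _ _ (by omega)))
  · exact key (by decide) (hS.l2 S.m3 le_rfl a34) (Or.inl rfl)
  · exact key (by decide) (hS.l2 (S.P.m - 1) (by omega) (by omega)) (Or.inr (hh _ _ (by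
      show S.P.m - 1 + 1 = S.P.m; omega)))
  · exact key (by decide) (hS.l3 S.P.m le_rfl amN) (Or.inl rfl)

end

/-- convergence of a sequence of points near two arcs -/
lemma tendsto_mark' {K1 K2 : Set ℂ} (h1 : IsCompact K1) (h2 : IsCompact K2) {p : ℂ}
    (hp : ∀ z ∈ K1, z ∈ K2 → z = p) {κ : ℕ → ℝ} (hκ : Tendsto κ atTop (𝓝 0)) {z : ℕ → ℂ}
    (a : ∀ᶠ n in atTop, (∃ w ∈ K1, ‖z n - w‖ ≤ 4 * κ n) ∧ ∃ w ∈ K2, ‖z n - w‖ ≤ 4 * κ n) :
    Tendsto z atTop (𝓝 p) := by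
  rw [Metric.tendsto_nhds]
  intro ζ hζ
  obtain ⟨κ0, hκ0, H⟩ := near_two h1 h2 hp hζ
  filter_upwards [hκ.eventually_lt_const (show (0 : ℝ) < κ0 / 4 by positivity), a] with n hn ha
  rw [dist_eq_norm]
  obtain ⟨⟨w, hw, hd⟩, ⟨w', hw', hd'⟩⟩ := ha
  exact H _ ⟨w, hw, by linarith⟩ ⟨w', hw', by linarith⟩

lemma one_add_I_ne : (1 + I : ℂ) ≠ 0 := by
  intro h
  have := congrArg Complex.re h
  simp at this

/-- **T7** -/
theorem stLam (hK : StKer) : StLam := by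
  intro P x y g hx hy n1 n2 h0 h12 h2m φ C κ hκ hκ0 S ψ Cψ hS
  have hmN := P.hmN
  have hOA : ∀ n, ∃ (O : ℕ → Prop) (A : ℕ → ℤ), IsD P x y O A (κ n) (S n) ∧
      (A = AU P.N n1 n2 P.m ∨ A = AL P.N n1 n2 P.m) := by
    intro n
    rcases hS n with h | h
    · exact ⟨_, _, h, Or.inl rfl⟩
    · exact ⟨_, _, h, Or.inr rfl⟩
  choose O A hD hA using hOA
  have KC := hK P x y g hx hy O κ hκ hκ0 S (fun n => (hD n).Q)
  have mx : StrictMono x := strictMono_int_of_lt_succ fun i => by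
    have := hx.gap i; have := hx.g0; linarith
  have my : StrictMono y := strictMono_int_of_lt_succ fun i => by
    have := hy.gap i; have := hy.g0; linarith
  have hev : ∀ᶠ n in atTop, 5 * κ n ≤ g := by
    filter_upwards [hκ0.eventually_lt_const (show (0 : ℝ) < g / 5 by have := hx.g0; positivity)]
      with n hn
    linarith
  have mks := hev.mono fun n hn => marks_near hx hy (hκ n) hn h0 h12 h2m (hA n) (hD n)
  have k0 : KA P x y n1 n2 0 = arR P x y 0 n1 := by unfold KA; rw [if_pos rfl]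
  have k1 : KA P x y n1 n2 1 = arR P x y n1 n2 := by
    unfold KA; rw [if_neg (by decide), if_pos rfl]
  have k2 : KA P x y n1 n2 2 = arR P x y n2 P.m := by
    unfold KA; rw [if_neg (by decide), if_neg (by decide), if_pos rfl]
  have k3 : KA P x y n1 n2 3 = arR P x y P.m P.N := by
    unfold KA; rw [if_neg (by decide), if_neg (by decide), if_neg (by decide)]
  rw [k0, k1, k2, k3] at mks
  have c0 := arR_compact (P := P) (x := x) (y := y) h0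
  have c1 := arR_compact (P := P) (x := x) (y := y) h12
  have c2 := arR_compact (P := P) (x := x) (y := y) h2m
  have c3 := arR_compact (P := P) (x := x) (y := y) hmN
  have t0 : Tendsto (fun n => vp (κ n) ((S n).P.vert 0)) atTop (𝓝 (pt x y (P.vert 0))) :=
    tendsto_mark' c3 c0 (fun z h3 h4 => arR_inter0 mx my h0 (h12.trans h2m) hmN h3 h4) hκ0
      (mks.mono fun n h => h.1)
  have t1 : Tendsto (fun n => vp (κ n) ((S n).P.vert (S n).m2)) atTop (𝓝 (pt x y (P.vert n1))) :=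
    tendsto_mark' c0 c1 (fun z h3 h4 => arR_inter mx my h0 h12 (by omega) (by omega) h3 h4) hκ0
      (mks.mono fun n h => h.2.1)
  have t2 : Tendsto (fun n => vp (κ n) ((S n).P.vert (S n).m3)) atTop (𝓝 (pt x y (P.vert n2))) :=
    tendsto_mark' c1 c2 (fun z h3 h4 => arR_inter mx my h12 h2m (by omega) (by omega) h3 h4) hκ0
      (mks.mono fun n h => h.2.2.1)
  have t3 : Tendsto (fun n => vp (κ n) ((S n).P.vert (S n).m4)) atTop (𝓝 (pt x y (P.vert P.m))) :=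
    tendsto_mark' c2 c3 (fun z h3 h4 => arR_inter mx my h2m hmN le_rfl (by omega) h3 h4) hκ0
      (mks.mono fun n h => h.2.2.2)
  have eg : ∀ n, (fun i : ℤ => κ n / 1000 * ic i + 0) = gr (κ n / 1000) := fun n => by
    funext i; unfold gr; rw [add_zero]
  have conv : ∀ (v : ℕ → ℤ × ℤ) (p : ℂ), Tendsto (fun n => vp (κ n) (v n)) atTop (𝓝 p) →
      Tendsto (fun n => pt (fun i => κ n / 1000 * ic i + 0) (fun i => κ n / 1000 * ic i + 0) (v n))
        atTop (𝓝 ((1 + I)⁻¹ * p)) := by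
    intro v p h
    refine (h.const_mul ((1 + I)⁻¹)).congr fun n => ?_
    rw [eg]
    unfold vp
    rw [← mul_assoc, inv_mul_cancel₀ one_add_I_ne, one_mul]
  have s0 : P.N ∈ SS P := Finset.mem_Ico.2 ⟨le_rfl, by omega⟩
  have s1 : P.N + n1 ∈ SS P := Finset.mem_Ico.2 ⟨by omega, by omega⟩
  have s2 : P.N + n2 ∈ SS P := Finset.mem_Ico.2 ⟨by omega, by omega⟩
  have s3 : P.N + P.m ∈ SS P := Finset.mem_Ico.2 ⟨by omega, by omega⟩
  rw [lam_eq_cr]
  have p0 := phi_cc C (m := 0) (by omega)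
  rw [add_zero] at p0
  refine tendsto_lam (ε := fun n => κ n / 1000) (a := fun _ => 0) (b := fun _ => 0)
    (D0 := (fun z : ℂ => (1 + I) * z) ⁻¹' Om P.Q x y) ?_ (Eventually.of_forall Cψ)
    (Eventually.of_forall fun n => by have := hκ n; positivity) ?_ (half_lin C.half one_add_I_ne)
    ((C.cc_lt s0 s1).2 (by omega)) ((C.cc_lt s1 s2).2 (by omega)) ((C.cc_lt s2 s3).2 (by omega))
    ?_ ?_ ?_ ?_
  · exact Eventually.of_forall fun n => ⟨(S n).h02, (S n).h23, (S n).h34, (S n).P.hmN⟩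
  · simp only [eg]; exact KC
  · simp only [p0]; exact conv _ _ t0
  · simp only [phi_cc C (show n1 < P.N by omega)]; exact conv _ _ t1
  · simp only [phi_cc C (show n2 < P.N by omega)]; exact conv _ _ t2
  · simp only [phi_cc C hmN]; exact conv _ _ t3

end Pool.Agent.H86.W
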