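import Mathlib
import Pool.Agent.H86.W.T7
import Pool.Agent.H19.W.Ker

set_option autoImplicit false

/-! # T7, final form (with T6 = `stKer` of helper19) -/

namespace Pool.Agent.H86.W

open Pool.Agent.H5.C3

/-- **T7**: convergence of the cross ratios. -/
theorem stLamF : StLam := stLam Pool.Agent.H19.W.stKer

end Pool.Agent.H86.W
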