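import Mathlib
import Pool.Agent.H80.W.XPSt
import Pool.Agent.H13.W.SolidPair

set_option autoImplicit false
set_option linter.unusedSectionVars false
open Finset

/-! # (C6) (J5) (c), XP: the two deleted rows inside the solid plates do nothing (thin layer)

`xp_solid` : in the thin strand graph `LamT` the connections between the moving end `zc v` and the corners
`f1`, `f2` of the marks are the same with the deleted rows `0`, `1` left of `x1` (`XA.D`) and without them
(`strD v`), if every tile column `x ≤ x1 + 1` has one state `p x` in the rows `-1, 0, 1, 2` and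
`p (x1 - 1) = p x1 = p (x1 + 1)`. By `Sol.Pair` of 13 (`H13/W/SolidPair.lean`).
`xp_col` : these hypotheses hold for the states `XA.st ω` of a block constant `ω` (three marks).
`xp_solid_st`, `xp_solid_up` : the two together. -/

namespace Pool.Agent.H86.W

open Pool.Agent.H61.W Pool.Agent.H6.W Pool.Agent.H58.W Pool.Agent.H21.W Pool.Agent.H50.W
open Pool.Agent.H82.W Pool.Agent.H13.W Pool.Agent.H71.W Pool.Agent.H80.W
open Pool.Agent.H47.W (hz vt vt_odd hz_ne_vt vt_inj hz_inj eW_vt eE_vt eS_vt eN_vt)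
open Pool.Agent.H13.W.Sol (Solid Pair CT Inn Box Inn_hz Inn_vt nd nd_hz nd_vt rho kap Im_far ColOK)
open Pool.Agent.H73.W (LamT)
open Pool.Agent.H19.W (cx cy lt_cc cx_lt cy_lt)
open Pool.Agent.H33.Q1 (lt tt TL mem_TL lt_odd)

variable {δ σ : ℝ} {b : JBox} {h : ℕ} {M : Finset (Bool × ℕ)} {bse o : Bool}
  {x1 a0 a1 y1 : ℤ} {v : ℤ × ℤ}

/-- the moving end or a corner of a mark -/
def XFar (b : JBox) (h : ℕ) (M : Finset (Bool × ℕ)) (v c : ℤ × ℤ) : Prop :=
  c = zc v ∨ ∃ q ∈ M, c = f1 b (2 * h) q ∨ c = f2 b (2 * h) q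

lemma vt_lt (x y : ℤ) : vt x y = lt (x, y) := rfl

/-- states of the lines, world without the two deleted rows; `xl` = first tile column -/
def sg1 (p : ℤ → Bool) (xl : ℤ) (x _Y : ℤ) : Bool := if x < xl then p xl else p x

/-- states of the lines, world with the two deleted rows -/
def sg2 (p : ℤ → Bool) (xl x1 : ℤ) (x Y : ℤ) : Bool :=
  if x < xl then p xl else if Y = 1 ∧ x < x1 then !(p x) else p x

/-- types of the columns -/
def ctp (p : ℤ → Bool) (xl xb : ℤ) (X : ℤ) : CT :=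
  if xl < X ∧ X < xb ∧ p (X - 1) ≠ p X then .gap else .junk

lemma bool_two {a c : Bool} (h : a ≠ c) : (!a) ≠ (!c) := by
  cases a <;> cases c <;> simp_all

section geo

variable (U : XPH δ σ b h x1 a0 a1 y1 v)
include U

/-- the block is in the box -/
lemma xp_x1 : -(b.X * (2 * h) : ℤ) < x1 ∧ x1 + 1 < 0 := by
  have h1 := U.am
  have h2 := U.a0x
  have h3 := U.xa1
  have h4 := U.a10
  have h5 := X_eq U.ok
  have h6 : (b.m : ℤ) ≤ nP b := by exact_mod_cast U.mn
  have h7 : (b.m : ℤ) * b.M * (2 * h) ≤ b.X * (2 * h) := by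
    rw [h5]
    have : (b.m : ℤ) * b.M ≤ nP b * b.M := mul_le_mul_of_nonneg_right h6 (by positivity)
    exact mul_le_mul_of_nonneg_right this U.hn.le
  constructor <;> linarith

lemma xp_Hn (hh : 2 ≤ h) : (4 : ℤ) ≤ b.H * (2 * h) ∧ (4 : ℤ) ≤ v.2 ∧
    ∀ i : ℕ, (4 : ℤ) ≤ ((b.τ : ℤ) + i) * (2 * h) := by
  have h0 : (2 : ℤ) ≤ h := by exact_mod_cast hh
  have h1 := U.tau0
  have h2 := U.tau_le 0
  have h3 := U.thk
  have h4 : ((b.τ : ℤ) + nP b) * (2 * h) ≤ b.H * (2 * h) := mul_le_mul_of_nonneg_right h3.le U.hn.le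
  have h5 := U.tau_le (nP b)
  refine ⟨by linarith, ?_, fun i => ?_⟩
  · have h6 := U.va1
    have h7 := U.a10
    have := U.vt 0 (by simp only [CharP.cast_eq_zero, zero_mul, neg_zero]; linarith) (nP_pos U.ok)
    linarith
  · have := U.tau_le i
    linarith

/-- tiles of the thin graph near the slit -/
lemma xp_mem (hh : 2 ≤ h) {x y : ℤ} (h1 : -2 ≤ y) (h2 : y ≤ 3) (h3 : -(b.X * (2 * h) : ℤ) - 1 ≤ x)
    (h4 : x ≤ b.X * (2 * h)) : lt (x, y) ∈ LamT b (2 * h) M := by
  obtain ⟨k1, -, -⟩ := xp_Hn U hh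
  have hX : (0 : ℤ) < b.X * (2 * h) := mul_pos (by exact_mod_cast X_pos U.ok) U.hn
  refine ⟨x, y, rfl, ?_, ?_⟩
  · by_cases h5 : -(b.X * (2 * h) : ℤ) ≤ x
    · by_cases h6 : x < b.X * (2 * h)
      · refine ⟨0, 0, by norm_num, by norm_num, ?_⟩
        rw [add_zero, add_zero, InQ_band U.ok U.hn (by linarith) (by linarith)]
        exact ⟨h5, h6⟩
      · refine ⟨-1, 0, by norm_num, by norm_num, ?_⟩
        rw [add_zero, InQ_band U.ok U.hn (by linarith) (by linarith)]
        constructor <;> linarith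
    · refine ⟨1, 0, by norm_num, by norm_num, ?_⟩
      rw [add_zero, InQ_band U.ok U.hn (by linarith) (by linarith)]
      constructor <;> linarith
  · intro c _ hc
    have := congrArg Prod.snd hc
    simp only at this
    rcases dgt_row (b := b) U.hn c with g | g
    · rw [← this] at g; linarith
    · rw [← this] at g; linarith

/-- columns of the thin graph -/
lemma xp_col_lo {x y : ℤ} (hm : lt (x, y) ∈ LamT b (2 * h) M) : -(b.X * (2 * h) : ℤ) - 1 ≤ x := by
  obtain ⟨x', y', he, ⟨i, j, hi, -, hQ⟩, -⟩ := hm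
  have e1 : x = x' := by
    have := congrArg cx he
    rwa [cx_lt, cx_lt] at this
  have h1 := (InQ_col U.ok U.hn hQ).1
  rw [abs_le] at hi
  linarith [hi.2]

lemma xp_D {x y : ℤ} : vt x y ∈ lt '' strD v ↔ y = v.2 ∧ v.1 ≤ x := by
  rw [vt_lt, mem_strD (lt_odd _), cx_lt, cy_lt]

lemma xp_XD {x y : ℤ} : vt x y ∈ (XA b h M bse o x1 a0 v).D ↔
    (y = v.2 ∧ v.1 ≤ x) ∨ ((y = 0 ∨ y = 1) ∧ x < x1) := by
  rw [vt_lt, mem_XAD (lt_odd _), cx_lt, cy_lt]

/-- the ends are far from the slit -/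
lemma xp_far (hh : 2 ≤ h) {xl xb : ℤ} {s : ℤ → ℤ → Bool} {c : ℤ × ℤ} (hc : XFar b h M v c) :
    ¬ Inn xl xb 0 2 c ∧ ¬ Box xl xb 0 2 (nd s c).1 (nd s c).2 := by
  obtain ⟨k1, k2, -⟩ := xp_Hn U hh
  have hv : ∀ X y : ℤ, (3 ≤ y ∨ y < -1) → ¬ Inn xl xb 0 2 (vt X y) ∧
      ¬ Box xl xb 0 2 (nd s (vt X y)).1 (nd s (vt X y)).2 := by
    intro X y hy
    have hr : rho s X y = y ∨ rho s X y = y + 1 := by unfold rho; split_ifs <;> simp
    rw [Inn_vt, nd_vt]
    unfold Box
    simp only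
    constructor <;> omega
  have hh' : ∀ x Y : ℤ, (3 ≤ Y ∨ Y < 0) → ¬ Inn xl xb 0 2 (hz x Y) ∧
      ¬ Box xl xb 0 2 (nd s (hz x Y)).1 (nd s (hz x Y)).2 := by
    intro x Y hY
    rw [Inn_hz, nd_hz]
    unfold Box
    simp only
    constructor <;> omega
  have hrow : ∀ q : Bool × ℕ, (q.1 = true → (4 : ℤ) ≤ (dgt b (2 * h) q).2) ∧
      (q.1 = false → (dgt b (2 * h) q).2 < -4) := by
    intro q
    unfold dgt cpt
    have h1 : ((b.H : ℤ) + q.2 + 1) * (2 * h) = b.H * (2 * h) + (q.2 + 1) * (2 * h) := by ring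
    have h2 : (0 : ℤ) ≤ (q.2 + 1) * (2 * h) := by positivity
    constructor
    · intro hq
      simp only [hq, if_true]
      rw [h1]; linarith
    · intro hq
      simp only [hq, Bool.false_eq_true, if_false]
      rw [h1]; linarith
  rcases hc with rfl | ⟨q, -, rfl | rfl⟩
  · have e : zc v = vt v.1 v.2 := rfl
    rw [e]
    exact hv _ _ (Or.inl (by linarith))
  · have e : f1 b (2 * h) q = vt ((dgt b (2 * h) q).1 + 1) (dgt b (2 * h) q).2 := by
      unfold f1
      have : lt (dgt b (2 * h) q) = vt (dgt b (2 * h) q).1 (dgt b (2 * h) q).2 := rfl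
      rw [this, eE_vt]
    rw [e]
    refine hv _ _ ?_
    rcases hq : q.1 with _ | _
    · have := (hrow q).2 hq; right; linarith
    · have := (hrow q).1 hq; left; linarith
  · have e0 : lt (dgt b (2 * h) q) = vt (dgt b (2 * h) q).1 (dgt b (2 * h) q).2 := rfl
    unfold f2
    rcases hq : q.1 with _ | _
    · simp only [Bool.false_eq_true, if_false]
      rw [e0, eN_vt]
      have := (hrow q).2 hq
      exact hh' _ _ (Or.inr (by linarith))
    · simp only [if_true]
      rw [e0, eS_vt]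
      have := (hrow q).1 hq
      exact hh' _ _ (Or.inl (by linarith))

end geo

section pair

variable (U : XPH δ σ b h x1 a0 a1 y1 v)
include U

/-- **The pair of the two worlds.** -/
theorem xp_pair (hh : 2 ≤ h) {w : Finset (ℤ × ℤ)} (p : ℤ → Bool)
    (hp : ∀ x y, lt (x, y) ∈ LamT b (2 * h) M → -1 ≤ y → y ≤ 2 → x ≤ x1 + 1 →
      (lt (x, y) ∈ w ↔ p x = true))
    (hp1 : p (x1 - 1) = p x1) (hp2 : p (x1 + 1) = p x1) :
    Pair (LamT b (2 * h) M) (LamT b (2 * h) M) (lt '' strD v) (XA b h M bse o x1 a0 v).D w w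
      (-(b.X * (2 * h) : ℤ) - 1) (x1 + 1) 0 2 (sg1 p (-(b.X * (2 * h) : ℤ) - 1))
      (sg2 p (-(b.X * (2 * h) : ℤ) - 1) x1)
      (ctp p (-(b.X * (2 * h) : ℤ) - 1) (x1 + 1)) (ctp p (-(b.X * (2 * h) : ℤ) - 1) (x1 + 1)) := by
  obtain ⟨k1, k2, -⟩ := xp_Hn U hh
  obtain ⟨k3, k4⟩ := xp_x1 U
  have hX : (0 : ℤ) < b.X * (2 * h) := mul_pos (by exact_mod_cast X_pos U.ok) U.hn
  have hlo : ∀ x y, vt x y ∈ LamT b (2 * h) M → -(b.X * (2 * h) : ℤ) - 1 ≤ x :=
    fun x y hm => xp_col_lo U hm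
  have hin : ∀ x y : ℤ, -2 ≤ y → y ≤ 3 → -(b.X * (2 * h) : ℤ) - 1 ≤ x → x ≤ x1 + 1 →
      vt x y ∈ LamT b (2 * h) M := fun x y h1 h2 h3 h4 => xp_mem U hh h1 h2 h3 (by linarith)
  have hp' : ∀ x y, vt x y ∈ LamT b (2 * h) M → -1 ≤ y → y ≤ 2 → x ≤ x1 + 1 →
      (vt x y ∈ w ↔ p x = true) := hp
  have hD1 : ∀ x y : ℤ, vt x y ∈ lt '' strD v ↔ y = v.2 ∧ v.1 ≤ x := fun x y => xp_D U
  have hD2 : ∀ x y : ℤ, vt x y ∈ (XA b h M bse o x1 a0 v).D ↔
    (y = v.2 ∧ v.1 ≤ x) ∨ ((y = 0 ∨ y = 1) ∧ x < x1) := fun x y => xp_XD U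
  have hxl : -(b.X * (2 * h) : ℤ) - 1 < x1 := by linarith
  generalize -(b.X * (2 * h) : ℤ) - 1 = xl at *
  refine ⟨?_, ?_, ?_, ?_, ?_, ?_, ?_⟩
  · -- world 1
    refine ⟨by linarith, by norm_num, ?_, ?_, ?_, ?_, ?_, ?_, ?_⟩
    · intro x y h1 h2 h3 h4 hm
      right
      have hx := hlo x y hm
      refine ⟨?_, rfl, ?_⟩
      · rw [hD1]; omega
      · rw [hp' x y hm (by linarith) h4 h2]
        unfold sg1
        rw [if_neg (by omega)]
    · intro x y h1 h2 h3 h4
      exact hin x y (by omega) (by omega) h1 (by omega)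
    · intro x _ _; rfl
    · intro x _ _; rfl
    · unfold ctp; rw [if_neg (by omega)]
    · unfold ctp; rw [if_neg (by omega)]
    · intro X h1 h2
      unfold ctp
      split_ifs with hc
      · intro Y _ _
        unfold sg1
        rw [if_neg (by omega), if_neg (by omega)]
        exact hc.2.2
      · have : sg1 p xl (X - 1) 0 = sg1 p xl X 0 := by
          unfold sg1
          by_cases e1 : X = xl
          · subst e1
            rw [if_pos (by omega), if_neg (by omega)]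
          · rw [if_neg (by omega), if_neg (by omega)]
            by_cases e2 : X = x1 + 1
            · subst e2
              rw [add_sub_cancel_right]
              exact hp2.symm
            · by_contra e3
              exact hc ⟨by omega, by omega, e3⟩
        exact ⟨this, this⟩
  · -- world 2
    refine ⟨by linarith, by norm_num, ?_, ?_, ?_, ?_, ?_, ?_, ?_⟩
    · intro x y h1 h2 h3 h4 hm
      have hx := hlo x y hm
      rw [hD2]
      unfold sg2
      rw [if_neg (show ¬ x < xl by omega), if_neg (show ¬ x < xl by omega)]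
      by_cases e : (y = 0 ∨ y = 1) ∧ x < x1
      · left
        refine ⟨Or.inr e, ?_⟩
        rcases e.1 with e1 | e1
        · rw [if_pos ⟨by omega, e.2⟩, if_neg (by omega)]
          cases p x <;> simp
        · rw [if_neg (by omega), if_pos ⟨e1, e.2⟩]
          cases p x <;> simp
      · right
        rw [if_neg (by omega), if_neg (by omega)]
        refine ⟨by omega, rfl, ?_⟩
        exact hp' x y hm (by linarith) h4 h2
    · intro x y h1 h2 h3 h4
      exact hin x y (by omega) (by omega) h1 (by omega)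
    · intro x _ _
      unfold sg2
      rw [if_neg (show ¬ ((0 : ℤ) - 1 = 1 ∧ x < x1) by omega),
        if_neg (show ¬ ((0 : ℤ) = 1 ∧ x < x1) by omega)]
    · intro x _ _
      unfold sg2
      rw [if_neg (show ¬ ((2 : ℤ) + 1 = 1 ∧ x < x1) by omega),
        if_neg (show ¬ ((2 : ℤ) = 1 ∧ x < x1) by omega)]
    · unfold ctp; rw [if_neg (by omega)]
    · unfold ctp; rw [if_neg (by omega)]
    · intro X h1 h2
      unfold ctp
      split_ifs with hc
      · intro Y _ _
        unfold sg2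
        rw [if_neg (show ¬ X - 1 < xl by omega), if_neg (show ¬ X < xl by omega)]
        by_cases e1 : Y = 1
        · by_cases e2 : X < x1
          · rw [if_pos ⟨e1, by omega⟩, if_pos ⟨e1, e2⟩]
            exact bool_two hc.2.2
          · exfalso
            have e3 : X = x1 := by omega
            subst e3
            exact hc.2.2 hp1
        · rw [if_neg (by omega), if_neg (by omega)]
          exact hc.2.2
      · have key : ∀ Y : ℤ, Y ≠ 1 → sg2 p xl x1 (X - 1) Y = sg2 p xl x1 X Y := by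
          intro Y hY
          unfold sg2
          by_cases e1 : X = xl
          · subst e1
            rw [if_pos (by omega), if_neg (by omega), if_neg (by omega)]
          · rw [if_neg (show ¬ X - 1 < xl by omega), if_neg (show ¬ X < xl by omega), if_neg (by omega),
              if_neg (by omega)]
            by_cases e2 : X = x1 + 1
            · subst e2
              rw [add_sub_cancel_right]
              exact hp2.symm
            · by_contra e3
              exact hc ⟨by omega, by omega, e3⟩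
        exact ⟨key 0 (by norm_num), key 2 (by norm_num)⟩
  · -- outside
    intro x y hK
    refine ⟨Iff.rfl, fun hm => ⟨?_, fun _ => Iff.rfl⟩⟩
    have hx := hlo x y hm
    rw [hD1, hD2]
    omega
  · intro x _ _
    unfold sg1 sg2
    rw [if_neg (show ¬ ((0 : ℤ) = 1 ∧ x < x1) by omega)]
  · intro x _ _
    unfold sg1 sg2
    rw [if_neg (show ¬ ((2 : ℤ) = 1 ∧ x < x1) by omega)]
  · intro Y _ _
    unfold sg1 sg2
    rw [if_pos (by omega), if_pos (by omega)]
  · intro Y _ _
    unfold sg1 sg2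
    rw [if_neg (by omega), if_neg (by omega), if_neg (by omega)]

/-- **The two deleted rows inside the solid plates do nothing.** -/
theorem xp_solid (hh : 2 ≤ h) {w : Finset (ℤ × ℤ)} (p : ℤ → Bool)
    (hp : ∀ x y, lt (x, y) ∈ LamT b (2 * h) M → -1 ≤ y → y ≤ 2 → x ≤ x1 + 1 →
      (lt (x, y) ∈ w ↔ p x = true))
    (hp1 : p (x1 - 1) = p x1) (hp2 : p (x1 + 1) = p x1) {c d : ℤ × ℤ}
    (hc : XFar b h M v c) (hd : XFar b h M v d) :
    (SG (LamT b (2 * h) M) (lt '' strD v) w).Reachable c d ↔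
      (SG (LamT b (2 * h) M) (XA b h M bse o x1 a0 v).D w).Reachable c d := by
  have P := xp_pair (bse := bse) (o := o) U hh p hp hp1 hp2
  obtain ⟨c1, c2⟩ := xp_far U hh (s := sg1 p (-(b.X * (2 * h) : ℤ) - 1))
    (xl := -(b.X * (2 * h) : ℤ) - 1) (xb := x1 + 1) hc
  obtain ⟨d1, d2⟩ := xp_far U hh (s := sg1 p (-(b.X * (2 * h) : ℤ) - 1))
    (xl := -(b.X * (2 * h) : ℤ) - 1) (xb := x1 + 1) hd
  exact P.reach (Im_far c1 c2) (Im_far d1 d2)

end pair

/-! ### The states of the world `XA` -/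

section states

variable (U : XPH δ σ b h x1 a0 a1 y1 v)
include U

/-- the plate of a tile near the slit -/
lemma xp_lpl (hh : 2 ≤ h) {x y : ℤ} (h1 : -1 ≤ y) (h2 : y ≤ 2) (h3 : -(b.X * (2 * h) : ℤ) ≤ x)
    (h4 : x < 0) : lt (x, y) ∈ b.B h ∧ lpl b (2 * h) a0 (lt (x, y)) = some (pin b (2 * h) x) := by
  obtain ⟨k1, -, k3⟩ := xp_Hn U hh
  have hX : (0 : ℤ) < b.X * (2 * h) := mul_pos (by exact_mod_cast X_pos U.ok) U.hn
  have k4 := k3 (pin b (2 * h) x)
  constructor
  · rw [mem_B U.hh, cx_lt, cy_lt, InQ_band U.ok U.hn (by linarith) (by linarith)]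
    exact ⟨lt_odd _, h3, by linarith⟩
  · rw [lpl_some U.hM U.hn, cx_lt, cy_lt]
    exact ⟨(pin_eq U.hM U.hn h4).1 rfl, by linarith, Or.inl (by linarith)⟩

/-- the columns next to the mark belong to the chunk -/
lemma xp_pin_lt {x : ℤ} (h1 : x1 - 1 ≤ x) (h2 : x ≤ x1 + 1) : pin b (2 * h) x < b.m := by
  have k1 := U.am
  have k2 := U.a0x
  have k3 := (xp_x1 U).2
  have hx : x < 0 := by linarith
  by_contra hc
  have h3 : (b.m : ℤ) ≤ pin b (2 * h) x := by exact_mod_cast not_lt.1 hc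
  have h4 := ((pin_eq U.hM U.hn hx).1 rfl).2
  have h5 : (b.m : ℤ) * b.M * (2 * h) ≤ pin b (2 * h) x * b.M * (2 * h) := by
    have : (b.m : ℤ) * b.M ≤ pin b (2 * h) x * b.M := mul_le_mul_of_nonneg_right h3 (by positivity)
    exact mul_le_mul_of_nonneg_right this U.hn.le
  linarith

omit U in
/-- an odd number of marks and one exit: the left wall has one colour -/
lemma colM_l0 (hM : M.card = 3) (r : ℤ) : (colM bse M (some r)).l 0 = bse := by
  classical
  have h1 : (M.filter fun c => c.1 = true).card + (M.filter fun c => c.1 = false).card = 3 := by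
    rw [← hM, ← card_filter_add_card_filter_not (s := M) (fun c => c.1 = true)]
    congr 2
    ext c
    simp
  have h2 : (M.filter fun c => c.1 = false ∧ 0 ≤ c.2) = M.filter fun c => c.1 = false := by
    ext c
    simp
  show (bse ^^ par (M.filter fun c => c.1 = true).card ^^ (some r).isSome ^^
    par (M.filter fun c => c.1 = false ∧ 0 ≤ c.2).card) = bse
  rw [h2]
  generalize (M.filter fun c => c.1 = true).card = a at *
  generalize (M.filter fun c => c.1 = false).card = c at *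
  have ha : a ≤ 3 := by omega
  have hc : c = 3 - a := by omega
  subst hc
  interval_cases a <;> cases bse <;> rfl

omit U in
lemma colM_u0 (r : ℤ) : (colM bse M (some r)).u 0 = bse := by
  classical
  show (bse ^^ par (M.filter fun c => c.1 = true ∧ c.2 < 0).card) = bse
  have : (M.filter fun c => c.1 = true ∧ c.2 < 0) = ∅ := by
    ext c
    simp
  rw [this]
  cases bse <;> rfl

/-- colour of the left wall near the slit -/
lemma xp_lcol (hh : 2 ≤ h) (hM : M.card = 3) {x y : ℤ} (h1 : -1 ≤ y) (h2 : y ≤ 2) (h3 : x < 0) :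
    lcol b (2 * h) (colM bse M (some v.2)) x y = bse := by
  have hX : (0 : ℤ) < b.X * (2 * h) := mul_pos (by exact_mod_cast X_pos U.ok) U.hn
  have h0 : (2 : ℤ) ≤ h := by exact_mod_cast hh
  unfold lcol
  rw [if_neg (by linarith)]
  have e : ∀ z : ℤ, 0 ≤ z → z ≤ 2 → min b.K (z / (2 * h) - b.H).toNat = 0 := by
    intro z hz hz2
    have : z / (2 * h : ℤ) = 0 := Int.ediv_eq_zero_of_lt hz (by linarith)
    rw [this]
    have : ((0 : ℤ) - b.H).toNat = 0 := by omega
    rw [this]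
    exact Nat.min_zero _
  split_ifs with hy
  · rw [e y hy h2, colM_u0]
  · have hy1 : -y - 1 = 0 := by omega
    rw [hy1, e 0 le_rfl (by norm_num), colM_l0 hM]

open Classical in
/-- colour of a column -/
noncomputable def xpp (b : JBox) (h : ℕ) (bse : Bool) (w : Finset (ℤ × ℤ)) (x : ℤ) : Bool :=
  if -(b.X * (2 * h) : ℤ) ≤ x then decide (lt (x, 0) ∈ w) else bse

/-- block constant labels: one state for a column near the slit -/
lemma xp_one (hh : 2 ≤ h) {ω : Finset (ℤ × ℤ)} (hω : ω ⊆ (XA b h M bse o x1 a0 v).E)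
    (hbc : ∀ e ∈ (XA b h M bse o x1 a0 v).E, ∀ e' ∈ (XA b h M bse o x1 a0 v).E,
      (XA b h M bse o x1 a0 v).b e = (XA b h M bse o x1 a0 v).b e' → (e ∈ ω ↔ e' ∈ ω))
    {x y : ℤ} (h1 : -1 ≤ y) (h2 : y ≤ 2) (h3 : -(b.X * (2 * h) : ℤ) ≤ x) (h4 : x < 0) :
    lt (x, y) ∈ (XA b h M bse o x1 a0 v).st ω ↔ lt (x, 0) ∈ (XA b h M bse o x1 a0 v).st ω := by
  classical
  obtain ⟨g1, g2⟩ := xp_lpl (a0 := a0) U hh h1 h2 h3 h4
  obtain ⟨g3, g4⟩ := xp_lpl (a0 := a0) U hh (y := 0) (by norm_num) (by norm_num) h3 h4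
  by_cases hi : pin b (2 * h) x < b.m
  · rw [st_PA U hω g1 ⟨_, hi, g2⟩, st_PA U hω g3 ⟨_, hi, g4⟩]
  · have hE : ∀ {e : ℤ × ℤ}, e ∈ b.B h → lpl b (2 * h) a0 e = some (pin b (2 * h) x) →
        e ∈ (XA b h M bse o x1 a0 v).E ∧ e ∉ (XA b h M bse o x1 a0 v).W := by
      intro e he hl
      have hno : ¬ ∃ i < b.m, lpl b (2 * h) a0 e = some i := by
        rintro ⟨i, hi1, hi2⟩
        rw [hl, Option.some.injEq] at hi2
        omega
      constructor
      · exact mem_filter.2 ⟨he, hno⟩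
      · intro hW
        have hW' : e ∈ Wl b (2 * h) (colM bse M (some v.2)) ∪ _ := hW
        rw [mem_union] at hW'
        rcases hW' with g | g
        · exact Wl_notMem g U.hh he
        · exact hno (mem_filter.1 g).2.1
    obtain ⟨e1, e2⟩ := hE g1 g2
    obtain ⟨e3, e4⟩ := hE g3 g4
    have hb : (XA b h M bse o x1 a0 v).b (lt (x, y)) = (XA b h M bse o x1 a0 v).b (lt (x, 0)) := by
      show blk (lpl b (2 * h) a0) _ = blk (lpl b (2 * h) a0) _
      rw [blk_some g2, blk_some g4]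
    rw [mem_Astate, mem_Astate, hbc _ e1 _ e3 hb]
    tauto

/-- **The hypotheses of `xp_solid` for the states of the world `XA`.** -/
theorem xp_col (hh : 2 ≤ h) (hM : M.card = 3) {ω : Finset (ℤ × ℤ)}
    (hω : ω ⊆ (XA b h M bse o x1 a0 v).E)
    (hbc : ∀ e ∈ (XA b h M bse o x1 a0 v).E, ∀ e' ∈ (XA b h M bse o x1 a0 v).E,
      (XA b h M bse o x1 a0 v).b e = (XA b h M bse o x1 a0 v).b e' → (e ∈ ω ↔ e' ∈ ω)) :
    (∀ x y, lt (x, y) ∈ LamT b (2 * h) M → -1 ≤ y → y ≤ 2 → x ≤ x1 + 1 →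
      (lt (x, y) ∈ (XA b h M bse o x1 a0 v).st ω ↔
        xpp b h bse ((XA b h M bse o x1 a0 v).st ω) x = true)) ∧
    (∀ x, x1 - 1 ≤ x → x ≤ x1 + 1 → xpp b h bse ((XA b h M bse o x1 a0 v).st ω) x = o) := by
  classical
  obtain ⟨k1, k2, -⟩ := xp_Hn U hh
  obtain ⟨k3, k4⟩ := xp_x1 U
  have hX : (0 : ℤ) < b.X * (2 * h) := mul_pos (by exact_mod_cast X_pos U.ok) U.hn
  constructor
  · intro x y hm h1 h2 h3
    have hlo := xp_col_lo U hm
    have hx0 : x < 0 := by linarith
    unfold xpp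
    split_ifs with hx
    · rw [xp_one U hh hω hbc h1 h2 hx hx0]
      simp
    · have hQ : ¬ InQ b (2 * h) x y := by
        rw [InQ_band U.ok U.hn (by linarith) (by linarith)]
        exact fun g => hx g.1
      rw [st_lay1 U hω hQ ⟨1, 0, by norm_num, by norm_num, by
        rw [add_zero, InQ_band U.ok U.hn (by linarith) (by linarith)]
        constructor <;> linarith⟩, xp_lcol U hh hM h1 h2 hx0]
  · intro x h1 h2
    have hx : -(b.X * (2 * h) : ℤ) ≤ x := by linarith
    have hx0 : x < 0 := by linarith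
    unfold xpp
    rw [if_pos hx]
    obtain ⟨g3, g4⟩ := xp_lpl (a0 := a0) U hh (y := 0) (by norm_num) (by norm_num) hx hx0
    have := st_PA U hω g3 ⟨_, xp_pin_lt U h1 h2, g4⟩
    rw [Bool.eq_iff_iff, decide_eq_true_iff]
    exact this

/-- **The two deleted rows do nothing**, block constant labels. -/
theorem xp_solid_st (hh : 2 ≤ h) (hM : M.card = 3) {ω : Finset (ℤ × ℤ)}
    (hω : ω ⊆ (XA b h M bse o x1 a0 v).E)
    (hbc : ∀ e ∈ (XA b h M bse o x1 a0 v).E, ∀ e' ∈ (XA b h M bse o x1 a0 v).E,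
      (XA b h M bse o x1 a0 v).b e = (XA b h M bse o x1 a0 v).b e' → (e ∈ ω ↔ e' ∈ ω))
    {c d : ℤ × ℤ} (hc : XFar b h M v c) (hd : XFar b h M v d) :
    (SG (LamT b (2 * h) M) (lt '' strD v) ((XA b h M bse o x1 a0 v).st ω)).Reachable c d ↔
      ((XA b h M bse o x1 a0 v).G ω).Reachable c d := by
  obtain ⟨g1, g2⟩ := xp_col U hh hM hω hbc
  refine xp_solid U hh _ g1 ?_ ?_ hc hd
  · rw [g2 (x1 - 1) (by linarith) (by linarith), g2 x1 (by linarith) (by linarith)]
  · rw [g2 (x1 + 1) (by linarith) (by linarith), g2 x1 (by linarith) (by linarith)]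

/-- **The two deleted rows do nothing**, labels from the coins. -/
theorem xp_solid_up (hh : 2 ≤ h) (hM : M.card = 3) (η : Finset ((ℤ × ℤ) ⊕ ℕ))
    {c d : ℤ × ℤ} (hc : XFar b h M v c) (hd : XFar b h M v d) :
    (SG (LamT b (2 * h) M) (lt '' strD v) ((XA b h M bse o x1 a0 v).st
      (up (XA b h M bse o x1 a0 v).E (XA b h M bse o x1 a0 v).b η))).Reachable c d ↔
      ((XA b h M bse o x1 a0 v).G
        (up (XA b h M bse o x1 a0 v).E (XA b h M bse o x1 a0 v).b η)).Reachable c d := by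
  refine xp_solid_st U hh hM (up_subset _ _ _) ?_ hc hd
  intro e he e' he' hb
  rw [mem_up, mem_up, hb]
  tauto

end states

end Pool.Agent.H86.W
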