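import Mathlib
import Pool.Agent.H35.W.Couple
import Pool.Agent.H82.W.S3

set_option autoImplicit false
set_option linter.unusedSectionVars false
open Finset

/-! # Coupling of two coin models, agreement for block constant labels of the first world only

35's `Coup.le` (`H35/W/Couple.lean`) for a relabelling with flips (`s1`, `s2`, image, `F` a union of blocks,
blocks correspond), where the events of the two worlds must agree only for BLOCK CONSTANT labels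
`ω1 = up E1 b1 η` of the first world (and arbitrary labels `ω2 ⊆ E2` of the second world with the corresponding
outside). `LMove.le_bc` : the same for 82's `LMove`. -/

namespace Pool.Agent.H86.W

open Pool.Agent.H58.W Pool.Agent.H35.W
open Pool.Agent.H75.Perc (Pr Pr_congr)

variable {α α' β β' : Type*} [DecidableEq α] [DecidableEq α'] [DecidableEq β] [DecidableEq β']

lemma PB_congr' {E : Finset α} {b : α → β} {A B : Finset α → Prop}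
    (h : ∀ η, A (up E b η) ↔ B (up E b η)) : PB E b A = PB E b B :=
  Pr_congr fun _ _ => h _

lemma PB_mono' {E : Finset α} {b : α → β} {A B : Finset α → Prop}
    (h : ∀ η, A (up E b η) → B (up E b η)) : PB E b A ≤ PB E b B :=
  Pool.Agent.H75.Perc.Pr_mono fun _ _ => h _

/-- Data of a relabelling. -/
structure RelB (E1 : Finset α) (b1 : α → β) (E2 : Finset α') (b2 : α' → β') (O1 : Finset α)
    (O2 : Finset α') (φ : α → α') (F : Finset α) : Prop where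
  s1 : O1 ⊆ E1
  s2 : O2 ⊆ E2
  im : O1.image φ = O2
  fO : F ⊆ O1
  fb : ∀ l ∈ F, ∀ l' ∈ O1, b1 l = b1 l' → l' ∈ F
  bb : ∀ l ∈ O1, ∀ l' ∈ O1, b1 l = b1 l' ↔ b2 (φ l) = b2 (φ l')

variable {E1 : Finset α} {b1 : α → β} {E2 : Finset α'} {b2 : α' → β'} {O1 : Finset α}
  {O2 : Finset α'} {φ : α → α'} {F : Finset α}

theorem RelB.coup (R : RelB E1 b1 E2 b2 O1 O2 φ F) (Blk : Finset α' → Prop) :
    Coup E1 b1 E2 b2 O1 O2 (Tm φ F) Blk := Coup.mk' R.s1 R.s2 R.im R.fO R.fb R.bb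

/-- **Block constant preimage** of the outside of block constant labels. -/
theorem RelB.surj (R : RelB E1 b1 E2 b2 O1 O2 φ F) (ξ : Finset β') :
    ∃ η, Tm φ F (up E1 b1 η ∩ O1) = up E2 b2 ξ ∩ O2 := by
  classical
  set ζ : Finset α := O1.filter fun l => b2 (φ l) ∈ ξ with hζ
  set η0 : Finset α := symmDiff ζ F with hη0
  have h0 : ∀ l, l ∈ η0 → l ∈ O1 := by
    intro l hl
    rw [hη0, mem_symmDiff] at hl
    rcases hl with hl | hl
    · exact (mem_filter.1 hl.1).1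
    · exact R.fO hl.1
  have hc : ∀ l ∈ O1, ∀ l' ∈ O1, b1 l = b1 l' → l ∈ η0 → l' ∈ η0 := by
    intro l hl l' hl' hb hm
    have e1 : l ∈ ζ ↔ l' ∈ ζ := by
      rw [hζ, mem_filter, mem_filter, (R.bb l hl l' hl').1 hb]
      tauto
    have e2 : l ∈ F ↔ l' ∈ F := ⟨fun h => R.fb l h l' hl' hb, fun h => R.fb l' h l hl hb.symm⟩
    rw [hη0, mem_symmDiff] at hm ⊢
    tauto
  refine ⟨η0.image b1, ?_⟩
  have e : up E1 b1 (η0.image b1) ∩ O1 = η0 := by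
    ext l
    rw [mem_inter, mem_up, mem_image]
    constructor
    · rintro ⟨⟨-, l', h1, h2⟩, h3⟩
      exact hc l' (h0 l' h1) l h3 h2 h1
    · intro h
      exact ⟨⟨R.s1 (h0 l h), l, h, rfl⟩, h0 l h⟩
  rw [e]
  unfold Tm
  rw [hη0, symmDiff_symmDiff_cancel_right]
  ext l
  rw [mem_image, mem_inter, mem_up]
  constructor
  · rintro ⟨l', h1, rfl⟩
    rw [hζ, mem_filter] at h1
    have h2 : φ l' ∈ O2 := R.im ▸ mem_image_of_mem φ h1.1
    exact ⟨⟨R.s2 h2, h1.2⟩, h2⟩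
  · rintro ⟨⟨-, h1⟩, h2⟩
    rw [← R.im, mem_image] at h2
    obtain ⟨l', h3, rfl⟩ := h2
    exact ⟨l', mem_filter.2 ⟨h3, h1⟩, rfl⟩

/-- `A` and `A'` agree when the labels of the first world are block constant, the outsides correspond and are
blocked. -/
def AgreeC (E1 : Finset α) (b1 : α → β) (E2 : Finset α') (O1 : Finset α) (O2 : Finset α')
    (T : Finset α → Finset α') (Blk : Finset α' → Prop) (A : Finset α → Prop)
    (A' : Finset α' → Prop) : Prop :=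
  ∀ η, ∀ ω2 ⊆ E2, ω2 ∩ O2 = T (up E1 b1 η ∩ O1) → Blk (ω2 ∩ O2) → (A (up E1 b1 η) ↔ A' ω2)

variable {Blk : Finset α' → Prop}

/-- The blocked parts have the same probability. -/
theorem RelB.eq (R : RelB E1 b1 E2 b2 O1 O2 φ F) {A : Finset α → Prop} {A' : Finset α' → Prop}
    (h : AgreeC E1 b1 E2 O1 O2 (Tm φ F) Blk A A') :
    PB E1 b1 (fun ω => A ω ∧ Blk (Tm φ F (ω ∩ O1))) = PB E2 b2 (fun ω => A' ω ∧ Blk (ω ∩ O2)) := by
  have C := R.coup Blk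
  have hT : ∀ η ⊆ O1, Tm φ F η ∩ O2 = Tm φ F η := fun η hη => inter_eq_left.2 (C.sub η hη)
  -- world 1
  have e1 : PB E1 b1 (fun ω => A ω ∧ Blk (Tm φ F (ω ∩ O1))) =
      PB E1 b1 (fun ω => (fun η => A' (Tm φ F η) ∧ Blk (Tm φ F η)) (ω ∩ O1)) := by
    apply PB_congr'
    intro η
    beta_reduce
    have hs : up E1 b1 η ∩ O1 ⊆ O1 := inter_subset_right
    constructor
    · rintro ⟨h1, h2⟩
      refine ⟨?_, h2⟩
      apply (h η (Tm φ F (up E1 b1 η ∩ O1)) ((C.sub _ hs).trans C.s2) (hT _ hs) ?_).1 h1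
      rw [hT _ hs]; exact h2
    · rintro ⟨h1, h2⟩
      refine ⟨?_, h2⟩
      apply (h η (Tm φ F (up E1 b1 η ∩ O1)) ((C.sub _ hs).trans C.s2) (hT _ hs) ?_).2 h1
      rw [hT _ hs]; exact h2
  -- world 2
  have e2 : PB E2 b2 (fun ω => A' ω ∧ Blk (ω ∩ O2)) =
      PB E2 b2 (fun ω => (fun ξ => A' ξ ∧ Blk ξ) (ω ∩ O2)) := by
    apply PB_congr'
    intro ξ
    beta_reduce
    have hs : up E2 b2 ξ ∩ O2 ⊆ O2 := inter_subset_right
    obtain ⟨η, hTη⟩ := R.surj ξ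
    have key : Blk (up E2 b2 ξ ∩ O2) → (A' (up E2 b2 ξ) ↔ A' (up E2 b2 ξ ∩ O2)) := by
      intro hB
      have k1 := h η (up E2 b2 ξ) (up_subset _ _ _) hTη.symm hB
      have k2 := h η (up E2 b2 ξ ∩ O2) (hs.trans C.s2)
        ((inter_eq_left.2 hs).trans hTη.symm) (by rw [inter_eq_left.2 hs]; exact hB)
      exact k1.symm.trans k2
    constructor
    · rintro ⟨h1, h2⟩
      exact ⟨(key h2).1 h1, h2⟩
    · rintro ⟨h1, h2⟩
      exact ⟨(key h2).2 h1, h2⟩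
  rw [e1, e2, PB_restrict C.s1 b1 (fun η => A' (Tm φ F η) ∧ Blk (Tm φ F η)),
    PB_restrict C.s2 b2 (fun ξ => A' ξ ∧ Blk ξ), C.meas]

/-- The difference of the probabilities lives on the unblocked configurations. -/
theorem RelB.diff (R : RelB E1 b1 E2 b2 O1 O2 φ F) {A : Finset α → Prop} {A' : Finset α' → Prop}
    (h : AgreeC E1 b1 E2 O1 O2 (Tm φ F) Blk A A') :
    PB E1 b1 A - PB E2 b2 A' = PB E1 b1 (fun ω => A ω ∧ ¬ Blk (Tm φ F (ω ∩ O1))) -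
      PB E2 b2 (fun ω => A' ω ∧ ¬ Blk (ω ∩ O2)) := by
  have h1 := PB_and_add E1 b1 A (fun ω => Blk (Tm φ F (ω ∩ O1)))
  have h2 := PB_and_add E2 b2 A' (fun ω => Blk (ω ∩ O2))
  have h3 := R.eq h
  linarith

/-- **The difference of two probabilities.** -/
theorem RelB.le (R : RelB E1 b1 E2 b2 O1 O2 φ F) {A : Finset α → Prop} {A' : Finset α' → Prop}
    (h : AgreeC E1 b1 E2 O1 O2 (Tm φ F) Blk A A') :
    |PB E1 b1 A - PB E2 b2 A'| ≤ PB E2 b2 (fun ω => ¬ Blk (ω ∩ O2)) := by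
  have C := R.coup Blk
  rw [R.diff h]
  have a1 := PB_nonneg E1 b1 (fun ω => A ω ∧ ¬ Blk (Tm φ F (ω ∩ O1)))
  have a2 := PB_nonneg E2 b2 (fun ω => A' ω ∧ ¬ Blk (ω ∩ O2))
  have h2 : PB E1 b1 (fun ω => A ω ∧ ¬ Blk (Tm φ F (ω ∩ O1))) ≤
      PB E1 b1 (fun ω => ¬ Blk (Tm φ F (ω ∩ O1))) := PB_mono fun ω _ hA => hA.2
  have h3 : PB E2 b2 (fun ω => A' ω ∧ ¬ Blk (ω ∩ O2)) ≤
      PB E2 b2 (fun ω => ¬ Blk (ω ∩ O2)) := PB_mono fun ω _ hA => hA.2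
  rw [C.not_eq] at h2
  rw [abs_le]
  constructor <;> linarith

/-- sum of the probabilities of disjoint events, block constant labels -/
theorem PB_sum_le' {ι : Type*} (s : Finset ι) (E : Finset α) (b : α → β) {A : ι → Finset α → Prop}
    {B : Finset α → Prop}
    (hd : ∀ i ∈ s, ∀ j ∈ s, i ≠ j → ∀ η, ¬ (A i (up E b η) ∧ A j (up E b η)))
    (hB : ∀ i ∈ s, ∀ η, A i (up E b η) → B (up E b η)) : ∑ i ∈ s, PB E b (A i) ≤ PB E b B := by
  have h := Pool.Agent.H35.W.PB_sum_le s E b (A := fun i ω => A i ω ∧ ∃ η, ω = up E b η) (B := B)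
    (by
      rintro i hi j hj hij ω - ⟨⟨h1, η, rfl⟩, h2, -⟩
      exact hd i hi j hj hij η ⟨h1, h2⟩)
    (by
      rintro i hi ω - ⟨h1, η, rfl⟩
      exact hB i hi η h1)
  refine le_trans (le_of_eq (sum_congr rfl fun i _ => ?_)) h
  exact PB_congr' fun η => ⟨fun h1 => ⟨h1, η, rfl⟩, fun h1 => h1.1⟩

/-- **The coupling bound** (35's `Coup.le`), agreement for block constant labels of the first world. -/
theorem RelB.sum_le (R : RelB E1 b1 E2 b2 O1 O2 φ F) {ι : Type*} (s : Finset ι) (v : ι → ℂ) {M : ℝ}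
    (hv : ∀ i ∈ s, ‖v i‖ ≤ M) (hM : 0 ≤ M) {A : ι → Finset α → Prop} {A' : ι → Finset α' → Prop}
    (h : ∀ i ∈ s, AgreeC E1 b1 E2 O1 O2 (Tm φ F) Blk (A i) (A' i))
    (hd : ∀ i ∈ s, ∀ j ∈ s, i ≠ j → ∀ η, ¬ (A i (up E1 b1 η) ∧ A j (up E1 b1 η)))
    (hd' : ∀ i ∈ s, ∀ j ∈ s, i ≠ j → ∀ ξ, ¬ (A' i (up E2 b2 ξ) ∧ A' j (up E2 b2 ξ))) :
    ‖∑ i ∈ s, v i * (PB E1 b1 (A i) : ℂ) - ∑ i ∈ s, v i * (PB E2 b2 (A' i) : ℂ)‖ ≤
      2 * M * PB E2 b2 (fun ω => ¬ Blk (ω ∩ O2)) := by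
  have C := R.coup Blk
  rw [← sum_sub_distrib]
  have h1 : ∀ i ∈ s, ‖v i * (PB E1 b1 (A i) : ℂ) - v i * (PB E2 b2 (A' i) : ℂ)‖ ≤
      M * (PB E1 b1 (fun ω => A i ω ∧ ¬ Blk (Tm φ F (ω ∩ O1))) +
        PB E2 b2 (fun ω => A' i ω ∧ ¬ Blk (ω ∩ O2))) := by
    intro i hi
    rw [← mul_sub, norm_mul, ← Complex.ofReal_sub, Complex.norm_real, Real.norm_eq_abs, R.diff (h i hi)]
    apply mul_le_mul (hv i hi) _ (abs_nonneg _) hM
    have a1 := PB_nonneg E1 b1 (fun ω => A i ω ∧ ¬ Blk (Tm φ F (ω ∩ O1)))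
    have a2 := PB_nonneg E2 b2 (fun ω => A' i ω ∧ ¬ Blk (ω ∩ O2))
    rw [abs_le]
    constructor <;> linarith
  have h2 : ∑ i ∈ s, PB E1 b1 (fun ω => A i ω ∧ ¬ Blk (Tm φ F (ω ∩ O1))) ≤
      PB E1 b1 (fun ω => ¬ Blk (Tm φ F (ω ∩ O1))) := by
    apply PB_sum_le'
    · intro i hi j hj hij η hA
      exact hd i hi j hj hij η ⟨hA.1.1, hA.2.1⟩
    · exact fun i _ η hA => hA.2
  have h3 : ∑ i ∈ s, PB E2 b2 (fun ω => A' i ω ∧ ¬ Blk (ω ∩ O2)) ≤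
      PB E2 b2 (fun ω => ¬ Blk (ω ∩ O2)) := by
    apply PB_sum_le'
    · intro i hi j hj hij ω hA
      exact hd' i hi j hj hij ω ⟨hA.1.1, hA.2.1⟩
    · exact fun i _ ω hA => hA.2
  rw [C.not_eq] at h2
  calc _ ≤ ∑ i ∈ s, ‖v i * (PB E1 b1 (A i) : ℂ) - v i * (PB E2 b2 (A' i) : ℂ)‖ := norm_sum_le _ _
    _ ≤ ∑ i ∈ s, M * (PB E1 b1 (fun ω => A i ω ∧ ¬ Blk (Tm φ F (ω ∩ O1))) +
        PB E2 b2 (fun ω => A' i ω ∧ ¬ Blk (ω ∩ O2))) := sum_le_sum h1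
    _ = M * (∑ i ∈ s, PB E1 b1 (fun ω => A i ω ∧ ¬ Blk (Tm φ F (ω ∩ O1))) +
        ∑ i ∈ s, PB E2 b2 (fun ω => A' i ω ∧ ¬ Blk (ω ∩ O2))) := by
        rw [← mul_sum, sum_add_distrib]
    _ ≤ 2 * M * PB E2 b2 (fun ω => ¬ Blk (ω ∩ O2)) := by
        have : M * (∑ i ∈ s, PB E1 b1 (fun ω => A i ω ∧ ¬ Blk (Tm φ F (ω ∩ O1))) +
            ∑ i ∈ s, PB E2 b2 (fun ω => A' i ω ∧ ¬ Blk (ω ∩ O2))) ≤
            M * (PB E2 b2 (fun ω => ¬ Blk (ω ∩ O2)) + PB E2 b2 (fun ω => ¬ Blk (ω ∩ O2))) :=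
          mul_le_mul_of_nonneg_left (add_le_add h2 h3) hM
        linarith

end Pool.Agent.H86.W

namespace Pool.Agent.H82.W

open Pool.Agent.H58.W Pool.Agent.H35.W Pool.Agent.H86.W

variable {β γ : Type*} [DecidableEq β] [DecidableEq γ] {A : WD β} {B : WD γ} {φ : ℤ × ℤ → ℤ × ℤ}
  {S : Set (ℤ × ℤ)} {O1 O2 : Finset (ℤ × ℤ)} {Blk : Finset (ℤ × ℤ) → Prop}

theorem LMove.relB (L : LMove A B φ S O1 O2) : RelB A.E A.b B.E B.b O1 O2 φ (fl A B φ S O1) :=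
  ⟨L.s1, L.s2, L.im, fl_subset, fun l hl l' hl' h => L.par l (fl_subset hl) l' hl' h hl, L.blk⟩

/-- **Two probabilities** which agree for corresponding blocked labels, block constant in the first world. -/
theorem LMove.le_bc (L : LMove A B φ S O1 O2) {P P' : Finset (ℤ × ℤ) → Prop}
    (h : ∀ η ω2, Cor A B φ S O1 O2 (up A.E A.b η) ω2 → Blk (ω2 ∩ O2) → (P (up A.E A.b η) ↔ P' ω2)) :
    |PB A.E A.b P - PB B.E B.b P'| ≤ PB B.E B.b (fun ω => ¬ Blk (ω ∩ O2)) :=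
  L.relB.le fun η ω2 h1 h2 h3 => h η ω2 ⟨up_subset _ _ _, h1, h2⟩ h3

end Pool.Agent.H82.W
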