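import Mathlib
import Pool.Agent.Q1.M4.Poly

set_option autoImplicit false
open Finset

/-! # Labels of the sides of a diamond polyomino

`Q` is a good polyomino, `κ` maps the cells of the tile frame to the cells of `Q`: column and row of the
centre of the diamond. `D` = diamonds with `κ` in `Q`. `lb` maps the sides of `D` to the sides of `Q`;
a step of the boundary walk of `D` is mapped to a step of the boundary walk of `Q` or to nothing; if it
is mapped to a step at a flat vertex of `Q`, it is a convex turn. -/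

namespace Pool.Agent.H86.W

open Pool.Agent.H75.Perc (dir dir_cases)
open Pool.Agent.Q1.M4 (Cell Good IsSide nextSide)

/-! ### Directions -/

lemma dir_add_one (k : ℤ) : dir (k + 1) = -dir (k - 1) := by
  rcases dir_cases (k + 1) with ⟨h, e⟩ | ⟨h, e⟩ | ⟨h, e⟩ | ⟨h, e⟩ <;>
  rcases dir_cases (k - 1) with ⟨h', e'⟩ | ⟨h', e'⟩ | ⟨h', e'⟩ | ⟨h', e'⟩ <;>
  first | (exfalso; omega) | (rw [e, e']; rfl)

lemma dir_ne_zero (k : ℤ) : dir k ≠ 0 := by
  rcases dir_cases k with ⟨h, e⟩ | ⟨h, e⟩ | ⟨h, e⟩ | ⟨h, e⟩ <;> rw [e] <;> decide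

lemma dir_ne (k : ℤ) : dir k ≠ dir (k - 1) := by
  rcases dir_cases k with ⟨h, e⟩ | ⟨h, e⟩ | ⟨h, e⟩ | ⟨h, e⟩ <;>
  rcases dir_cases (k - 1) with ⟨h', e'⟩ | ⟨h', e'⟩ | ⟨h', e'⟩ | ⟨h', e'⟩ <;>
  first | (exfalso; omega) | (rw [e, e']; decide)

/-- no two diagonal cells at a vertex, direction free form -/
lemma diag_free {Q : Finset Cell} (h1 : ∀ c : Cell, c ∈ Q → c + (1, 1) ∈ Q → c + (1, 0) ∈ Q ∨ c + (0, 1) ∈ Q)
    (h2 : ∀ c : Cell, c + (1, 0) ∈ Q → c + (0, 1) ∈ Q → c ∈ Q ∨ c + (1, 1) ∈ Q) {c : Cell} {k : ℤ}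
    (hc : c ∈ Q) (hd : c + dir (k - 1) + dir k ∈ Q) : c + dir (k - 1) ∈ Q ∨ c + dir k ∈ Q := by
  obtain ⟨a, b⟩ := c
  rcases dir_cases k with ⟨h, e⟩ | ⟨h, e⟩ | ⟨h, e⟩ | ⟨h, e⟩ <;>
  rcases dir_cases (k - 1) with ⟨h', e'⟩ | ⟨h', e'⟩ | ⟨h', e'⟩ | ⟨h', e'⟩ <;>
  first | (exfalso; omega) | (rw [e, e'] at hd ⊢)
  · -- dir k = (1,0), dir (k-1) = (0,-1)
    have := h2 (a, b - 1) (by simpa [sub_eq_add_neg] using hd) (by simpa using hc)
    simpa [sub_eq_add_neg] using this
  · -- dir k = (0,1), dir (k-1) = (1,0)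
    have := h1 (a, b) hc (by simpa using hd)
    simpa using this
  · -- dir k = (-1,0), dir (k-1) = (0,1)
    have := h2 (a - 1, b) (by simpa using hc) (by simpa [sub_eq_add_neg] using hd)
    simpa [sub_eq_add_neg, or_comm] using this
  · -- dir k = (0,-1), dir (k-1) = (-1,0)
    have := h1 (a - 1, b - 1) (by simpa [sub_eq_add_neg] using hd) (by simpa using hc)
    simpa [sub_eq_add_neg, or_comm] using this

/-! ### The label -/

/-- side of `Q` for a side of the diamond polyomino -/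
def lb (Q : Finset Cell) (κ : Cell → Cell) (s : Cell × ℤ) : Cell × ℤ :=
  if κ (s.1 + dir (s.2 - 1)) = κ s.1 + dir (s.2 - 1) then (κ s.1, s.2)
  else if κ (s.1 + dir (s.2 - 1)) = κ s.1 + dir s.2 then (κ s.1, s.2 + 1)
  else if κ s.1 + dir s.2 ∈ Q then (κ s.1 + dir s.2, s.2)
  else if κ s.1 + dir (s.2 - 1) ∈ Q then (κ s.1 + dir (s.2 - 1), s.2 + 1)
  else (κ s.1, s.2 + 1)

variable {Q D : Finset Cell} {κ : Cell → Cell} {w : Cell} {k : ℤ}

lemma lb_A (h : κ (w + dir (k - 1)) = κ w + dir (k - 1)) : lb Q κ (w, k) = (κ w, k) := by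
  unfold lb
  rw [if_pos h]

lemma lb_B (h : κ (w + dir (k - 1)) = κ w + dir k) : lb Q κ (w, k) = (κ w, k + 1) := by
  unfold lb
  simp only
  rw [if_neg, if_pos h]
  rw [h]
  intro h'
  exact dir_ne k (add_left_cancel h')

lemma lb_AB (h : κ (w + dir (k - 1)) = κ w + dir (k - 1) + dir k) : lb Q κ (w, k) =
    if κ w + dir k ∈ Q then (κ w + dir k, k)
    else if κ w + dir (k - 1) ∈ Q then (κ w + dir (k - 1), k + 1) else (κ w, k + 1) := by
  unfold lb
  simp only
  rw [if_neg, if_neg]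
  · rw [h, add_assoc]
    intro h'
    have := add_left_cancel h'
    exact dir_ne_zero (k - 1) (by simpa using this)
  · rw [h]
    intro h'
    exact dir_ne_zero k (by simpa using h')

/-- local description of `κ` near a side -/
structure Loc (κ : Cell → Cell) (w : Cell) (k : ℤ) (α1 α2 β1 β2 : ℤ) : Prop where
  ha : (α1 = 0 ∧ α2 = 0) ∨ (α1 = 0 ∧ α2 = 1) ∨ (α1 = 1 ∧ α2 = 0)
  hb : (β1 = 0 ∧ β2 = 0) ∨ (β1 = 0 ∧ β2 = 1) ∨ (β1 = 1 ∧ β2 = 0)
  out : κ (w + dir (k - 1)) = κ w + α2 • dir (k - 1) + β1 • dir k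
  str : κ (w + dir k) = κ w - α1 • dir (k - 1) + β1 • dir k
  rgt : κ (w + dir k + dir (k - 1)) = κ w + (β1 + β2) • dir k

theorem lb_core (h1 : ∀ c : Cell, c ∈ Q → c + (1, 1) ∈ Q → c + (1, 0) ∈ Q ∨ c + (0, 1) ∈ Q)
    (h2 : ∀ c : Cell, c + (1, 0) ∈ Q → c + (0, 1) ∈ Q → c ∈ Q ∨ c + (1, 1) ∈ Q)
    (hD : ∀ c, c ∈ D ↔ κ c ∈ Q) {α1 α2 β1 β2 : ℤ} (hL : Loc κ w k α1 α2 β1 β2)
    (hs : IsSide D (w, k)) :
    IsSide Q (lb Q κ (w, k)) ∧ (lb Q κ (nextSide D (w, k)) = lb Q κ (w, k) ∨
      (lb Q κ (nextSide D (w, k)) = nextSide Q (lb Q κ (w, k)) ∧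
        ((nextSide Q (lb Q κ (w, k))).2 = (lb Q κ (w, k)).2 → nextSide D (w, k) = (w, k + 1)))) := by
  obtain ⟨hin, hout⟩ := hs
  simp only at hin hout
  rw [hD] at hin hout
  have hdg := fun {c : Cell} {k : ℤ} => diag_free (c := c) (k := k) h1 h2
  have eA : dir (k + 1) = -dir (k - 1) := dir_add_one k
  have eB : dir (k - 1 - 1) = -dir k := by
    have := dir_add_one (k - 1)
    rw [sub_add_cancel] at this
    rw [this, neg_neg]
  obtain ⟨c, hc⟩ : ∃ c, κ w = c := ⟨_, rfl⟩
  obtain ⟨A, hA⟩ : ∃ A, dir (k - 1) = A := ⟨_, rfl⟩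
  obtain ⟨B, hB⟩ : ∃ B, dir k = B := ⟨_, rfl⟩
  -- the next side
  have nx : nextSide D (w, k) = if κ (w + B + A) ∈ Q then (w + B + A, k - 1)
      else if κ (w + B) ∈ Q then (w + B, k) else (w, k + 1) := by
    unfold nextSide
    simp only [hA, hB]
    split_ifs <;> simp only [hD] at * <;> first | rfl | contradiction
  rcases hL.ha with ⟨a1, a2⟩ | ⟨a1, a2⟩ | ⟨a1, a2⟩ <;>
  rcases hL.hb with ⟨b1, b2⟩ | ⟨b1, b2⟩ | ⟨b1, b2⟩
  all_goals
    have ho := hL.out
    have ht := hL.str
    have hr := hL.rgt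
    rw [a2, b1, hA, hB, hc] at ho
    rw [a1, b1, hA, hB, hc] at ht
    rw [b1, b2, hA, hB, hc] at hr
    simp only [zero_smul, one_smul, add_zero, sub_zero, zero_add] at ho ht hr
    rw [hA, ho] at hout
    rw [hc] at hin
    rw [nx]
  · exact absurd hin hout
  · exact absurd hin hout
  · -- III
    have e0 : lb Q κ (w, k) = (c, k + 1) := by rw [← hc]; exact lb_B (by rw [hA, hB, hc]; exact ho)
    rw [e0, if_neg (by rw [hr]; exact hout), if_neg (by rw [ht]; exact hout)]
    refine ⟨⟨hin, by simpa [hB] using hout⟩, Or.inl ?_⟩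
    rw [← hc]
    exact lb_A (by rw [add_sub_cancel_right, hB, hc]; exact ht)
  · -- I
    have e0 : lb Q κ (w, k) = (c, k) := by rw [← hc]; exact lb_A (by rw [hA, hc]; exact ho)
    rw [e0, if_pos (by rw [hr]; exact hin)]
    refine ⟨⟨hin, by simpa [hA] using hout⟩, Or.inl ?_⟩
    have := lb_B (Q := Q) (κ := κ) (w := w + B + A) (k := k - 1) (by
      rw [eB, hA, hB, hr, show w + B + A + -B = w + A by abel]; exact ho)
    rw [this, hr, sub_add_cancel]
  · -- II
    have e0 : lb Q κ (w, k) = (c, k) := by rw [← hc]; exact lb_A (by rw [hA, hc]; exact ho)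
    rw [e0]
    refine ⟨⟨hin, by simpa [hA] using hout⟩, ?_⟩
    by_cases g : c + B ∈ Q
    · rw [if_pos (by rw [hr]; exact g)]
      have h3 := lb_AB (Q := Q) (κ := κ) (w := w + B + A) (k := k - 1) (by
        rw [eB, hA, hB, hr, show w + B + A + -B = w + A by abel, ho]; abel)
      rw [hA, hr, eB, hB, show c + B + -B = c by abel, if_pos hin, sub_add_cancel] at h3
      by_cases g2 : c + B + A ∈ Q
      · rw [if_pos g2] at h3
        right
        have h4 : nextSide Q (c, k) = (c + B + A, k - 1) := by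
          unfold nextSide
          simp only [hA, hB]
          rw [if_pos g2]
        rw [h3, h4]
        exact ⟨rfl, fun h => by simp only at h; omega⟩
      · rw [if_neg g2] at h3
        exact Or.inl h3
    · rw [if_neg (by rw [hr]; exact g), if_pos (by rw [ht]; exact hin)]
      right
      have h3 := lb_B (Q := Q) (κ := κ) (w := w + B) (k := k) (by rw [hA, hB, hr, ht])
      have g3 : c + B + A ∉ Q := by
        intro h
        have := hdg (k := k) hin (by rw [hA, hB]; rwa [add_right_comm] at h)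
        rw [hA, hB] at this
        exact this.elim hout g
      have h4 : nextSide Q (c, k) = (c, k + 1) := by
        unfold nextSide
        simp only [hA, hB]
        rw [if_neg g3, if_neg g]
      rw [h3, h4, ht]
      exact ⟨rfl, fun h => by simp only at h; omega⟩
  · -- V
    have e0 := lb_AB (Q := Q) (κ := κ) (w := w) (k := k) (by rw [hA, hB, hc]; exact ho)
    rw [hA, hB, hc] at e0
    by_cases g : c + B ∈ Q
    · rw [if_pos g] at e0
      rw [e0, if_pos (by rw [hr]; exact g)]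
      refine ⟨⟨g, by simpa [hA, add_right_comm] using hout⟩, Or.inl ?_⟩
      have := lb_B (Q := Q) (κ := κ) (w := w + B + A) (k := k - 1) (by
        rw [eB, hA, hB, hr, show w + B + A + -B = w + A by abel, ho]; abel)
      rw [this, hr, sub_add_cancel]
    · rw [if_neg g] at e0
      rw [if_neg (by rw [hr]; exact g), if_neg (by rw [ht]; exact g)]
      have h3 : lb Q κ (w, k + 1) = (c, k + 1) := by
        rw [← hc]
        exact lb_A (by rw [add_sub_cancel_right, hB, hc]; exact ht)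
      by_cases g2 : c + A ∈ Q
      · rw [if_pos g2] at e0
        have h4 : nextSide Q (c + A, k + 1) = (c, k + 1) := by
          unfold nextSide
          simp only [add_sub_cancel_right, eA, hA, hB]
          rw [show c + A + -A = c by abel, if_neg g, if_pos hin]
        rw [e0, h3, h4]
        refine ⟨⟨g2, ?_⟩, Or.inr ⟨rfl, fun _ => rfl⟩⟩
        simpa [hB] using hout
      · rw [if_neg g2] at e0
        rw [e0, h3]
        exact ⟨⟨hin, by simpa [hB] using g⟩, Or.inl rfl⟩
  · exact absurd hin hout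
  · exact absurd hin hout
  · -- IV
    have e0 : lb Q κ (w, k) = (c, k + 1) := by rw [← hc]; exact lb_B (by rw [hA, hB, hc]; exact ho)
    rw [e0, if_neg (by rw [hr]; exact hout)]
    refine ⟨⟨hin, by simpa [hB] using hout⟩, Or.inr ?_⟩
    by_cases g : c - A + B ∈ Q
    · rw [if_pos (by rw [ht]; exact g)]
      have h3 := lb_A (Q := Q) (κ := κ) (w := w + B) (k := k) (by rw [hA, hr, ht]; abel)
      have h4 : nextSide Q (c, k + 1) = (c - A + B, k) := by
        unfold nextSide
        simp only [add_sub_cancel_right, eA, hA, hB, ← sub_eq_add_neg]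
        rw [if_pos g]
      rw [h3, h4, ht]
      exact ⟨rfl, fun h => by simp only at h; omega⟩
    · rw [if_neg (by rw [ht]; exact g)]
      have h3 := lb_AB (Q := Q) (κ := κ) (w := w) (k := k + 1) (by
        rw [add_sub_cancel_right, eA, hA, hB, hc, ht]; abel)
      rw [add_sub_cancel_right, eA, hA, hB, hc, if_neg hout] at h3
      by_cases g2 : c + -A ∈ Q
      · rw [if_pos g2] at h3
        have h4 : nextSide Q (c, k + 1) = (c + -A, k + 1) := by
          unfold nextSide
          simp only [add_sub_cancel_right, eA, hA, hB]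
          rw [if_neg (by rwa [← sub_eq_add_neg]), if_pos g2]
        rw [h3, h4]
        exact ⟨rfl, fun _ => rfl⟩
      · rw [if_neg g2] at h3
        have h4 : nextSide Q (c, k + 1) = (c, k + 1 + 1) := by
          unfold nextSide
          simp only [add_sub_cancel_right, eA, hA, hB]
          rw [if_neg (by rwa [← sub_eq_add_neg]), if_neg g2]
        rw [h3, h4]
        exact ⟨rfl, fun h => by simp only at h; omega⟩

/-! ### Diamonds -/

/-- Monotone, steps 0 or 1, no two steps in a row. -/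
structure Slow (f : ℤ → ℤ) : Prop where
  mono : ∀ i, f i ≤ f (i + 1)
  slow : ∀ i, f (i + 2) ≤ f i + 1

/-- column and row of the centre of a diamond -/
def co (col row : ℤ → ℤ) (w : Cell) : Cell := (col (w.1 - w.2), row (w.1 + w.2))

lemma co_mk (col row : ℤ → ℤ) {u v x y : ℤ} (hx : u - v = x) (hy : u + v = y) :
    co col row (u, v) = (col x, row y) := by
  unfold co
  simp only
  rw [hx, hy]

lemma exists_loc {col row : ℤ → ℤ} (hcol : Slow col) (hrow : Slow row) (w : Cell) (k : ℤ) :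
    ∃ α1 α2 β1 β2, Loc (co col row) w k α1 α2 β1 β2 := by
  obtain ⟨u, v⟩ := w
  obtain ⟨x, hx⟩ : ∃ x, u - v = x := ⟨_, rfl⟩
  obtain ⟨y, hy⟩ : ∃ y, u + v = y := ⟨_, rfl⟩
  have a1 := hcol.mono x
  have a2 := hcol.mono (x - 1)
  have a3 := hcol.mono (x - 2)
  have a4 := hcol.mono (x + 1)
  have a5 := hcol.slow x
  have a6 := hcol.slow (x - 1)
  have a7 := hcol.slow (x - 2)
  have b1 := hrow.mono y
  have b2 := hrow.mono (y - 1)
  have b3 := hrow.mono (y - 2)
  have b4 := hrow.mono (y + 1)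
  have b5 := hrow.slow y
  have b6 := hrow.slow (y - 1)
  have b7 := hrow.slow (y - 2)
  rw [show x - 1 + 1 = x by ring] at a2
  rw [show x - 2 + 1 = x - 1 by ring] at a3
  rw [show x + 1 + 1 = x + 2 by ring] at a4
  rw [show x - 1 + 2 = x + 1 by ring] at a6
  rw [show x - 2 + 2 = x by ring] at a7
  rw [show y - 1 + 1 = y by ring] at b2
  rw [show y - 2 + 1 = y - 1 by ring] at b3
  rw [show y + 1 + 1 = y + 2 by ring] at b4
  rw [show y - 1 + 2 = y + 1 by ring] at b6
  rw [show y - 2 + 2 = y by ring] at b7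
  rcases dir_cases k with ⟨h, e⟩ | ⟨h, e⟩ | ⟨h, e⟩ | ⟨h, e⟩ <;>
  rcases dir_cases (k - 1) with ⟨h', e'⟩ | ⟨h', e'⟩ | ⟨h', e'⟩ | ⟨h', e'⟩ <;>
  first | (exfalso; omega) | skip
  · refine ⟨row (y + 1) - row y, row y - row (y - 1), col (x + 1) - col x, col (x + 2) - col (x + 1),
      by omega, by omega, ?_, ?_, ?_⟩ <;> rw [e']
    · rw [e, Prod.mk_add_mk, co_mk col row hx hy, co_mk col row (x := x + 1) (y := y - 1) (by omega) (by omega)]
      simp
    · rw [e, Prod.mk_add_mk, co_mk col row hx hy, co_mk col row (x := x + 1) (y := y + 1) (by omega) (by omega)]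
      simp
    · rw [e, Prod.mk_add_mk, Prod.mk_add_mk, co_mk col row hx hy, co_mk col row (x := x + 2) (y := y) (by omega) (by omega)]
      simp
  · refine ⟨col x - col (x - 1), col (x + 1) - col x, row (y + 1) - row y, row (y + 2) - row (y + 1),
      by omega, by omega, ?_, ?_, ?_⟩ <;> rw [e']
    · rw [e, Prod.mk_add_mk, co_mk col row hx hy, co_mk col row (x := x + 1) (y := y + 1) (by omega) (by omega)]
      simp
    · rw [e, Prod.mk_add_mk, co_mk col row hx hy, co_mk col row (x := x - 1) (y := y + 1) (by omega) (by omega)]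
      simp
    · rw [e, Prod.mk_add_mk, Prod.mk_add_mk, co_mk col row hx hy, co_mk col row (x := x) (y := y + 2) (by omega) (by omega)]
      simp
  · refine ⟨row y - row (y - 1), row (y + 1) - row y, col x - col (x - 1), col (x - 1) - col (x - 2),
      by omega, by omega, ?_, ?_, ?_⟩ <;> rw [e']
    · rw [e, Prod.mk_add_mk, co_mk col row hx hy, co_mk col row (x := x - 1) (y := y + 1) (by omega) (by omega)]
      simp
    · rw [e, Prod.mk_add_mk, co_mk col row hx hy, co_mk col row (x := x - 1) (y := y - 1) (by omega) (by omega)]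
      simp
    · rw [e, Prod.mk_add_mk, Prod.mk_add_mk, co_mk col row hx hy, co_mk col row (x := x - 2) (y := y) (by omega) (by omega)]
      simp
  · refine ⟨col (x + 1) - col x, col x - col (x - 1), row y - row (y - 1), row (y - 1) - row (y - 2),
      by omega, by omega, ?_, ?_, ?_⟩ <;> rw [e']
    · rw [e, Prod.mk_add_mk, co_mk col row hx hy, co_mk col row (x := x - 1) (y := y - 1) (by omega) (by omega)]
      simp
    · rw [e, Prod.mk_add_mk, co_mk col row hx hy, co_mk col row (x := x + 1) (y := y - 1) (by omega) (by omega)]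
      simp
    · rw [e, Prod.mk_add_mk, Prod.mk_add_mk, co_mk col row hx hy, co_mk col row (x := x) (y := y - 2) (by omega) (by omega)]
      simp

/-- **Step property of the labels.** -/
theorem lb_step {Q D : Finset Cell} (hG : Good Q) {col row : ℤ → ℤ} (hcol : Slow col)
    (hrow : Slow row) (hD : ∀ c, c ∈ D ↔ co col row c ∈ Q) {s : Cell × ℤ} (hs : IsSide D s) :
    IsSide Q (lb Q (co col row) s) ∧ (lb Q (co col row) (nextSide D s) = lb Q (co col row) s ∨
      (lb Q (co col row) (nextSide D s) = nextSide Q (lb Q (co col row) s) ∧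
        ((nextSide Q (lb Q (co col row) s)).2 = (lb Q (co col row) s).2 →
          nextSide D s = (s.1, s.2 + 1)))) := by
  obtain ⟨w, k⟩ := s
  obtain ⟨α1, α2, β1, β2, hL⟩ := exists_loc hcol hrow w k
  exact lb_core hG.diag1 hG.diag2 hD hL hs

end Pool.Agent.H86.W
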