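import Mathlib
import Pool.Agent.H86.W.TOk

set_option autoImplicit false
open Finset

/-! # The regions of the first layer from the range of a run

`trg_mk` : a tile of the first layer at distance `≥ 11`, `≥ 13` of the ends of a run is in its region.
`tfirst_no` : a random tile of the tied form which is not a tie is near the ends of the run. -/

namespace Pool.Agent.H86.W

open Pool.Agent.H75.TwoArm Pool.Agent.Q1 Pool.Agent.H33.Q1
open Pool.Agent.H54.W Pool.Agent.H54.W.HWin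
open Pool.Agent.H46.Sp (nxt Kd TSys)

variable {D : HWin} {τ : ℤ → ℤ} {G : Finset ℤ} {L : ℤ} {a : Rh G} {t x y : ℤ}

lemma trg_mk (hL : -1 ≤ L) (hact : tact D τ a.2.1 a.1)
    (h2 : tlo D τ a.2.1 a.1 + 11 ≤ t) (h3 : t + 13 ≤ thi D τ G a.2.1 a.1) :
    (tsys D τ G).Rg L a (-1) t := by
  have e1 : (tsys D τ G).q a = tq D τ a.2.1 a.1 := rfl
  have e2 : ((tsys D τ G).N a : ℤ) = ((thi D τ G a.2.1 a.1 - 4 -
      tq D τ a.2.1 a.1) / 2).toNat := by
    change ((tN D τ G a.2.1 a.1 : ℕ) : ℤ) = _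
    unfold tN
    rw [if_pos hact]
  have e3 : tq D τ a.2.1 a.1 ≤ tlo D τ a.2.1 a.1 + 5 := by
    unfold tq; omega
  refine ⟨le_rfl, hL, ?_, ?_⟩
  · rw [e1]; omega
  · rw [e1, e2]; omega

/-- a tile of the first layer of a run is a tie or is not random or is near the ends of the run -/
lemma tfirst_no {E W : Finset (ℤ × ℤ)} (hO : (tsys D τ G).Ok E W L) (hL : -1 ≤ L)
    (hE : lt (x, y) ∈ E) (hT : lt (x, y) ∉ (tsys D τ G).Ti) (a : Rh G)
    (hact : tact D τ a.2.1 a.1) (he : (tsys D τ G).tl a (-1) t = (x, y)) :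
    t < tlo D τ a.2.1 a.1 + 11 ∨ thi D τ G a.2.1 a.1 < t + 13 := by
  by_contra hcon
  push Not at hcon
  have h2 := hO.first a t (trg_mk hL hact hcon.1 hcon.2)
  rw [he] at h2
  rcases h2 with h2 | h2
  · exact hT h2
  · exact h2.1 hE

end Pool.Agent.H86.W
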